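import Mathlib

/-! Continuous logarithms along a closed curve and on the faces of an exceptional point. -/

open Set Complex

noncomputable section

namespace Pool.Agent.Lib.MP_9488bf_co.Tri

theorem exists_log {E : Type} [NormedAddCommGroup E] [NormedSpace ℝ E] {S : Set E}
    (hS : Convex ℝ S) {x₀ : E} (h0 : x₀ ∈ S) {g : E → ℂ} (hg : ContinuousOn g S)
    (hz : ∀ x ∈ S, g x ≠ 0) {e : ℂ} (he : exp e = g x₀) :
    ∃ f : E → ℂ, ContinuousOn f S ∧ (∀ x ∈ S, exp (f x) = g x) ∧ f x₀ = e := by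
  classical
  have := hS.contractibleSpace ⟨x₀, h0⟩
  have := hS.locallyPathConnectedSpace
  obtain ⟨f, ⟨h1, h2⟩, -⟩ := isCoveringMapOn_exp.existsUnique_continuousMap_lifts
    ⟨S.domRestrict g, continuousOn_iff_continuous_domRestrict.mp hg⟩ (a₀ := ⟨x₀, h0⟩) he
    (fun x => hz x x.2)
  refine ⟨fun z => if hz : z ∈ S then f ⟨z, hz⟩ else 0, ?_, fun x hx => ?_, ?_⟩
  · rw [continuousOn_iff_continuous_domRestrict]
    refine (map_continuous f).congr fun z => ?_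
    simp [Set.domRestrict]
  · simpa [hx] using congrFun h2 ⟨x, hx⟩
  · simpa [h0] using h1

theorem log_eq {X : Type} [TopologicalSpace X] {S : Set X} (hS : IsPreconnected S) {f g : X → ℂ}
    (hf : ContinuousOn f S) (hg : ContinuousOn g S) (h : ∀ x ∈ S, exp (f x) = exp (g x)) {a : X}
    (ha : a ∈ S) (e : f a = g a) : ∀ x ∈ S, f x = g x :=
  isCoveringMap_exp.eqOn_of_comp_eqOn hS hf hg (fun x hx => Subtype.ext (h x hx)) ha e

theorem slit {w : ℂ} (h : ‖w‖ ≤ 1) (h1 : 1 - w ≠ 0) : 1 - w ∈ slitPlane := by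
  have h2 := Complex.sq_norm w ▸ pow_le_one₀ (n := 2) (norm_nonneg w) h
  rw [normSq_apply] at h2
  by_contra hc
  rw [mem_slitPlane_iff, not_or, not_lt, not_not] at hc
  simp only [sub_re, one_re, sub_im, one_im, zero_sub, neg_eq_zero] at hc
  refine h1 (Complex.ext ?_ (by simp [hc.2]))
  simp only [sub_re, one_re, zero_re]
  nlinarith [hc.1]

/-- the principal logarithm of `1 - w` along a family in the closed unit disc -/
theorem cont_log {X : Type} [TopologicalSpace X] {S : Set X} {w : X → ℂ} (hw : ContinuousOn w S)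
    (h : ∀ x ∈ S, ‖w x‖ ≤ 1) (h1 : ∀ x ∈ S, 1 - w x ≠ 0) :
    ContinuousOn (fun x => log (1 - w x)) S :=
  (continuousOn_const.sub hw).clog fun x hx => slit (h x hx) (h1 x hx)

/-- a simple closed curve with a logarithm of its chords -/
structure Cur (c : ℝ → ℂ) (Λ : ℝ × ℝ → ℂ) (k : ℂ) : Prop where
  cont : Continuous c
  per : ∀ t, c (t + 1) = c t
  Λc : ContinuousOn Λ {x | x.1 < x.2 ∧ x.2 < x.1 + 1}
  Λe : ∀ s t, s < t → t < s + 1 → exp (Λ (s, t)) = c t - c s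
  Λk : ∀ s t, s < t → t < s + 1 → Λ (t, s + 1) = Λ (s, t) + k
  ke : exp k = -1

theorem exists_cur {c : ℝ → ℂ} (hc : Continuous c) (hp : ∀ t, c (t + 1) = c t)
    (hi : ∀ s t, s < t → t < s + 1 → c t ≠ c s) : ∃ Λ k, Cur c Λ k := by
  have hS : Convex ℝ {x : ℝ × ℝ | x.1 < x.2 ∧ x.2 < x.1 + 1} := by
    intro x hx y hy a b ha hb hab
    obtain rfl : b = 1 - a := by linarith
    simp only [mem_ofPred_eq, Prod.fst_add, Prod.snd_add, Prod.smul_fst, Prod.smul_snd,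
      smul_eq_mul] at *
    rcases ha.eq_or_lt with rfl | ha'
    · constructor <;> linarith [hy.1, hy.2]
    · constructor <;> nlinarith [hx.1, hx.2, hy.1, hy.2]
  have h0 : ((0, 1 / 2) : ℝ × ℝ) ∈ {x : ℝ × ℝ | x.1 < x.2 ∧ x.2 < x.1 + 1} := by
    constructor <;> norm_num
  obtain ⟨Λ, h1, h2, -⟩ := exists_log hS h0 (g := fun x => c x.2 - c x.1) (by fun_prop)
    (fun x hx => sub_ne_zero.2 (hi _ _ hx.1 hx.2))
    (exp_log (sub_ne_zero.2 (hi _ _ h0.1 h0.2)))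
  have m : MapsTo (fun x : ℝ × ℝ => (x.2, x.1 + 1)) {x | x.1 < x.2 ∧ x.2 < x.1 + 1}
      {x | x.1 < x.2 ∧ x.2 < x.1 + 1} := fun x hx => ⟨hx.2, by linarith [hx.1]⟩
  have ke : exp (Λ (1 / 2, 0 + 1) - Λ (0, 1 / 2)) = -1 := by
    rw [exp_sub, h2 _ (m h0), h2 _ h0, hp, ← neg_sub, neg_div,
      div_self (sub_ne_zero.2 (hi _ _ h0.1 h0.2))]
  refine ⟨Λ, _, hc, hp, h1, fun s t a b => h2 (s, t) ⟨a, b⟩, fun s t a b => ?_, ke⟩
  refine log_eq hS.isPreconnected (f := fun x => Λ (x.2, x.1 + 1))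
    (g := fun x => Λ x + (Λ (1 / 2, 0 + 1) - Λ (0, 1 / 2))) (h1.comp (by fun_prop) m)
    (h1.add continuousOn_const) (fun x hx => ?_) h0 (by simp) (s, t) ⟨a, b⟩
  rw [exp_add, ke, h2 _ (m hx), h2 _ hx, hp]
  ring

variable {c : ℝ → ℂ} {Λ : ℝ × ℝ → ℂ} {k : ℂ}

theorem Cur.ne (H : Cur c Λ k) {s t : ℝ} (h1 : s < t) (h2 : t < s + 1) : c t - c s ≠ 0 :=
  H.Λe s t h1 h2 ▸ exp_ne_zero _

theorem Cur.sl (H : Cur c Λ k) {S : Set ℝ} {a b : ℝ → ℝ} (ha : Continuous a) (hb : Continuous b)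
    (h : ∀ t ∈ S, a t < b t ∧ b t < a t + 1) : ContinuousOn (fun t => Λ (a t, b t)) S :=
  H.Λc.comp (ha.prodMk hb).continuousOn h

theorem Cur.ke' (H : Cur c Λ k) : exp (-k) = -1 := by
  rw [exp_neg, H.ke]; norm_num

theorem Cur.far (H : Cur c Λ k) (p : ℝ) :
    ∃ u ∈ Ioo p (p + 1), ∀ t ∈ Icc p (p + 1), ‖c t - c p‖ ≤ ‖c u - c p‖ := by
  have := H.cont
  obtain ⟨u, hu, h⟩ := (isCompact_Icc (a := p) (b := p + 1)).exists_isMaxOn
    ⟨p, by simp⟩ (f := fun t => ‖c t - c p‖) (by fun_prop)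
  have h1 : 0 < ‖c u - c p‖ :=
    (norm_pos_iff.2 (H.ne (s := p) (t := p + 1 / 2) (by linarith) (by linarith))).trans_le
      (h (a := p + 1 / 2) ⟨by linarith, by linarith⟩)
  refine ⟨u, ⟨hu.1.lt_of_ne ?_, hu.2.lt_of_ne ?_⟩, fun t ht => h ht⟩
  · rintro rfl
    simp at h1
  · rintro rfl
    simp [H.per] at h1

/-- a square without its corners -/
def Q (p : ℝ) : Set (ℝ × ℝ) :=
  {x | x.1 ∈ Icc p (p + 1) ∧ x.2 ∈ Icc p (p + 1) ∧ (x.1 ∈ Ioo p (p + 1) ∨ x.2 ∈ Ioo p (p + 1))}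

theorem convex_Q (p : ℝ) : Convex ℝ (Q p) := by
  intro x hx y hy a b ha hb hab
  rcases ha.eq_or_lt with rfl | ha'
  · obtain rfl : b = 1 := by linarith
    simpa using hy
  refine ⟨convex_Icc _ _ hx.1 hy.1 ha hb hab, convex_Icc _ _ hx.2.1 hy.2.1 ha hb hab, ?_⟩
  obtain rfl : b = 1 - a := by linarith
  simp only [Prod.fst_add, Prod.snd_add, Prod.smul_fst, Prod.smul_snd, smul_eq_mul, mem_Ioo]
  refine hx.2.2.imp (fun h => ?_) fun h => ?_
  · constructor <;> nlinarith [h.1, h.2, hy.1.1, hy.1.2]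
  · constructor <;> nlinarith [h.1, h.2, hy.2.1.1, hy.2.1.2]

theorem mem_Q₁ {p t u : ℝ} (ht : t ∈ Ioo p (p + 1)) (hu : u ∈ Icc p (p + 1)) : (t, u) ∈ Q p :=
  ⟨Ioo_subset_Icc_self ht, hu, .inl ht⟩

theorem mem_Q₂ {p t u : ℝ} (ht : t ∈ Icc p (p + 1)) (hu : u ∈ Ioo p (p + 1)) : (t, u) ∈ Q p :=
  ⟨ht, Ioo_subset_Icc_self hu, .inr hu⟩

/-- the logarithm on the face of the point `p` -/
structure Sq (c : ℝ → ℂ) (Λ : ℝ × ℝ → ℂ) (p : ℝ) (μ : ℂ) (F : ℝ × ℝ → ℂ) : Prop where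
  le : ‖μ‖ ≤ 1
  Fc : ContinuousOn F (Q p)
  Fe : ∀ x ∈ Q p, exp (F x) = c x.2 - c p - μ * (c x.1 - c p)
  diag : ∀ t ∈ Ioo p (p + 1), F (t, t) = Λ (p, t) + log (1 - μ)

variable {p : ℝ} {μ : ℂ} {F : ℝ × ℝ → ℂ}

theorem Sq.sl (S : Sq c Λ p μ F) {T : Set ℝ} {a b : ℝ → ℝ} (ha : Continuous a)
    (hb : Continuous b) (h : ∀ t ∈ T, (a t, b t) ∈ Q p) :
    ContinuousOn (fun t => F (a t, b t)) T :=
  S.Fc.comp (ha.prodMk hb).continuousOn h

theorem Cur.exists_sq (H : Cur c Λ k) (h1 : ‖μ‖ ≤ 1) (h2 : 1 - μ ≠ 0)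
    (hb : ∀ t u, c u - c p = μ * (c t - c p) → c t = c p) : ∃ F, Sq c Λ p μ F := by
  have := H.cont
  have h0 : p + 1 / 2 ∈ Ioo p (p + 1) := ⟨by linarith, by linarith⟩
  have e : ∀ t ∈ Ioo p (p + 1),
      exp (Λ (p, t) + log (1 - μ)) = c t - c p - μ * (c t - c p) := fun t ht => by
    rw [exp_add, H.Λe _ _ ht.1 ht.2, exp_log h2]; ring
  obtain ⟨F, a1, a2, a3⟩ := exists_log (convex_Q p) (mem_Q₁ h0 (Ioo_subset_Icc_self h0))
    (g := fun x => c x.2 - c p - μ * (c x.1 - c p)) (by fun_prop) (fun x hx h => by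
      have h3 := hb _ _ (sub_eq_zero.1 h)
      rw [h3, sub_self, mul_zero, sub_zero] at h
      rcases hx.2.2 with h4 | h4
      · exact H.ne h4.1 h4.2 (sub_eq_zero.2 h3)
      · exact H.ne h4.1 h4.2 h) (e _ h0)
  refine ⟨F, h1, a1, a2, log_eq isPreconnected_Ioo (f := fun t => F (t, t))
    (a1.comp (by fun_prop) fun t ht => mem_Q₁ ht (Ioo_subset_Icc_self ht))
    ((H.sl continuous_const continuous_id' fun t ht => ht).add continuousOn_const)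
    (fun t ht => ?_) h0 a3⟩
  rw [a2 _ (mem_Q₁ ht (Ioo_subset_Icc_self ht)), e t ht]

/-- seen from a farthest point the logarithm is the principal one -/
theorem Sq.far (H : Cur c Λ k) (S : Sq c Λ p μ F) {u : ℝ} (hu : u ∈ Ioo p (p + 1))
    (h : ∀ t ∈ Icc p (p + 1), ‖c t - c p‖ ≤ ‖c u - c p‖) : ∀ t ∈ Icc p (p + 1),
    F (t, u) = Λ (p, u) + log (1 - μ * (c t - c p) / (c u - c p)) := by
  have := H.cont
  have h0 := H.ne hu.1 hu.2
  have e : ∀ t ∈ Icc p (p + 1),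
      exp (F (t, u)) = (c u - c p) * (1 - μ * (c t - c p) / (c u - c p)) := fun t ht => by
    rw [S.Fe _ (mem_Q₂ ht hu)]; field_simp
  have n : ∀ t ∈ Icc p (p + 1), 1 - μ * (c t - c p) / (c u - c p) ≠ 0 := fun t ht =>
    right_ne_zero_of_mul (e t ht ▸ exp_ne_zero _)
  refine log_eq isPreconnected_Icc (S.sl continuous_id' continuous_const fun t ht => mem_Q₂ ht hu)
    (continuousOn_const.add (cont_log (by fun_prop) (fun t ht => ?_) n)) (fun t ht => ?_)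
    (Ioo_subset_Icc_self hu) ?_
  · rw [norm_div, norm_mul, div_le_one (norm_pos_iff.2 h0)]
    exact (mul_le_of_le_one_left (norm_nonneg _) S.le).trans (h t ht)
  · rw [exp_add, H.Λe _ _ hu.1 hu.2, exp_log (n t ht)]
    exact e t ht
  · rw [mul_div_assoc, div_self h0, mul_one]
    exact S.diag u hu

theorem Sq.edge (H : Cur c Λ k) (S : Sq c Λ p μ F) {t : ℝ} (ht : t ∈ Icc p (p + 1))
    (e : c t = c p) : ∀ u ∈ Ioo p (p + 1), F (t, u) = Λ (p, u) := by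
  obtain ⟨u, hu, h⟩ := H.far p
  refine log_eq isPreconnected_Ioo (S.sl continuous_const continuous_id' fun u hu => mem_Q₂ ht hu)
    (H.sl continuous_const continuous_id' fun t ht => ht) (fun u hu => ?_) hu ?_
  · rw [S.Fe _ (mem_Q₂ ht hu), H.Λe _ _ hu.1 hu.2, e]
    simp
  · rw [S.far H hu h t ht, e]
    simp

/-- the value on a horizontal edge is fixed by its value at one point -/
theorem Sq.edge' (H : Cur c Λ k) (S : Sq c Λ p μ F) {u : ℝ} (hu : u ∈ Icc p (p + 1))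
    (e : c u = c p) {w : ℂ} (hw : exp w = -μ) {q : ℝ} (hq : q ∈ Ioo p (p + 1))
    (h : F (q, u) = Λ (p, q) + w) : ∀ t ∈ Ioo p (p + 1), F (t, u) = Λ (p, t) + w := by
  refine log_eq isPreconnected_Ioo (S.sl continuous_id' continuous_const fun t ht => mem_Q₁ ht hu)
    ((H.sl continuous_const continuous_id' fun t ht => ht).add continuousOn_const)
    (fun t ht => ?_) hq h
  rw [S.Fe _ (mem_Q₁ ht hu), exp_add, H.Λe _ _ ht.1 ht.2, e, hw]
  ring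

/-- three exceptional points fix the remaining constants -/
theorem three (H : Cur c Λ k) {q r : ℝ} {F' : ℝ × ℝ → ℂ} (h1 : p < q) (h2 : q < r)
    (h3 : r < p + 1) (S : Sq c Λ p μ F) (S' : Sq c Λ q (1 - μ) F') (m0 : μ ≠ 0) (m1 : 1 - μ ≠ 0)
    (hr : ∀ s t, c r = μ * c t + (1 - μ) * c s → c s = c t) :
    (∀ t ∈ Ioo p (p + 1), F (t, p + 1) = Λ (p, t) + (log μ + k)) ∧
      ∀ t ∈ Ioo q (q + 1), F' (t, q) = Λ (q, t) + (log (1 - μ) - k) := by
  have := H.cont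
  have hp : p ∈ Icc p q := left_mem_Icc.2 h1.le
  have hq : q ∈ Icc p q := right_mem_Icc.2 h1.le
  have rp : r ∈ Ioo p (p + 1) := ⟨h1.trans h2, h3⟩
  have rq : r ∈ Ioo q (q + 1) := ⟨h2, by linarith⟩
  have qp : q ∈ Ioo p (p + 1) := ⟨h1, h2.trans h3⟩
  have pq : p + 1 ∈ Ioo q (q + 1) := ⟨h2.trans h3, by linarith⟩
  have st : ∀ t ∈ Icc p q, t < r ∧ r < t + 1 := fun t ht =>
    ⟨ht.2.trans_lt h2, by linarith [ht.1]⟩
  obtain ⟨G, g1, g2, g3⟩ := exists_log ((convex_Icc p q).prod (convex_Icc p q))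
    (x₀ := (p, p)) ⟨hp, hp⟩ (g := fun x => c r - μ * c x.2 - (1 - μ) * c x.1) (by fun_prop)
    (fun x hx h => by
      have h4 := hr x.1 x.2 (by linear_combination h)
      rw [h4] at h
      exact H.ne (st _ hx.2).1 (st _ hx.2).2 (by linear_combination h))
    (e := Λ (p, r)) (by rw [H.Λe _ _ rp.1 rp.2]; ring)
  have a1 : G (q, q) = Λ (q, r) := log_eq isPreconnected_Icc (f := fun t => G (t, t))
    (g1.comp (by fun_prop) fun t ht => ⟨ht, ht⟩) (H.sl continuous_id' continuous_const st)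
    (fun t ht => by rw [g2 _ ⟨ht, ht⟩, H.Λe _ _ (st t ht).1 (st t ht).2]; ring)
    hp g3 q hq
  have m2 : ∀ t ∈ Icc p q, (t, r) ∈ Q p := fun t ht =>
    mem_Q₂ ⟨ht.1, ht.2.trans qp.2.le⟩ rp
  have a2 : G (p, q) = F (q, r) := log_eq isPreconnected_Icc (f := fun t => G (p, t))
    (g1.comp (by fun_prop) fun t ht => ⟨hp, ht⟩) (S.sl continuous_id' continuous_const m2)
    (fun t ht => by rw [g2 _ ⟨hp, ht⟩, S.Fe _ (m2 t ht)]; ring)
    hp (g3.trans (S.edge H ⟨le_rfl, by linarith⟩ rfl r rp).symm) q hq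
  have m3 : ∀ s ∈ Icc p q, (s + 1, r) ∈ Q q := fun s hs =>
    mem_Q₂ ⟨by linarith [hs.1], by linarith [hs.2]⟩ rq
  have a3 : G (p, q) = F' (p + 1, r) := log_eq isPreconnected_Icc (f := fun s => G (s, q))
    (g := fun s => F' (s + 1, r))
    (g1.comp (by fun_prop) fun t ht => ⟨ht, hq⟩) (S'.sl (by fun_prop) continuous_const m3)
    (fun t ht => by rw [g2 _ ⟨ht, hq⟩, S'.Fe _ (m3 t ht), H.per]; ring)
    hq (a1.trans (S'.edge H ⟨by linarith, le_rfl⟩ (H.per q) r rq).symm) p hp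
  have m4 : ∀ u ∈ Icc q (p + 1), (q, u) ∈ Q p := fun u hu => mem_Q₁ qp ⟨h1.le.trans hu.1, hu.2⟩
  have m5 : ∀ u ∈ Icc q (p + 1), (p + 1, u) ∈ Q q := fun u hu =>
    mem_Q₁ pq ⟨hu.1, hu.2.trans pq.2.le⟩
  have a4 : ∀ u ∈ Icc q (p + 1), F (q, u) = F' (p + 1, u) := log_eq isPreconnected_Icc
    (S.sl continuous_const continuous_id' m4) (S'.sl continuous_const continuous_id' m5)
    (fun u hu => by rw [S.Fe _ (m4 u hu), S'.Fe _ (m5 u hu), H.per]; ring)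
    ⟨h2.le, h3.le⟩ (a2.symm.trans a3)
  have l := H.Λk p q qp.1 qp.2
  refine ⟨S.edge' H ⟨by linarith, le_rfl⟩ (H.per p) ?_ qp ?_,
    S'.edge' H ⟨le_rfl, by linarith⟩ rfl ?_ pq ?_⟩
  · rw [exp_add, exp_log m0, H.ke]; ring
  · rw [a4 _ ⟨qp.2.le, le_rfl⟩, S'.diag _ pq, l, sub_sub_cancel]; ring
  · rw [sub_eq_add_neg (log _), exp_add, exp_log m1, H.ke']; ring
  · rw [← a4 _ ⟨le_rfl, qp.2.le⟩, S.diag _ qp, l]; ring

end Pool.Agent.Lib.MP_9488bf_co.Tri
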