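import Pool.Agent.Lib.MP_9488bf_co.H81TriA

/-! The lifted inside of a curve, and two invariant rays which must cross. -/

open Set Complex
open scoped Real

noncomputable section

namespace Pool.Agent.Lib.MP_9488bf_co.Tri

/-- a bounded perturbation of the identity has a zero -/
theorem exists_zero {Ψ : ℂ → ℂ} (hΨ : Continuous Ψ) {M : ℝ} (h : ∀ z, ‖z - Ψ z‖ < M) :
    ∃ z, ‖z‖ ≤ M ∧ Ψ z = 0 := by
  by_contra hc
  push Not at hc
  have M0 : 0 < M := (norm_nonneg _).trans_lt (h 0)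
  have M1 : (M : ℂ) ≠ 0 := by exact_mod_cast M0.ne'
  have h0 : (0 : ℂ) ∈ Metric.closedBall (0 : ℂ) M := by simpa using M0.le
  obtain ⟨L, l1, l2, -⟩ := exists_log (convex_closedBall (0 : ℂ) M) h0 hΨ.continuousOn
    (fun z hz => hc z (by simpa using hz)) (exp_log (hc 0 (by simpa using M0.le)))
  set z : ℝ → ℂ := fun θ => M * exp (θ * I) with hz
  have n : ∀ θ, ‖z θ‖ = M := fun θ => by simp [hz, abs_of_pos M0]
  have z0 : ∀ θ, z θ ≠ 0 := fun θ => mul_ne_zero M1 (exp_ne_zero _)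
  have m : ∀ θ, z θ ∈ Metric.closedBall (0 : ℂ) M := fun θ => by simp [n]
  have zc : Continuous z := by fun_prop
  have e : ∀ θ, 1 - (z θ - Ψ (z θ)) / z θ = Ψ (z θ) / z θ := fun θ => by
    have := z0 θ
    field_simp
    ring
  have n1 : ∀ θ, 1 - (z θ - Ψ (z θ)) / z θ ≠ 0 := fun θ => by
    rw [e]; exact div_ne_zero (hc _ (n θ).le) (z0 θ)
  have z1 : z (2 * π) = z 0 := by simp [hz]
  have key := log_eq isPreconnected_univ (f := fun θ : ℝ => L (z θ))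
    (g := fun θ : ℝ => L (z 0) - log (1 - (z 0 - Ψ (z 0)) / z 0) + θ * I +
      log (1 - (z θ - Ψ (z θ)) / z θ))
    (l1.comp zc.continuousOn fun θ _ => m θ)
    ((by fun_prop : ContinuousOn _ _).add (cont_log
      (((zc.sub (hΨ.comp zc)).div zc z0).continuousOn)
      (fun θ _ => by rw [norm_div, n, div_le_one M0]; exact (h _).le) fun θ _ => n1 θ))
    (fun θ _ => by
      rw [exp_add, exp_add, exp_sub, exp_log (n1 _), exp_log (n1 _), l2 _ (m _), l2 _ (m _), e, e]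
      have h1 := hc _ (n 0).le
      have h2 := exp_ne_zero (θ * I)
      simp only [hz, ofReal_zero, zero_mul, exp_zero, mul_one] at h1 ⊢
      field_simp) (mem_univ 0) (by simp) (2 * π) (mem_univ _)
  simp only [z1] at key
  have : ((2 * π : ℝ) : ℂ) * I = 0 := by linear_combination -key
  simp at this

/-- two rays with bounded perturbations cross after a vertical shift -/
theorem cross {h₁ h₂ : ℝ → ℂ} (c₁ : Continuous h₁) (c₂ : Continuous h₂) {B₁ B₂ : ℝ}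
    (b₁ : ∀ s, ‖h₁ s‖ ≤ B₁) (b₂ : ∀ s, ‖h₂ s‖ ≤ B₂) {v₁ v₂ : ℂ} (r₁ : v₁.re < 0) (r₂ : v₂.re < 0)
    (i₁ : 0 < v₁.im) (i₂ : v₂.im < 0) :
    ∃ s t : ℝ, 0 ≤ s ∧ 0 ≤ t ∧ ∃ n : ℕ, 0 < n ∧
      h₁ s + s * v₁ = h₂ t + t * v₂ + n * (2 * π * I) := by
  set M := B₁ + B₂ + 1
  have M0 : 0 < M := by linarith [(norm_nonneg _).trans (b₁ 0), (norm_nonneg _).trans (b₂ 0)]
  set D := v₁.re * v₂.im - v₂.re * v₁.im
  have D0 : 0 < D := by nlinarith [mul_pos_of_neg_of_neg r₁ i₂, mul_pos (neg_pos.2 r₂) i₁]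
  obtain ⟨n, hn⟩ := exists_nat_gt (M + M * v₂.im / v₂.re + M * v₁.im / -v₁.re)
  have p1 : 0 < M * v₂.im / v₂.re := div_pos_of_neg_of_neg (mul_neg_of_pos_of_neg M0 i₂) r₂
  have p2 : 0 < M * v₁.im / -v₁.re := div_pos (mul_pos M0 i₁) (neg_pos.2 r₁)
  have n0 : (0 : ℝ) < n := by linarith
  have n1 : (n : ℝ) ≤ n * (2 * π) := by nlinarith [Real.pi_gt_three]
  set s : ℂ → ℝ := fun z => (v₂.im * z.re - v₂.re * (z.im + n * (2 * π))) / D with hs
  set t : ℂ → ℝ := fun z => (v₁.im * z.re - v₁.re * (z.im + n * (2 * π))) / D with ht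
  have lin : ∀ z, s z * v₁ - t z * v₂ = z + n * (2 * π * I) := fun z => by
    apply Complex.ext
    · simp only [hs, ht, sub_re, mul_re, ofReal_re, ofReal_im, add_re, natCast_re, natCast_im,
        I_re, I_im, re_ofNat, im_ofNat, mul_im]
      field_simp
      simp only [D]; ring
    · simp only [hs, ht, sub_im, mul_re, ofReal_re, ofReal_im, add_im, natCast_re, natCast_im,
        I_re, I_im, re_ofNat, im_ofNat, mul_im]
      field_simp
      simp only [D]; ring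
  obtain ⟨z, hz, h0⟩ := exists_zero (Ψ := fun z => z + h₁ (s z) - h₂ (t z)) (by fun_prop)
    (M := M) fun z => by
      rw [show z - (z + h₁ (s z) - h₂ (t z)) = h₂ (t z) - h₁ (s z) by ring]
      linarith [norm_sub_le (h₂ (t z)) (h₁ (s z)), b₁ (s z), b₂ (t z)]
  have x1 := abs_le.1 ((abs_re_le_norm z).trans hz)
  have x2 := abs_le.1 ((abs_im_le_norm z).trans hz)
  refine ⟨s z, t z, div_nonneg ?_ D0.le, div_nonneg ?_ D0.le, n, by exact_mod_cast n0, ?_⟩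
  · have : M * v₂.im / v₂.re ≤ z.im + n * (2 * π) := by linarith
    rw [div_le_iff_of_neg r₂] at this
    nlinarith
  · have : M * v₁.im / -v₁.re ≤ z.im + n * (2 * π) := by linarith
    rw [div_le_iff₀ (neg_pos.2 r₁)] at this
    nlinarith
  · linear_combination h0 + lin z

/-- an invariant set which joins a point to its translate contains a perturbed ray -/
theorem ray {D : Set ℂ} {v a : ℂ} (hv : ∀ z ∈ D, z + v ∈ D) (hj : JoinedIn D a (a + v)) :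
    ∃ h : ℝ → ℂ, Continuous h ∧ ∃ B, (∀ s, ‖h s‖ ≤ B) ∧ ∀ s : ℝ, 0 ≤ s → h s + s * v ∈ D := by
  obtain ⟨γ, hγ⟩ := hj
  have c1 : Continuous fun x : ℝ => γ.extend x - x * v := by fun_prop
  obtain ⟨B, hB⟩ := (isCompact_Icc (a := (0 : ℝ)) (b := 1)).exists_bound_of_continuousOn
    c1.continuousOn
  have m : ∀ s : ℝ, Int.fract s ∈ Icc (0 : ℝ) 1 := fun s =>
    ⟨Int.fract_nonneg s, (Int.fract_lt_one s).le⟩
  have it : ∀ n : ℕ, ∀ z ∈ D, z + n * v ∈ D := fun n z hz => by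
    induction n with
    | zero => simpa using hz
    | succ n ih => convert hv _ ih using 1; push_cast; ring
  refine ⟨_, c1.continuousOn.comp_fract'' (by simp), B, fun s => hB _ (m s), fun s hs => ?_⟩
  have h1 := it ⌊s⌋₊ _ (hγ ⟨_, m s⟩)
  rw [← γ.extend_apply (m s)] at h1
  convert h1 using 1
  have h2 : s = Int.fract s + ⌊s⌋₊ := by
    rw [natCast_floor_eq_intCast_floor hs, Int.fract_add_floor]
  have h3 : (s : ℂ) = Int.fract s + ⌊s⌋₊ := by exact_mod_cast congrArg ofReal h2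
  simp only [Function.comp]
  linear_combination v * h3

/-- a curve based at the origin, with a farthest point -/
structure Bas (c : ℝ → ℂ) (Λ : ℝ × ℝ → ℂ) (k : ℂ) (m : ℝ) : Prop extends Cur c Λ k where
  zero : c 0 = 0
  mem : m ∈ Ioo (0 : ℝ) 1
  far : ∀ t ∈ Icc (0 : ℝ) 1, ‖c t‖ ≤ ‖c m‖

/-- lifted points inside the curve -/
def In (c : ℝ → ℂ) (Λ : ℝ × ℝ → ℂ) (k : ℂ) (m : ℝ) (ζ : ℂ) : Prop :=
  ∃ f : ℝ → ℂ, ContinuousOn f (Icc 0 1) ∧ (∀ u ∈ Icc (0 : ℝ) 1, exp (f u) = c u - exp ζ) ∧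
    f 0 = ζ - k ∧ f 1 = ζ + k ∧ f m = Λ (0, m) + log (1 - exp ζ / c m)

variable {c : ℝ → ℂ} {Λ : ℝ × ℝ → ℂ} {k ζ : ℂ} {m : ℝ}

namespace Bas

variable (H : Bas c Λ k m)
include H

theorem one : c 1 = 0 := by simpa [H.zero] using H.per 0

theorem ℓe {t : ℝ} (ht : t ∈ Ioo (0 : ℝ) 1) : exp (Λ (0, t)) = c t := by
  simpa [H.zero] using H.Λe 0 t ht.1 (by simpa using ht.2)

theorem m0 : c m ≠ 0 := H.ℓe H.mem ▸ exp_ne_zero _

theorem mem' : m ∈ Icc (0 : ℝ) 1 := Ioo_subset_Icc_self H.mem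

theorem k0 : k ≠ 0 := fun h => by
  have := H.ke
  rw [h, exp_zero] at this
  norm_num at this

theorem ℓc : ContinuousOn (fun t => Λ (0, t)) (Ioo (0 : ℝ) 1) :=
  H.sl continuous_const continuous_id' fun t ht => ⟨ht.1, by simpa using ht.2⟩

theorem out {W : ℂ} {f : ℝ → ℂ} (h1 : ContinuousOn f (Icc 0 1))
    (h2 : ∀ u ∈ Icc (0 : ℝ) 1, exp (f u) = c u - W) (h3 : f 0 ≠ f 1) : ‖W‖ < ‖c m‖ := by
  have := H.cont
  by_contra hc
  have h0 : exp (f 0) = -W := by rw [h2 0 (by simp), H.zero, zero_sub]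
  have W0 : W ≠ 0 := neg_ne_zero.1 (h0 ▸ exp_ne_zero _)
  have e : ∀ u ∈ Icc (0 : ℝ) 1, exp (f u) = -W * (1 - c u / W) := fun u hu => by
    rw [h2 u hu]; field_simp; ring
  have n : ∀ u ∈ Icc (0 : ℝ) 1, 1 - c u / W ≠ 0 := fun u hu =>
    right_ne_zero_of_mul (e u hu ▸ exp_ne_zero _)
  have := log_eq isPreconnected_Icc h1 (g := fun u => f 0 + log (1 - c u / W))
    (continuousOn_const.add (cont_log (by fun_prop) (fun u hu => by
      rw [norm_div, div_le_one (norm_pos_iff.2 W0)]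
      exact (H.far u hu).trans (not_lt.1 hc)) n))
    (fun u hu => by rw [exp_add, h0, exp_log (n u hu), e u hu]) (a := 0) (by simp)
    (by simp [H.zero]) 1 (by simp)
  exact h3 (by simpa [H.one] using this.symm)

theorem lt (h : In c Λ k m ζ) : ‖exp ζ‖ < ‖c m‖ := by
  obtain ⟨f, h1, h2, h3, h4, -⟩ := h
  exact H.out h1 h2 fun e => H.k0 (by linear_combination (h3.symm.trans (e.trans h4)) / (-2))

omit H in
theorem ne (h : In c Λ k m ζ) {u : ℝ} (hu : u ∈ Icc (0 : ℝ) 1) : c u ≠ exp ζ := by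
  obtain ⟨f, -, h2, -⟩ := h
  exact sub_ne_zero.1 (h2 u hu ▸ exp_ne_zero _)

theorem inj {ζ' : ℂ} (h : In c Λ k m ζ) (h' : In c Λ k m ζ') (e : exp ζ = exp ζ') : ζ = ζ' := by
  obtain ⟨f, h1, h2, h3, -, h5⟩ := h
  obtain ⟨f', g1, g2, g3, -, g5⟩ := h'
  have := log_eq isPreconnected_Icc h1 g1 (fun u hu => by rw [h2 u hu, g2 u hu, e]) H.mem'
    (by rw [h5, g5, e]) 0 (by simp)
  linear_combination this - h3 + g3

/-- transport of the logarithm along a path -/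
theorem move {Z : ℝ → ℂ} (hZ : Continuous Z) {y a b : ℝ} (hy : 0 ≤ y) (ha : 0 ≤ a) (hb : b ≤ 1)
    (hm : m ∈ Icc a b) (h : In c Λ k m (Z 0))
    (hn : ∀ τ ∈ Icc 0 y, ∀ u ∈ Icc a b, c u ≠ exp (Z τ)) :
    ∃ G : ℝ × ℝ → ℂ, ContinuousOn G (Icc a b ×ˢ Icc 0 y) ∧
      (∀ x ∈ Icc a b ×ˢ Icc 0 y, exp (G x) = c x.1 - exp (Z x.2)) ∧
      (a = 0 → ∀ τ ∈ Icc 0 y, G (0, τ) = Z τ - k) ∧ (b = 1 → ∀ τ ∈ Icc 0 y, G (1, τ) = Z τ + k) ∧
      ((∀ τ ∈ Icc 0 y, ‖exp (Z τ)‖ ≤ ‖c m‖) →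
        ∀ τ ∈ Icc 0 y, G (m, τ) = Λ (0, m) + log (1 - exp (Z τ) / c m)) := by
  have := H.cont
  obtain ⟨f, h1, h2, h3, h4, h5⟩ := h
  have y0 : (0 : ℝ) ∈ Icc 0 y := left_mem_Icc.2 hy
  have sub : Icc a b ⊆ Icc 0 1 := Icc_subset_Icc ha hb
  obtain ⟨G, g1, g2, g3⟩ := exists_log ((convex_Icc a b).prod (convex_Icc 0 y))
    (x₀ := (m, 0)) ⟨hm, y0⟩ (g := fun x => c x.1 - exp (Z x.2)) (by fun_prop)
    (fun x hx => sub_ne_zero.2 (hn _ hx.2 _ hx.1)) (h2 m H.mem')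
  have g4 : ∀ u ∈ Icc a b, G (u, 0) = f u := log_eq isPreconnected_Icc
    (g1.comp (by fun_prop) fun u hu => ⟨hu, y0⟩) (h1.mono sub)
    (fun u hu => by rw [g2 _ ⟨hu, y0⟩, h2 u (sub hu)]) hm g3
  have sl : ∀ u ∈ Icc a b, ContinuousOn (fun τ => G (u, τ)) (Icc 0 y) := fun u hu =>
    g1.comp (by fun_prop) fun τ hτ => ⟨hu, hτ⟩
  refine ⟨G, g1, g2, ?_, ?_, fun hle => ?_⟩
  · rintro rfl
    have h0 : (0 : ℝ) ∈ Icc 0 b := left_mem_Icc.2 (hm.1.trans hm.2)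
    refine log_eq isPreconnected_Icc (sl 0 h0) (by fun_prop) (fun τ hτ => ?_) y0
      ((g4 0 h0).trans h3)
    rw [g2 _ ⟨h0, hτ⟩, sub_eq_add_neg (Z τ), exp_add, H.ke', H.zero]; ring
  · rintro rfl
    have h0 : (1 : ℝ) ∈ Icc a 1 := right_mem_Icc.2 (hm.1.trans hm.2)
    refine log_eq isPreconnected_Icc (sl 1 h0) (by fun_prop) (fun τ hτ => ?_) y0
      ((g4 1 h0).trans h4)
    rw [g2 _ ⟨h0, hτ⟩, exp_add, H.ke, H.one]; ring
  · have m0 := H.m0
    have n : ∀ τ ∈ Icc 0 y, 1 - exp (Z τ) / c m ≠ 0 := fun τ hτ e =>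
      hn τ hτ m hm (by field_simp at e; linear_combination e)
    refine log_eq isPreconnected_Icc (sl m hm) (continuousOn_const.add (cont_log (by fun_prop)
      (fun τ hτ => ?_) n)) (fun τ hτ => ?_) y0 (g3.trans h5)
    · rw [norm_div, div_le_one (norm_pos_iff.2 m0)]
      exact hle τ hτ
    · rw [g2 _ ⟨hm, hτ⟩, exp_add, exp_log (n τ hτ), H.ℓe H.mem]
      field_simp

theorem path {Z : ℝ → ℂ} (hZ : Continuous Z) {y : ℝ} (hy : 0 ≤ y) (h : In c Λ k m (Z 0))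
    (hn : ∀ τ ∈ Icc 0 y, ∀ u ∈ Icc (0 : ℝ) 1, c u ≠ exp (Z τ)) : In c Λ k m (Z y) := by
  obtain ⟨G, g1, g2, g3, g4, g5⟩ := H.move hZ hy le_rfl le_rfl H.mem' h hn
  have sl : ∀ τ ∈ Icc 0 y, ContinuousOn (fun u => G (u, τ)) (Icc 0 1) := fun τ hτ =>
    g1.comp (by fun_prop) fun u hu => ⟨hu, hτ⟩
  have y1 : y ∈ Icc 0 y := right_mem_Icc.2 hy
  refine ⟨_, sl y y1, fun u hu => g2 _ ⟨hu, y1⟩, g3 rfl y y1, g4 rfl y y1,
    g5 (fun τ hτ => (H.out (sl τ hτ) (fun u hu => g2 _ ⟨hu, hτ⟩) fun e => H.k0 ?_).le) y y1⟩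
  linear_combination ((g3 rfl τ hτ).symm.trans (e.trans (g4 rfl τ hτ))) / (-2)

/-- going up from a point inside, one meets the lifted curve -/
theorem hit (h : In c Λ k m ζ) : ∃ y : ℝ, 0 ≤ y ∧ (∀ τ ∈ Ico 0 y, In c Λ k m (ζ + τ * I)) ∧
    ∃ u ∈ Ioo (0 : ℝ) 1, ζ + y * I = Λ (0, u) := by
  have := H.cont
  have hZ : Continuous fun τ : ℝ => ζ + τ * I := by fun_prop
  have h0 : In c Λ k m ((fun τ : ℝ => ζ + τ * I) 0) := by simpa using h
  have cp : IsCompact (Icc 0 (2 * π) ∩ (fun τ : ℝ => exp (ζ + τ * I)) ⁻¹' (c '' Icc 0 1)) :=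
    isCompact_Icc.inter_right ((isCompact_Icc.image this).isClosed.preimage (by fun_prop))
  obtain ⟨y, ⟨y1, u, hu, e⟩, y2⟩ := cp.exists_isLeast (by
    by_contra hc
    have := H.inj (H.path hZ Real.two_pi_pos.le h0 fun τ hτ u hu e =>
      hc ⟨τ, hτ, u, hu, e⟩) h (by simp [exp_add])
    simp at this)
  replace e : c u = exp (ζ + y * I) := e
  have free : ∀ τ ∈ Ico 0 y, ∀ u ∈ Icc (0 : ℝ) 1, c u ≠ exp (ζ + τ * I) := fun τ hτ u hu e =>
    hτ.2.not_ge (y2 ⟨⟨hτ.1, hτ.2.le.trans y1.2⟩, u, hu, e⟩)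
  have nm : ∀ τ : ℝ, ‖exp (ζ + τ * I)‖ < ‖c m‖ := fun τ => by
    simpa [exp_add] using H.lt h
  have u0 : c u ≠ 0 := e ▸ exp_ne_zero _
  have hu' : u ∈ Ioo (0 : ℝ) 1 :=
    ⟨hu.1.lt_of_ne (by rintro rfl; exact u0 H.zero), hu.2.lt_of_ne (by rintro rfl; exact u0 H.one)⟩
  refine ⟨y, y1.1, fun τ hτ => H.path hZ hτ.1 h0 fun σ hσ => free σ ⟨hσ.1, hσ.2.trans_lt hτ.2⟩,
    u, hu', ?_⟩
  have yy : y ∈ Icc 0 y := right_mem_Icc.2 y1.1
  have m0 := H.m0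
  have mm := H.mem
  have pr : ∀ {T : Set ℝ}, T ⊆ Icc 0 1 → (∀ t ∈ T, c m - c t ≠ 0) →
      ContinuousOn (fun t => Λ (0, m) + log (1 - c t / c m)) T ∧
      ∀ t ∈ T, exp (Λ (0, m) + log (1 - c t / c m)) = c m - c t := fun {T} hT hn => by
    have n : ∀ t ∈ T, 1 - c t / c m ≠ 0 := fun t ht e =>
      hn t ht (by field_simp at e; linear_combination e)
    refine ⟨continuousOn_const.add (cont_log (by fun_prop) (fun t ht => ?_) n), fun t ht => ?_⟩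
    · rw [norm_div, div_le_one (norm_pos_iff.2 m0)]
      exact H.far t (hT ht)
    · rw [exp_add, exp_log (n t ht), H.ℓe H.mem]
      field_simp
  rcases lt_trichotomy m u with hl | rfl | hl
  · have st : ∀ s ∈ Icc 0 m, s < u ∧ u < s + 1 := fun s hs =>
      ⟨hs.2.trans_lt hl, by linarith [hs.1, hu'.2]⟩
    obtain ⟨G, g1, g2, g3, -, g5⟩ := H.move hZ y1.1 le_rfl mm.2.le (right_mem_Icc.2 mm.1.le) h0
      fun τ hτ s hs => by
        rcases hτ.2.lt_or_eq with h1 | rfl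
        · exact free τ ⟨hτ.1, h1⟩ s ⟨hs.1, hs.2.trans mm.2.le⟩
        · exact e ▸ (sub_ne_zero.1 (H.toCur.ne (st s hs).1 (st s hs).2)).symm
    have st' : ∀ t ∈ Icc u 1, m < t ∧ t < m + 1 := fun t ht =>
      ⟨hl.trans_le ht.1, by linarith [ht.2, mm.1]⟩
    obtain ⟨p1, p2⟩ := pr (T := Icc u 1) (Icc_subset_Icc hu.1 le_rfl) fun t ht =>
      sub_ne_zero.2 (sub_ne_zero.1 (H.toCur.ne (st' t ht).1 (st' t ht).2)).symm
    have k1 : Λ (m, u) - k = Λ (0, m) + log (1 - c u / c m) :=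
      log_eq isPreconnected_Icc (f := fun t => Λ (m, t) - k)
        ((H.sl continuous_const continuous_id' st').sub continuousOn_const) p1
        (fun t ht => by
          rw [p2 t ht, sub_eq_add_neg, exp_add, H.ke', H.Λe _ _ (st' t ht).1 (st' t ht).2]; ring)
        (right_mem_Icc.2 hu.2) (by
          have := H.Λk 0 m mm.1 (by simpa using mm.2)
          rw [zero_add] at this
          simp [this, H.one]) u (left_mem_Icc.2 hu.2)
    have k2 := log_eq isPreconnected_Icc (f := fun s => G (s, y)) (g := fun s => Λ (s, u) - k)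
      (g1.comp (by fun_prop) fun s hs => ⟨hs, yy⟩)
      ((H.sl continuous_id' continuous_const st).sub continuousOn_const)
      (fun s hs => by
        rw [g2 _ ⟨hs, yy⟩, sub_eq_add_neg (Λ _), exp_add (Λ _), H.ke',
          H.Λe _ _ (st s hs).1 (st s hs).2, e]; ring)
      (right_mem_Icc.2 mm.1.le) (by rw [g5 (fun τ _ => (nm τ).le) y yy, k1, e])
      0 (left_mem_Icc.2 mm.1.le)
    linear_combination k2 - g3 rfl y yy
  · exact absurd (nm y) (by rw [e]; exact lt_irrefl _)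
  · have st : ∀ s ∈ Icc m 1, u < s ∧ s < u + 1 := fun s hs =>
      ⟨hl.trans_le hs.1, by linarith [hs.2, hu'.1]⟩
    obtain ⟨G, g1, g2, -, g4, g5⟩ := H.move hZ y1.1 mm.1.le le_rfl (left_mem_Icc.2 mm.2.le) h0
      fun τ hτ s hs => by
        rcases hτ.2.lt_or_eq with h1 | rfl
        · exact free τ ⟨hτ.1, h1⟩ s ⟨mm.1.le.trans hs.1, hs.2⟩
        · exact e ▸ sub_ne_zero.1 (H.toCur.ne (st s hs).1 (st s hs).2)
    have st' : ∀ t ∈ Icc 0 u, t < m ∧ m < t + 1 := fun t ht =>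
      ⟨ht.2.trans_lt hl, by linarith [ht.1, mm.2]⟩
    obtain ⟨p1, p2⟩ := pr (T := Icc 0 u) (Icc_subset_Icc le_rfl hu.2) fun t ht =>
      H.toCur.ne (st' t ht).1 (st' t ht).2
    have k1 : Λ (u, m) = Λ (0, m) + log (1 - c u / c m) :=
      log_eq isPreconnected_Icc (f := fun t => Λ (t, m))
        (H.sl continuous_id' continuous_const st') p1
        (fun t ht => by rw [p2 t ht, H.Λe _ _ (st' t ht).1 (st' t ht).2])
        (left_mem_Icc.2 hu.1) (by simp [H.zero]) u (right_mem_Icc.2 hu.1)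
    have k2 := log_eq isPreconnected_Icc (f := fun s => G (s, y)) (g := fun s => Λ (u, s))
      (g1.comp (by fun_prop) fun s hs => ⟨hs, yy⟩) (H.sl continuous_const continuous_id' st)
      (fun s hs => by rw [g2 _ ⟨hs, yy⟩, H.Λe _ _ (st s hs).1 (st s hs).2, e])
      (left_mem_Icc.2 mm.2.le) (by rw [g5 (fun τ _ => (nm τ).le) y yy, k1, e])
      1 (right_mem_Icc.2 mm.2.le)
    have k3 := H.Λk 0 u hu'.1 (by simpa using hu'.2)
    rw [zero_add] at k3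
    linear_combination k2 + k3 - g4 rfl y yy

end Bas

end Pool.Agent.Lib.MP_9488bf_co.Tri
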