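import Pool.Agent.Lib.MP_9488bf_co.H81TriB

/-! A Jordan curve has at most two points that are not vertices of a triangle of given shape. -/

open Set Complex
open scoped Real

noncomputable section

namespace Pool.Agent.Lib.MP_9488bf_co.Tri

variable {c : ℝ → ℂ} {Λ F : ℝ × ℝ → ℂ} {k ζ μ : ℂ} {m : ℝ}

/-- the curve is mapped inside itself by `μ`, with the principal logarithm -/
structure Nest (c : ℝ → ℂ) (Λ : ℝ × ℝ → ℂ) (k μ : ℂ) (F : ℝ × ℝ → ℂ) : Prop
    extends Sq c Λ 0 μ F where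
  ne : μ ≠ 0
  e0 : ∀ t ∈ Ioo (0 : ℝ) (0 + 1), F (t, 0) = Λ (0, t) + (log μ - k)
  e1 : ∀ t ∈ Ioo (0 : ℝ) (0 + 1), F (t, 0 + 1) = Λ (0, t) + (log μ + k)

/-- the lifted inside together with the lifted curve -/
def DD (c : ℝ → ℂ) (Λ : ℝ × ℝ → ℂ) (k : ℂ) (m : ℝ) : Set ℂ :=
  {ζ | In c Λ k m ζ ∨ ∃ t ∈ Ioo (0 : ℝ) 1, ζ = Λ (0, t)}

namespace Bas

variable (H : Bas c Λ k m)
include H

theorem DD_inj {ζ' : ℂ} (h : ζ ∈ DD c Λ k m) (h' : ζ' ∈ DD c Λ k m) (e : exp ζ = exp ζ') :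
    ζ = ζ' := by
  rcases h with h | ⟨t, ht, rfl⟩ <;> rcases h' with h' | ⟨s, hs, rfl⟩
  · exact H.inj h h' e
  · exact absurd (e.trans (H.ℓe hs)).symm (ne h (Ioo_subset_Icc_self hs))
  · exact absurd (e.symm.trans (H.ℓe ht)).symm (ne h' (Ioo_subset_Icc_self ht))
  · rw [H.ℓe ht, H.ℓe hs] at e
    rcases lt_trichotomy s t with h | rfl | h
    · exact absurd (sub_eq_zero.2 e) (H.toCur.ne h (by linarith [ht.2, hs.1]))
    · rfl
    · exact absurd (sub_eq_zero.2 e.symm) (H.toCur.ne h (by linarith [ht.1, hs.2]))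

variable (N : Nest c Λ k μ F)
include N

theorem step₀ {t : ℝ} (ht : t ∈ Ioo (0 : ℝ) 1) : In c Λ k m (Λ (0, t) + log μ) := by
  have ht' : t ∈ Ioo (0 : ℝ) (0 + 1) := by simpa using ht
  have q : ∀ u ∈ Icc (0 : ℝ) 1, (t, u) ∈ Q 0 := fun u hu => mem_Q₁ ht' (by simpa using hu)
  have e : exp (Λ (0, t) + log μ) = μ * c t := by rw [exp_add, H.ℓe ht, exp_log N.ne, mul_comm]
  refine ⟨fun u => F (t, u), N.sl continuous_const continuous_id' q, fun u hu => ?_, ?_, ?_, ?_⟩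
  · rw [N.Fe _ (q u hu), e, H.zero, sub_zero, sub_zero]
  · rw [add_sub_assoc]; exact N.e0 t ht'
  · rw [add_assoc]; simpa using N.e1 t ht'
  · have := N.toSq.far H.toCur (u := m) (by simpa using H.mem)
      (fun t ht => by simpa [H.zero] using H.far t (by simpa using ht)) t
      (Ioo_subset_Icc_self ht')
    rw [e]
    simpa [H.zero] using this

theorem avoid (h : In c Λ k m ζ) {u : ℝ} (hu : u ∈ Icc (0 : ℝ) 1) : c u ≠ exp (ζ + log μ) := by
  intro e
  obtain ⟨f, h1, h2, h3, h4, -⟩ := h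
  have u0 : c u ≠ 0 := e ▸ exp_ne_zero _
  have hu' : u ∈ Ioo (0 : ℝ) (0 + 1) :=
    ⟨hu.1.lt_of_ne (by rintro rfl; exact u0 H.zero),
      by simpa using hu.2.lt_of_ne (by rintro rfl; exact u0 H.one)⟩
  have q : ∀ t ∈ Icc (0 : ℝ) 1, (t, u) ∈ Q 0 := fun t ht => mem_Q₂ (by simpa using ht) hu'
  have z : (0 : ℝ) ∈ Icc (0 : ℝ) 1 := by simp
  have k1 := log_eq isPreconnected_Icc (N.sl continuous_id' continuous_const q)
    (g := fun t => f t + (F (0, u) - f 0)) (h1.add continuousOn_const) (fun t ht => by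
      have h5 := exp_ne_zero ζ
      rw [N.Fe _ (q t ht), exp_add, exp_sub, h2 t ht, h2 0 z, N.Fe _ (q 0 z), e, exp_add,
        exp_log N.ne, H.zero]
      field_simp
      ring) z (by simp) 1 (by simp)
  rw [N.toSq.edge H.toCur (by simp) (H.one.trans H.zero.symm) u hu',
    N.toSq.edge H.toCur (by simp) rfl u hu', h3, h4] at k1
  exact H.k0 (by linear_combination k1 / (-2))

theorem step (h : ζ ∈ DD c Λ k m) : In c Λ k m (ζ + log μ) := by
  rcases h with h | ⟨t, ht, rfl⟩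
  · obtain ⟨y, y0, h1, u, hu, e⟩ := H.hit h
    have := H.path (Z := fun τ => ζ + (y - τ : ℝ) * I + log μ) (by fun_prop) y0
      (by simpa [e] using H.step₀ N hu) fun τ hτ s hs => by
        rcases hτ.1.eq_or_lt with rfl | h2
        · simpa [e] using ne (H.step₀ N hu) hs
        · exact H.avoid N (h1 _ ⟨by linarith [hτ.2], by linarith⟩) hs
    simpa using this
  · exact H.step₀ N ht

theorem re_lt : (log μ).re < 0 := by
  have := H.lt (H.step₀ N H.mem)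
  rw [exp_add, H.ℓe H.mem, norm_mul, norm_exp, mul_lt_iff_lt_one_right (norm_pos_iff.2 H.m0)]
    at this
  exact Real.exp_lt_one_iff.1 this

theorem exists_ray : ∃ h : ℝ → ℂ, Continuous h ∧ ∃ B, (∀ s, ‖h s‖ ≤ B) ∧
    ∀ s : ℝ, 0 ≤ s → h s + s * log μ ∈ DD c Λ k m := by
  refine ray (a := Λ (0, m)) (fun z hz => .inl (H.step N hz)) ?_
  obtain ⟨y, y0, h1, u, hu, e⟩ := H.hit (H.step₀ N H.mem)
  have j1 : JoinedIn (DD c Λ k m) (Λ (0, m)) (Λ (0, u)) :=
    ((((convex_Ioo (0 : ℝ) 1).isPathConnected ⟨m, H.mem⟩).image' H.ℓc).joinedIn _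
      ⟨m, H.mem, rfl⟩ _ ⟨u, hu, rfl⟩).mono (by rintro _ ⟨t, ht, rfl⟩; exact .inr ⟨t, ht, rfl⟩)
  have j2 : JoinedIn (DD c Λ k m) (Λ (0, m) + log μ) (Λ (0, u)) :=
    ((((convex_Icc (0 : ℝ) y).isPathConnected ⟨0, left_mem_Icc.2 y0⟩).image
      (f := fun τ : ℝ => Λ (0, m) + log μ + τ * I) (by fun_prop)).joinedIn _
      ⟨0, left_mem_Icc.2 y0, by simp⟩ _ ⟨y, right_mem_Icc.2 y0, e⟩).mono (by
        rintro _ ⟨τ, hτ, rfl⟩
        rcases hτ.2.lt_or_eq with h2 | rfl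
        · exact .inl (h1 τ ⟨hτ.1, h2⟩)
        · exact .inr ⟨u, hu, e⟩)
  exact j1.trans j2.symm

theorem not_nest {F' : ℝ × ℝ → ℂ} (N' : Nest c Λ k (1 - μ) F') (hi : 0 < μ.im) : False := by
  obtain ⟨h₁, c₁, B₁, b₁, d₁⟩ := H.exists_ray N
  obtain ⟨h₂, c₂, B₂, b₂, d₂⟩ := H.exists_ray N'
  obtain ⟨s, t, hs, ht, n, hn, e⟩ := cross c₁ c₂ b₁ b₂ (H.re_lt N) (H.re_lt N')
    (by
      rw [log_im]
      exact (arg_nonneg_iff.2 hi.le).lt_of_ne fun h => hi.ne' (arg_eq_zero_iff.1 h.symm).2)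
    (by rw [log_im, arg_neg_iff]; simpa using hi)
  have := H.DD_inj (d₁ s hs) (d₂ t ht) (by rw [e, exp_add, exp_nat_mul_two_pi_mul_I, mul_one])
  rw [e] at this
  simp [hn.ne'] at this

end Bas

/-- the point `x` is a vertex of no triangle of shape `0, 1, μ` on the curve -/
def Bad (c : ℝ → ℂ) (μ x : ℂ) : Prop :=
  ∀ s t u, c u = μ * c t + (1 - μ) * c s → c s = x ∨ c t = x ∨ c u = x → c s = c t

theorem Bad.symm {x : ℂ} (h : Bad c μ x) : Bad c (1 - μ) x := fun s t u e o =>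
  (h t s u (by linear_combination e) (by tauto)).symm

theorem Bad.sq (H : Cur c Λ k) {p : ℝ} (h : Bad c μ (c p)) (h1 : ‖μ‖ ≤ 1) (h2 : 1 - μ ≠ 0) :
    ∃ F, Sq c Λ p μ F :=
  H.exists_sq h1 h2 fun t u e => (h p t u (by linear_combination e) (.inl rfl)).symm

theorem exists_nest (H : Cur c Λ k) {q r : ℝ} (h1 : 0 < q) (h2 : q < r) (h3 : r < 1)
    (n0 : ‖μ‖ ≤ 1) (n1 : ‖1 - μ‖ ≤ 1) (m0 : μ ≠ 0) (m1 : 1 - μ ≠ 0) (bp : Bad c μ (c 0))
    (bq : Bad c μ (c q)) (br : Bad c μ (c r)) : ∃ F, Nest c Λ k μ F := by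
  have m2 : 1 - (1 - μ) ≠ 0 := by simpa using m0
  have er : c (r - 1) = c r := by simpa using (H.per (r - 1)).symm
  obtain ⟨F, S⟩ := bp.sq H n0 m1
  obtain ⟨Fq, Sq⟩ := bq.symm.sq H n1 m2
  obtain ⟨Fr, Sr⟩ := (er ▸ br).symm.sq H n1 m2
  refine ⟨F, S, m0, ?_, (three H h1 h2 (by linarith) S Sq m0 m1 fun s t e =>
    br s t r e (.inr (.inr rfl))).1⟩
  have := (three H (p := r - 1) (q := 0) (r := q) (F' := F) (by linarith) h1 (by linarith) Sr
    (by simpa using S) m1 m2 fun s t e => bq.symm s t q e (.inr (.inr rfl))).2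
  simpa using this

theorem no_three {c : ℝ → ℂ} (hc : Continuous c) (hp : ∀ t, c (t + 1) = c t)
    (hi : ∀ s t, s < t → t < s + 1 → c t ≠ c s) (h0 : c 0 = 0) {q r : ℝ} (h1 : 0 < q)
    (h2 : q < r) (h3 : r < 1) (n0 : ‖μ‖ ≤ 1) (n1 : ‖1 - μ‖ ≤ 1) (him : μ.im ≠ 0)
    (bp : Bad c μ (c 0)) (bq : Bad c μ (c q)) (br : Bad c μ (c r)) : False := by
  obtain ⟨Λ, k, H⟩ := exists_cur hc hp hi
  obtain ⟨m, hm, hf⟩ := H.far 0
  have B : Bas c Λ k m := ⟨H, h0, by simpa using hm, fun t ht => by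
    simpa [h0] using hf t (by simpa using ht)⟩
  have m0 : μ ≠ 0 := by rintro rfl; simp at him
  have m1 : 1 - μ ≠ 0 := fun h => by rw [← sub_eq_zero.1 h] at him; simp at him
  obtain ⟨F, N⟩ := exists_nest H h1 h2 h3 n0 n1 m0 m1 bp bq br
  obtain ⟨F', N'⟩ := exists_nest H h1 h2 h3 n1 (by simpa using n0) m1 (by simpa using m0)
    bp.symm bq.symm br.symm
  rcases him.lt_or_gt with h | h
  · exact B.not_nest N' (F' := F) (by simpa using N) (by simpa using h)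
  · exact B.not_nest N N' h

/-- three exceptional points on a curve parametrised by the circle -/
theorem no_three_circle {γ : Circle → ℂ} (hc : Continuous γ) (hi : Function.Injective γ)
    (n0 : ‖μ‖ ≤ 1) (n1 : ‖1 - μ‖ ≤ 1) (him : μ.im ≠ 0) {P R S : Circle} (h1 : P ≠ R) (h2 : P ≠ S)
    (h3 : R ≠ S) (hb : ∀ X, X = P ∨ X = R ∨ X = S → ∀ x y z, γ z = μ * γ y + (1 - μ) * γ x →
      x = X ∨ y = X ∨ z = X → x = y) : False := by
  set e : ℝ → Circle := fun t => P * Circle.exp (2 * π * t) with he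
  have ex : ∀ X, P ≠ X → ∃ t, 0 < t ∧ t < 1 ∧ e t = X := fun X hX => by
    obtain ⟨θ, hθ, h⟩ := Circle.surjOn_exp_neg_pi_pi (mem_univ (P⁻¹ * X))
    have hf : e (Int.fract (θ / (2 * π))) = X := by
      have := Real.pi_pos
      rw [he, Int.fract]
      simp only [mul_sub]
      rw [Circle.exp_sub, mul_comm (2 * π) (⌊_⌋ : ℝ), Circle.exp_int_mul_two_pi, div_one,
        mul_div_cancel₀ _ (by positivity), h, mul_inv_cancel_left]
    refine ⟨_, (Int.fract_nonneg _).lt_of_ne fun h0 => hX ?_, Int.fract_lt_one _, hf⟩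
    rw [← hf, ← h0]
    simp [he]
  have bad : ∀ t, e t = P ∨ e t = R ∨ e t = S →
      Bad (fun t => γ (e t) - γ P) μ (γ (e t) - γ P) := fun t ht s t' u h o => by
    have := hb _ ht (e s) (e t') (e u) (by linear_combination h)
      (by simpa only [sub_left_inj, hi.eq_iff] using o)
    simp only [this]
  have key : ∀ q r, 0 < q → q < r → r < 1 → (e q = P ∨ e q = R ∨ e q = S) →
      (e r = P ∨ e r = R ∨ e r = S) → False := fun q r a b d o o' => by
    refine no_three (c := fun t => γ (e t) - γ P) (by fun_prop) (fun t => ?_) (fun s t a b h => ?_)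
      (by simp [he]) a b d n0 n1 him (bad 0 (.inl (by simp [he]))) (bad q o) (bad r o')
    · simp only [he, mul_add, mul_one, Circle.exp_add_two_pi]
    · obtain ⟨n, hn⟩ := Circle.exp_eq_exp.1 (mul_left_cancel (hi (sub_left_inj.1 h)))
      have h4 : t = s + n := by
        have := Real.pi_pos
        field_simp at hn
        linarith
      have h5 : (0 : ℝ) < n := by linarith
      have h6 : (n : ℝ) < 1 := by linarith
      norm_cast at h5 h6
      omega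
  obtain ⟨q, q0, q1, eq⟩ := ex R h1
  obtain ⟨r, r0, r1, er⟩ := ex S h2
  rcases lt_trichotomy q r with h | rfl | h
  · exact key q r q0 h r1 (by simp [eq]) (by simp [er])
  · exact h3 (eq.symm.trans er)
  · exact key r q r0 h q1 (by simp [er]) (by simp [eq])

end Pool.Agent.Lib.MP_9488bf_co.Tri
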