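import Pool.Agent.Lib.MP_9488bf_co.H87GenB

/-!
The sets of deformations for which the shifted shape map has a zero are closed.
-/

set_option linter.unusedVariables false

namespace Pool.Agent.Lib.MP_9488bf_co.Gen

open Set Complex

variable (p q : ℂ)

/-- deformations for which the shape map, shifted by the lattice vector `l`, has a zero -/
def Eset (z : Fin 4 → ℝ → ℂ) (f : ℂ → ℂ) (l : Fin 4 → ℤ) : Set (ℂ → ℂ) :=
  {G | ∃ t ∈ Icc (0 : Fin 4 → ℝ) 1, Lm p q (fun j => f (z j (t j)) + G (z j (t j)) +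
    (l j : ℂ) * (f (z j 1) + G (z j 1) - (f (z j 0) + G (z j 0)))) = 0}

lemma Eset_closed (z : Fin 4 → ℝ → ℂ) (hz : ∀ j, Continuous (z j)) (f : ℂ → ℂ)
    (hf : Continuous f) (N : ℕ) (l : Fin 4 → ℤ) (hl : ∀ j, |l j| ≤ N) (G : ℂ → ℂ)
    (hG : Continuous G) (hn : G ∉ Eset p q z f l) : ∃ η : ℝ, 0 < η ∧
      ∀ (G' : ℂ → ℂ) (c : ℂ), (∀ y ∈ {y | ∃ j, ∃ t ∈ Icc (0 : ℝ) 1, y = z j t},
        ‖G' y - G y - c‖ ≤ η) → G' ∉ Eset p q z f l := by
  let Φ : (Fin 4 → ℝ) → ℝ := fun t => ‖Lm p q (fun j => f (z j (t j)) + G (z j (t j)) +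
    (l j : ℂ) * (f (z j 1) + G (z j 1) - (f (z j 0) + G (z j 0))))‖
  have hΦ : Continuous Φ := by
    refine ((Lm_continuous p q).comp (continuous_pi fun j => ?_)).norm
    have h1 : Continuous (fun t : Fin 4 → ℝ => z j (t j)) := (hz j).comp (continuous_apply j)
    exact ((hf.comp h1).add (hG.comp h1)).add continuous_const
  obtain ⟨t0, ht0, hmin⟩ := (isCompact_Icc (a := (0 : Fin 4 → ℝ)) (b := 1)).exists_isMinOn
    ⟨0, le_rfl, zero_le_one⟩ hΦ.continuousOn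
  have hm : 0 < Φ t0 := norm_pos_iff.2 fun h0 => hn ⟨t0, ht0, h0⟩
  have hN : (0 : ℝ) ≤ N := Nat.cast_nonneg _
  have hA := cst_pos p q
  set A : ℝ := cst p q with hAdef
  refine ⟨Φ t0 / (2 * A * (1 + 2 * N)), by positivity, fun G' c hc ⟨t, ht, h0⟩ => ?_⟩
  set η := Φ t0 / (2 * A * (1 + 2 * N)) with hη
  have hη0 : 0 < η := by positivity
  have h01 : (0 : ℝ) ∈ Icc (0 : ℝ) 1 := ⟨le_rfl, zero_le_one⟩
  have h11 : (1 : ℝ) ∈ Icc (0 : ℝ) 1 := ⟨zero_le_one, le_rfl⟩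
  have e1 : Lm p q (fun j => f (z j (t j)) + G (z j (t j)) +
      (l j : ℂ) * (f (z j 1) + G (z j 1) - (f (z j 0) + G (z j 0)))) =
      Lm p q (fun j => f (z j (t j)) + G' (z j (t j)) +
        (l j : ℂ) * (f (z j 1) + G' (z j 1) - (f (z j 0) + G' (z j 0)))) -
      Lm p q (fun j => (G' (z j (t j)) - G (z j (t j)) - c) +
        (l j : ℂ) * ((G' (z j 1) - G (z j 1) - c) - (G' (z j 0) - G (z j 0) - c))) -
      Lm p q (fun _ => c) := by
    rw [← Lm_sub, ← Lm_sub]; congr 1; funext j; ring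
  have e2 : ‖Lm p q (fun j => (G' (z j (t j)) - G (z j (t j)) - c) +
        (l j : ℂ) * ((G' (z j 1) - G (z j 1) - c) - (G' (z j 0) - G (z j 0) - c)))‖ ≤
      A * (η + N * (2 * η)) := by
    refine Lm_norm p q fun j => (norm_add_le _ _).trans (add_le_add
      (hc _ ⟨j, t j, ⟨ht.1 j, ht.2 j⟩, rfl⟩) ?_)
    rw [norm_mul]
    refine mul_le_mul ?_ ?_ (norm_nonneg _) hN
    · rw [Complex.norm_intCast]; exact_mod_cast hl j
    · have a1 := hc _ ⟨j, 1, h11, rfl⟩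
      have a2 := hc _ ⟨j, 0, h01, rfl⟩
      exact (norm_sub_le _ _).trans (by linarith)
  have e3 : Φ t0 ≤ Φ t := hmin ht
  have e4 : Φ t ≤ A * (η + N * (2 * η)) := by
    simp only [Φ]
    rw [e1, h0, Lm_const, sub_zero, zero_sub, norm_neg]
    exact e2
  have e5 : A * (η + N * (2 * η)) = Φ t0 / 2 := by rw [hη]; field_simp
  linarith

end Pool.Agent.Lib.MP_9488bf_co.Gen
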