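import Pool.Agent.Lib.MP_9488bf_co.H87GenC

/-!
From an approximate copy of a quadrilateral to an open set of deformations with an exact copy.
-/

set_option linter.unusedVariables false

namespace Pool.Agent.Lib.MP_9488bf_co.Gen

open Set Complex
open Pool.Agent.Lib.MP_5a3ebe_gt.Gen (Lip bump vec two two_smooth two_lip bump_in bump_out far cover)

variable (p q : ℂ)

lemma Lm_vec (y : ℂ × ℂ) : Lm p q (vec y) = y := by
  ext <;> simp [Lm, vec]

lemma le_norm_mul {u : ℂ} {m : ℝ} (h : m ≤ ‖u‖) (w : ℂ) : m * ‖w‖ ≤ ‖u * w‖ := by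
  rw [norm_mul]
  exact mul_le_mul_of_nonneg_right h (norm_nonneg w)

lemma separated {x : Fin 4 → ℂ} {w : ℂ} {e m : ℝ} (he : 0 < e) (he1 : e ≤ m / 16)
    (m1 : m ≤ ‖p + q‖) (m2 : m ≤ ‖p + q - 1‖) (m3 : m ≤ ‖p‖) (m4 : m ≤ ‖q‖) (m5 : m ≤ ‖q - 1‖)
    (h1 : ‖x 1 - x 0 - w‖ ≤ e * ‖w‖) (h2 : ‖x 2 - x 0 - (p + q) * w‖ ≤ e * ‖w‖)
    (h3 : ‖x 3 - x 0 - q * w‖ ≤ e * ‖w‖) :
    m * ‖w‖ / 2 ≤ ‖x 2 - x 0‖ ∧ m * ‖w‖ / 2 ≤ ‖x 2 - x 1‖ ∧ m * ‖w‖ / 2 ≤ ‖x 2 - x 3‖ ∧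
      m * ‖w‖ / 2 ≤ ‖x 3 - x 0‖ ∧ m * ‖w‖ / 2 ≤ ‖x 3 - x 1‖ := by
  have hW := norm_nonneg w
  have hc : e * ‖w‖ ≤ m * ‖w‖ / 16 := by nlinarith
  have hc0 : 0 ≤ e * ‖w‖ := by positivity
  have a1 : m * ‖w‖ - e * ‖w‖ ≤ ‖x 2 - x 0‖ := far (le_norm_mul m1 w) h2
  have a2 : m * ‖w‖ - 2 * (e * ‖w‖) ≤ ‖x 2 - x 1‖ :=
    far (le_norm_mul m2 w) (by
      rw [show x 2 - x 1 - (p + q - 1) * w = (x 2 - x 0 - (p + q) * w) - (x 1 - x 0 - w) by ring]
      exact (norm_sub_le _ _).trans (by linarith))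
  have a3 : m * ‖w‖ - 2 * (e * ‖w‖) ≤ ‖x 2 - x 3‖ :=
    far (le_norm_mul m3 w) (by
      rw [show x 2 - x 3 - p * w = (x 2 - x 0 - (p + q) * w) - (x 3 - x 0 - q * w) by ring]
      exact (norm_sub_le _ _).trans (by linarith))
  have a4 : m * ‖w‖ - e * ‖w‖ ≤ ‖x 3 - x 0‖ := far (le_norm_mul m4 w) h3
  have a5 : m * ‖w‖ - 2 * (e * ‖w‖) ≤ ‖x 3 - x 1‖ :=
    far (le_norm_mul m5 w) (by
      rw [show x 3 - x 1 - (q - 1) * w = (x 3 - x 0 - q * w) - (x 1 - x 0 - w) by ring]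
      exact (norm_sub_le _ _).trans (by linarith))
  refine ⟨by linarith, by linarith, by linarith, by linarith, by linarith⟩

theorem core (z : Fin 4 → ℝ → ℂ) (hz : ∀ j, Continuous (z j)) (f : ℂ → ℂ) (K : ℝ) (hK : 0 ≤ K)
    (hf : Lip K f) (Kb : ℝ) (hKb0 : 0 ≤ Kb) (hKb : ∀ (q : ℂ) (σ : ℝ), 0 < σ → ∀ μ v : ℂ,
      Lip (Kb * (‖μ‖ + ‖v‖ / σ)) (bump q σ μ v))
    (m : ℝ) (hm0 : 0 < m) (hm1 : m ≤ 1)
    (m1 : m ≤ ‖p + q‖) (m2 : m ≤ ‖p + q - 1‖) (m3 : m ≤ ‖p‖) (m4 : m ≤ ‖q‖) (m5 : m ≤ ‖q - 1‖)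
    (w : ℂ) (hw : w ≠ 0) (e ε : ℝ) (he : 0 < e) (hem : e ≤ m / 16)
    (hε' : 2000 * (Kb + 1) * (K + 1) * e * (cst p q / m) ≤ ε)
    (h1 : ‖f (z 1 0) - f (z 0 0) - w‖ ≤ e * ‖w‖)
    (h2 : ‖f (z 2 0) - f (z 0 0) - (p + q) * w‖ ≤ e * ‖w‖)
    (h3 : ‖f (z 3 0) - f (z 0 0) - q * w‖ ≤ e * ‖w‖)
    (hρ : ∀ j, ∀ t ∈ Icc (0 : ℝ) 1, ‖z j t - z j 0‖ ≤ e * ‖w‖ / (K + 1))
    (hne : ∀ j, f (z j 1) ≠ f (z j 0)) :
    ∃ g : ℂ → ℂ, ContDiff ℝ (⊤ : ℕ∞) g ∧ Lip ε g ∧ ∃ δ : ℝ, 0 < δ ∧ ∀ h, Lip δ h →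
      ∃ t : Fin 4 → ℝ, Lm p q (fun j => f (z j (t j)) + g (z j (t j)) + h (z j (t j))) = 0 ∧
        f (z 1 (t 1)) + g (z 1 (t 1)) + h (z 1 (t 1)) ≠
          f (z 0 (t 0)) + g (z 0 (t 0)) + h (z 0 (t 0)) := by
  have hW : 0 < ‖w‖ := norm_pos_iff.2 hw
  set W := ‖w‖ with hWdef
  have hK1 : 0 < K + 1 := by linarith
  have he1 : e ≤ 1 / 16 := by linarith
  have hA := cst_pos p q
  have hA2 := two_le_cst p q
  set A : ℝ := cst p q with hAdef
  have hR : 1 ≤ A / m := by rw [le_div_iff₀ hm0]; linarith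
  have hε : 2000 * (Kb + 1) * (K + 1) * e ≤ ε :=
    (le_mul_of_one_le_right (by positivity) hR).trans hε'
  have hp0 : p ≠ 0 := norm_pos_iff.1 (lt_of_lt_of_le hm0 m3)
  set σ : ℝ := m * W / (6 * (K + 1)) with hσdef
  set ρ : ℝ := e * W / (K + 1) with hρdef
  have hσ : 0 < σ := by positivity
  have hρ0 : 0 < ρ := by positivity
  have hρσ : ρ ≤ σ := by
    rw [hρdef, hσdef, div_le_div_iff₀ hK1 (by positivity)]
    have : e * 6 ≤ m := by linarith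
    have h5 : 0 < W * (K + 1) := by positivity
    nlinarith
  have hρK : (K + 1) * ρ = e * W := by rw [hρdef]; field_simp
  have hε0 : 0 < ε := lt_of_lt_of_le (by positivity) hε
  have h01 : (0 : ℝ) ∈ Icc (0 : ℝ) 1 := ⟨le_rfl, zero_le_one⟩
  have h11 : (1 : ℝ) ∈ Icc (0 : ℝ) 1 := ⟨zero_le_one, le_rfl⟩
  obtain ⟨s20, s21, s23, s30, s31⟩ := 
    separated p q (x := fun j => f (z j 0)) he hem m1 m2 m3 m4 m5 h1 h2 h3
  have sep : ∀ i j, m * W / 2 ≤ ‖f (z j 0) - f (z i 0)‖ → ∀ t ∈ Icc (0 : ℝ) 1,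
      2 * σ ≤ ‖z i t - z j 0‖ := by
    intro i j hij t ht
    have a1 := hf (z j 0) (z i 0)
    have a2 : 3 * σ ≤ ‖z j 0 - z i 0‖ := by
      have a3 : 3 * σ * (K + 1) = m * W / 2 := by rw [hσdef]; field_simp; ring
      have a4 := norm_nonneg (z j 0 - z i 0)
      have a5 : 3 * σ * (K + 1) ≤ ‖z j 0 - z i 0‖ * (K + 1) := by nlinarith
      exact le_of_mul_le_mul_right a5 hK1
    have a6 := norm_sub_le (z i t - z i 0) (z i t - z j 0)
    rw [show z i t - z i 0 - (z i t - z j 0) = z j 0 - z i 0 by ring] at a6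
    have := hρ i t ht
    linarith
  have s32 : m * W / 2 ≤ ‖f (z 3 0) - f (z 2 0)‖ := by rw [norm_sub_rev]; exact s23
  -- values of the two bumps on the four arcs
  have val : ∀ (μ2 μ3 : ℂ) (y : ℂ × ℂ) (j : Fin 4), ∀ t ∈ Icc (0 : ℝ) 1,
      two (z 2 0) (z 3 0) σ μ2 μ3 y (z j t) =
        (![0, 0, μ2, μ3] : Fin 4 → ℂ) j * (z j t - z j 0) + vec y j := by
    intro μ2 μ3 y j t ht
    unfold two
    fin_cases j
    · have a := bump_out hσ μ2 (y.1 + y.2) (sep 0 2 s20 t ht)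
      have b := bump_out hσ μ3 y.2 (sep 0 3 s30 t ht)
      simp [vec, a, b]
    · have a := bump_out hσ μ2 (y.1 + y.2) (sep 1 2 s21 t ht)
      have b := bump_out hσ μ3 y.2 (sep 1 3 s31 t ht)
      simp [vec, a, b]
    · have a := bump_in hσ μ2 (y.1 + y.2) ((hρ 2 t ht).trans hρσ)
      have b := bump_out hσ μ3 y.2 (sep 2 3 s32 t ht)
      simp [vec, a, b]
    · have a := bump_out hσ μ2 (y.1 + y.2) (sep 3 2 s23 t ht)
      have b := bump_in hσ μ3 y.2 ((hρ 3 t ht).trans hρσ)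
      simp [vec, a, b]
  let tr : ℂ × ℂ → ℂ → ℂ := fun y => two (z 2 0) (z 3 0) σ 0 0 y
  have trv : ∀ (y : ℂ × ℂ) (j : Fin 4), ∀ t ∈ Icc (0 : ℝ) 1, tr y (z j t) = vec y j := by
    intro y j t ht
    simp only [tr]
    rw [val 0 0 y j t ht]
    fin_cases j <;> simp
  have trl : ∀ y : ℂ × ℂ, Lip (Kb * (3 * ‖y‖ / σ)) (tr y) := fun y => by
    have := two_lip hKb0 hKb (z 2 0) (z 3 0) hσ 0 0 y
    simpa using this
  -- chords, and the rotation that makes the linear part invertible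
  let c : Fin 4 → ℂ := fun j => f (z j 1) - f (z j 0)
  have hc : ∀ j, c j ≠ 0 := fun j => sub_ne_zero.2 (hne j)
  have hzo : ∀ j, z j 1 - z j 0 ≠ 0 := fun j h0 => hne j (by rw [sub_eq_zero.1 h0])
  obtain ⟨r, s, hr, hs, hdt⟩ := exists_dt p q hp0 (hc 0) (hc 1) (hc 2) (hc 3) he
  have hμ : ∀ (u : ℝ) (j : Fin 4), |u| ≤ e →
      ‖(u : ℂ) * I * c j / (z j 1 - z j 0)‖ ≤ e * (K + 1) := by
    intro u j hu
    have hp : 0 < ‖z j 1 - z j 0‖ := norm_pos_iff.2 (hzo j)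
    rw [norm_div, norm_mul, norm_mul, norm_I, mul_one, Complex.norm_real, Real.norm_eq_abs,
      div_le_iff₀ hp, mul_assoc]
    refine mul_le_mul hu ?_ (norm_nonneg _) he.le
    exact (hf _ _).trans (mul_le_mul_of_nonneg_right (by linarith) hp.le)
  set μ2 : ℂ := (r : ℂ) * I * c 2 / (z 2 1 - z 2 0) with hμ2
  set μ3 : ℂ := (s : ℂ) * I * c 3 / (z 3 1 - z 3 0) with hμ3
  have nμ2 : ‖μ2‖ ≤ e * (K + 1) := hμ r 2 hr
  have nμ3 : ‖μ3‖ ≤ e * (K + 1) := hμ s 3 hs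
  let g0 : ℂ → ℂ := two (z 2 0) (z 3 0) σ μ2 μ3 0
  have g0s : ContDiff ℝ (⊤ : ℕ∞) g0 := two_smooth _ _ _ _ _ _
  have vec0 : ∀ j, vec 0 j = 0 := fun j => by fin_cases j <;> simp [vec]
  have g0v : ∀ (j : Fin 4), ∀ t ∈ Icc (0 : ℝ) 1,
      g0 (z j t) = (![0, 0, μ2, μ3] : Fin 4 → ℂ) j * (z j t - z j 0) := by
    intro j t ht
    simp only [g0]; rw [val μ2 μ3 0 j t ht, vec0, add_zero]
  have g0l : Lip (ε / 4) g0 := by
    refine (two_lip hKb0 hKb (z 2 0) (z 3 0) hσ μ2 μ3 0).mono ?_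
    have a1 : ‖μ2‖ + ‖μ3‖ + 3 * ‖(0 : ℂ × ℂ)‖ / σ ≤ 2 * (e * (K + 1)) := by
      rw [norm_zero, mul_zero, zero_div]; linarith
    have a2 := mul_le_mul_of_nonneg_left a1 hKb0
    have a3 : 0 ≤ Kb * (e * (K + 1)) := by positivity
    have a4 : 0 ≤ e * (K + 1) := by positivity
    nlinarith
  have g0n : ∀ (j : Fin 4), ∀ t ∈ Icc (0 : ℝ) 1, ‖g0 (z j t)‖ ≤ e * W := by
    intro j t ht
    rw [g0v j t ht, norm_mul]
    have a1 : ‖(![0, 0, μ2, μ3] : Fin 4 → ℂ) j‖ ≤ e * (K + 1) := by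
      have a4 : 0 ≤ e * (K + 1) := by positivity
      fin_cases j
      · simpa using a4
      · simpa using a4
      · simpa using nμ2
      · simpa using nμ3
    calc _ ≤ e * (K + 1) * ρ := mul_le_mul a1 (hρ j t ht) (norm_nonneg _) (by positivity)
      _ = e * (e * W) := by rw [mul_assoc, hρK]
      _ ≤ 1 * (e * W) := mul_le_mul_of_nonneg_right (by linarith) (by positivity)
      _ = e * W := one_mul _
  let D : Fin 4 → ℂ := fun j => f (z j 1) + g0 (z j 1) - (f (z j 0) + g0 (z j 0))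
  have hD : Function.Injective (Tm p q D) := by
    apply inj_of_dt
    have d0 : D 0 = c 0 := by
      simp only [D, c]; rw [g0v 0 1 h11, g0v 0 0 h01]; simp
    have d1 : D 1 = c 1 := by
      simp only [D, c]; rw [g0v 1 1 h11, g0v 1 0 h01]; simp
    have d2 : D 2 = c 2 + r * I * c 2 := by
      have a : μ2 * (z 2 1 - z 2 0) = r * I * c 2 := div_mul_cancel₀ _ (hzo 2)
      rw [← a]
      simp only [D, c]; rw [g0v 2 1 h11, g0v 2 0 h01]; simp; ring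
    have d3 : D 3 = c 3 + s * I * c 3 := by
      have a : μ3 * (z 3 1 - z 3 0) = s * I * c 3 := div_mul_cancel₀ _ (hzo 3)
      rw [← a]
      simp only [D, c]; rw [g0v 3 1 h11, g0v 3 0 h01]; simp; ring
    rw [d0, d1, d2, d3]; exact hdt
  obtain ⟨κ, hκ, hsurj⟩ := surj p q hD
  obtain ⟨N, hN⟩ := hsurj (4 * A * (e * W))
  have hN0 : (0 : ℝ) ≤ N := Nat.cast_nonneg _
  -- size of the four arcs together
  set Dm : ℝ := ‖fun j => z j 0 - z 0 0‖ + ρ with hDm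
  have hDm0 : 0 ≤ Dm := by positivity
  have hP : ∀ j, ∀ t ∈ Icc (0 : ℝ) 1, ‖z j t - z 0 0‖ ≤ Dm := by
    intro j t ht
    have a1 := norm_add_le (z j t - z j 0) (z j 0 - z 0 0)
    rw [show z j t - z j 0 + (z j 0 - z 0 0) = z j t - z 0 0 by ring] at a1
    have a2 := norm_le_pi_norm (fun j => z j 0 - z 0 0) j
    have a3 := hρ j t ht
    linarith
  set r0 : ℝ := min (min (κ / (ρ + 1)) (e * W / (2 * (Dm + 1)))) (ε / 4) with hr0
  have hr00 : 0 < r0 := lt_min (lt_min (by positivity) (by positivity)) (by positivity)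
  have hr01 : r0 * ρ ≤ κ := by
    have a : r0 ≤ κ / (ρ + 1) := (min_le_left _ _).trans (min_le_left _ _)
    calc r0 * ρ ≤ κ / (ρ + 1) * (ρ + 1) := mul_le_mul a (by linarith) hρ0.le (by positivity)
      _ = κ := by field_simp
  have hr02 : 2 * r0 * Dm ≤ e * W := by
    have a : r0 ≤ e * W / (2 * (Dm + 1)) := (min_le_left _ _).trans (min_le_right _ _)
    calc 2 * r0 * Dm ≤ 2 * (e * W / (2 * (Dm + 1))) * (Dm + 1) :=
          mul_le_mul (by linarith) (by linarith) hDm0 (by positivity)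
      _ = e * W := by field_simp
  have hr03 : r0 ≤ ε / 4 := min_le_right _ _
  have err : ∀ k, Lip (2 * r0) k → ∀ j, ∀ t ∈ Icc (0 : ℝ) 1,
      ‖f (z j t) + (g0 (z j t) + k (z j t)) - f (z j 0) - k (z 0 0)‖ ≤ 3 * (e * W) := by
    intro k hk j t ht
    have a1 : ‖f (z j t) - f (z j 0)‖ ≤ e * W := by
      refine (hf _ _).trans ?_
      rw [← hρK]
      exact mul_le_mul (by linarith) (hρ j t ht) (norm_nonneg _) hK1.le
    have a2 := g0n j t ht
    have a3 : ‖k (z j t) - k (z 0 0)‖ ≤ e * W :=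
      ((hk _ _).trans (mul_le_mul_of_nonneg_left (hP j t ht) (by linarith))).trans hr02
    rw [show f (z j t) + (g0 (z j t) + k (z j t)) - f (z j 0) - k (z 0 0) =
      (f (z j t) - f (z j 0)) + g0 (z j t) + (k (z j t) - k (z 0 0)) by ring]
    have a4 := norm_add₃_le (a := f (z j t) - f (z j 0)) (b := g0 (z j t))
      (c := k (z j t) - k (z 0 0))
    linarith
  have Lp : ‖Lm p q (fun j => f (z j 0))‖ ≤ A * (e * W) := by
    have e1 : Lm p q (fun j => f (z j 0)) = Lm p q (fun j => f (z j 0) - f (z 0 0) -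
        (![0, 1, p + q, q] : Fin 4 → ℂ) j * w) := by
      simp only [Lm, Prod.mk.injEq, Matrix.cons_val_zero, Matrix.cons_val_one, Matrix.cons_val]
      constructor <;> ring
    rw [e1]
    refine Lm_norm p q fun j => ?_
    have a0 : 0 ≤ e * W := by positivity
    fin_cases j
    · simpa using a0
    · simpa using h1
    · simpa using h2
    · simpa using h3
  have LB : ∀ k, Lip (2 * r0) k → ∀ t ∈ Icc (0 : Fin 4 → ℝ) 1,
      ‖Lm p q (fun j => f (z j (t j)) + (g0 (z j (t j)) + k (z j (t j))))‖ ≤ 4 * A * (e * W) := by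
    intro k hk t ht
    have e1 : Lm p q (fun j => f (z j (t j)) + (g0 (z j (t j)) + k (z j (t j)))) =
        Lm p q (fun j => f (z j (t j)) + (g0 (z j (t j)) + k (z j (t j))) - f (z j 0) - k (z 0 0))
          + Lm p q (fun j => f (z j 0)) + Lm p q (fun _ => k (z 0 0)) := by
      rw [← Lm_add, ← Lm_add]; congr 1; funext j; ring
    rw [e1, Lm_const, add_zero]
    have a1 := Lm_norm p q fun j => err k hk j (t j) ⟨ht.1 j, ht.2 j⟩
    exact (norm_add_le _ _).trans (by linarith)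
  have hfc : Continuous f := hf.continuous hK
  obtain ⟨l, hl, k1, k1s, k1l, r1, hr1, hball⟩ := cover (Eset p q z f)
    {y | ∃ j, ∃ t ∈ Icc (0 : ℝ) 1, y = z j t} (z 0 0) Dm hDm0
    (by rintro _ ⟨j, t, ht, rfl⟩; exact hP j t ht)
    (Fintype.piFinset fun _ : Fin 4 => Finset.Icc (-(N : ℤ)) N)
    (fun l hl G hG hn => Eset_closed p q z hz f hfc N l
      (fun j => abs_le.2 (Finset.mem_Icc.1 (Fintype.mem_piFinset.1 hl j))) G hG hn)
    g0 r0 g0s hr00 (by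
      intro k hk
      have hkc : Continuous k := hk.continuous hr00.le
      obtain ⟨t, ht, l, hl, h0⟩ := hN (fun j t => f (z j t) + (g0 (z j t) + k (z j t)))
        (fun j => (hfc.comp (hz j)).add ((g0s.continuous.comp (hz j)).add (hkc.comp (hz j))))
        (fun j => by
          rw [show f (z j 1) + (g0 (z j 1) + k (z j 1)) - (f (z j 0) + (g0 (z j 0) + k (z j 0)))
            - D j = k (z j 1) - k (z j 0) by simp only [D]; ring]
          exact ((hk _ _).trans (mul_le_mul_of_nonneg_left (hρ j 1 h11) hr00.le)).trans hr01)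
        (LB k (hk.mono (by linarith)))
      exact ⟨l, Fintype.mem_piFinset.2 fun j => Finset.mem_Icc.2 (abs_le.1 (hl j)), t, ht, h0⟩)
  have hlN : ∀ j, ‖(l j : ℂ)‖ ≤ N := fun j => by
    rw [Complex.norm_intCast]
    exact_mod_cast abs_le.2 (Finset.mem_Icc.1 (Fintype.mem_piFinset.1 hl j))
  -- the lattice vector is small
  set y : ℂ × ℂ := Lm p q (fun j => (l j : ℂ) * (f (z j 1) + (g0 (z j 1) + k1 (z j 1)) -
    (f (z j 0) + (g0 (z j 0) + k1 (z j 0))))) with hy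
  have hyn : ‖y‖ ≤ 4 * A * (e * W) := by
    obtain ⟨t, ht, h0⟩ := hball _ (Pool.Agent.Lib.MP_5a3ebe_gt.Gen.Lip.zero hr1.le)
    simp only [add_zero] at h0
    rw [Lm_add, ← hy] at h0
    rw [eq_neg_of_add_eq_zero_right h0, norm_neg]
    exact LB k1 (k1l.mono (by linarith)) t ht
  set δ : ℝ := min r0 (r1 / (1 + 3 * A * Kb * N)) with hδ
  have hδ0 : 0 < δ := lt_min hr00 (by positivity)
  refine ⟨fun x => g0 x + k1 x + tr y x, (g0s.add k1s).add (two_smooth _ _ _ _ _ _),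
    ((g0l.add k1l).add (trl y)).mono ?_, δ, hδ0, fun h hh => ?_⟩
  · have a1 : 3 * ‖y‖ / σ ≤ 72 * (e * (K + 1) * (A / m)) := by
      rw [div_le_iff₀ hσ]
      have : 72 * (e * (K + 1) * (A / m)) * σ = 12 * A * (e * W) := by
        rw [hσdef]; field_simp; ring
      rw [this]; linarith
    have a2 := mul_le_mul_of_nonneg_left a1 hKb0
    have a3 : 0 ≤ Kb * (e * (K + 1) * (A / m)) := by positivity
    have a4 : 0 ≤ e * (K + 1) * (A / m) := by positivity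
    nlinarith
  set y' : ℂ × ℂ := Lm p q (fun j => (l j : ℂ) * (h (z j 1) - h (z j 0))) with hy'
  have hy'n : ‖y'‖ ≤ A * (N * (δ * σ)) := by
    refine Lm_norm p q fun j => ?_
    rw [norm_mul]
    refine mul_le_mul (hlN j) ?_ (norm_nonneg _) hN0
    exact (hh _ _).trans (mul_le_mul_of_nonneg_left ((hρ j 1 h11).trans hρσ) hδ0.le)
  have hkl : Lip r1 (fun x => h x - tr y' x) := by
    refine (hh.sub (trl y')).mono ?_
    have a1 : 3 * ‖y'‖ / σ ≤ 3 * A * N * δ := by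
      rw [div_le_iff₀ hσ]; nlinarith
    have a2 := mul_le_mul_of_nonneg_left a1 hKb0
    have a3 : δ ≤ r1 / (1 + 3 * A * Kb * N) := min_le_right _ _
    rw [le_div_iff₀ (by positivity)] at a3
    nlinarith
  obtain ⟨t, ht, h0⟩ := hball _ hkl
  have htj : ∀ j, t j ∈ Icc (0 : ℝ) 1 := fun j => ⟨ht.1 j, ht.2 j⟩
  refine ⟨t, ?_, ?_⟩
  · rw [← h0]
    have e1 : Lm p q (fun j => f (z j (t j)) + (g0 (z j (t j)) + k1 (z j (t j)) + tr y (z j (t j)))
        + h (z j (t j))) = Lm p q (fun j => f (z j (t j)) + g0 (z j (t j)) + k1 (z j (t j))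
          + h (z j (t j))) + Lm p q (vec y) := by
      rw [← Lm_add]; congr 1; funext j; rw [trv y j _ (htj j)]; ring
    have e2 : Lm p q (fun j => f (z j (t j)) + (g0 (z j (t j)) + k1 (z j (t j)) +
        (h (z j (t j)) - tr y' (z j (t j)))) + (l j : ℂ) * (f (z j 1) + (g0 (z j 1) + k1 (z j 1) +
          (h (z j 1) - tr y' (z j 1))) - (f (z j 0) + (g0 (z j 0) + k1 (z j 0) +
          (h (z j 0) - tr y' (z j 0)))))) =
        Lm p q (fun j => f (z j (t j)) + g0 (z j (t j)) + k1 (z j (t j)) + h (z j (t j)))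
          - Lm p q (vec y') + y + y' := by
      conv_rhs => rw [hy]
      nth_rewrite 2 [hy']
      rw [← Lm_sub, ← Lm_add, ← Lm_add]; congr 1; funext j
      rw [trv y' j _ (htj j), trv y' j _ h11, trv y' j _ h01]; ring
    rw [e1, e2, Lm_vec, Lm_vec]; abel
  · intro heq
    have hk2 : Lip (2 * r0) (fun x => k1 x + h x) :=
      (k1l.add hh).mono (by have : δ ≤ r0 := min_le_left _ _; linarith)
    have a0 := err _ hk2 0 (t 0) (htj 0)
    have a1 := err _ hk2 1 (t 1) (htj 1)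
    have v0 : tr y (z 0 (t 0)) = 0 := by rw [trv y 0 _ (htj 0)]; simp [vec]
    have v1 : tr y (z 1 (t 1)) = 0 := by rw [trv y 1 _ (htj 1)]; simp [vec]
    simp only [v0, v1, add_zero] at heq
    have e1 : w = (f (z 0 (t 0)) + (g0 (z 0 (t 0)) + (k1 (z 0 (t 0)) + h (z 0 (t 0))))
          - f (z 0 0) - (k1 (z 0 0) + h (z 0 0)))
        - (f (z 1 (t 1)) + (g0 (z 1 (t 1)) + (k1 (z 1 (t 1)) + h (z 1 (t 1))))
          - f (z 1 0) - (k1 (z 0 0) + h (z 0 0)))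
        - (f (z 1 0) - f (z 0 0) - w) := by linear_combination heq
    have a2 : W ≤ 3 * (e * W) + 3 * (e * W) + e * W := by
      conv_lhs => rw [hWdef, e1]
      exact (norm_sub_le _ _).trans (add_le_add ((norm_sub_le _ _).trans (add_le_add a0 a1)) h1)
    nlinarith

end Pool.Agent.Lib.MP_9488bf_co.Gen
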