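import Pool.Agent.Lib.MP_9488bf_co.RcWin
import Pool.Agent.Lib.MP_5a3ebe_gt.ApFinal
import Pool.Agent.Lib.MP_5a3ebe_gt.ApPoly

/-! From the combinatorial core to approximate rectangles on a Jordan curve. -/

namespace Pool.Agent.Lib.MP_9488bf_co.Rc

open Pool.Agent.Lib.MP_5a3ebe_gt.Ap

/-- Four points close to the vertices `o - e, o - f, o + e, o + f` of a large rectangle. -/
lemma rect_of_near {C : Set ℂ} {ε r t : ℝ} {o e f w p1 p2 p3 p4 : ℂ} (hr : 0 < r)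
    (m1 : p1 ∈ C) (m2 : p2 ∈ C) (m3 : p3 ∈ C) (m4 : p4 ∈ C)
    (h1 : ‖p1 - (o - e)‖ ≤ r) (h2 : ‖p2 - (o - f)‖ ≤ r) (h3 : ‖p3 - (o + e)‖ ≤ r)
    (h4 : ‖p4 - (o + f)‖ ≤ r) (hw : e - f = w) (hw' : e + f = Complex.I * t * w)
    (he : 2 * r ≤ ε * ‖w‖) :
    ∃ p1 ∈ C, ∃ p2 ∈ C, ∃ p3 ∈ C, ∃ p4 ∈ C, ∃ w : ℂ,
      w ≠ 0 ∧ ‖p2 - p1 - w‖ ≤ ε * ‖w‖ ∧ ‖p3 - p1 - w - Complex.I * t * w‖ ≤ ε * ‖w‖ ∧
        ‖p4 - p1 - Complex.I * t * w‖ ≤ ε * ‖w‖ := by
  refine ⟨p1, m1, p2, m2, p3, m3, p4, m4, w, ?_, ?_, ?_, ?_⟩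
  · intro e0
    rw [e0, norm_zero] at he
    linarith
  · have : p2 - p1 - w = (p2 - (o - f)) - (p1 - (o - e)) := by linear_combination hw
    rw [this]
    linarith [norm_sub_le (p2 - (o - f)) (p1 - (o - e))]
  · have : p3 - p1 - w - Complex.I * t * w = (p3 - (o + e)) - (p1 - (o - e)) := by
      linear_combination hw + hw'
    rw [this]
    linarith [norm_sub_le (p3 - (o + e)) (p1 - (o - e))]
  · have : p4 - p1 - Complex.I * t * w = (p4 - (o + f)) - (p1 - (o - e)) := by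
      linear_combination hw'
    rw [this]
    linarith [norm_sub_le (p4 - (o + f)) (p1 - (o - e))]

lemma num_end {Q Kr δ d K u R c τa τb : ℝ} (hKr : 0 < Kr) (hδ : 0 < δ) (hδd : δ ≤ d)
    (hK : 0 < K) (hc : 0 < c) (c1 : |Q| ≤ (Kr * δ / 2) ^ 2) (hKu : |K * u| ≤ R + 1)
    (hK2 : 2 * (R + 1) ^ 2 ≤ K * c) (hd : 2004 * (Kr + 3) ^ 2 * d ^ 2 ≤ c / 2)
    (ha : |τa| ≤ 1000 * (Kr + 3) ^ 2 * d ^ 2 + 6 * (Kr * δ / 2) ^ 2)
    (hb : |τb| ≤ 1000 * (Kr + 3) ^ 2 * d ^ 2 + 6 * (Kr * δ / 2) ^ 2) :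
    |τa + τb + Q + K * u ^ 2 / 2| < c := by
  have c2 : (Kr * δ / 2) ^ 2 ≤ (Kr + 3) ^ 2 * d ^ 2 / 4 := by
    have h1 : Kr * δ / 2 ≤ (Kr + 3) * d / 2 := by nlinarith
    have h2 := pow_le_pow_left₀ (by positivity) h1 2
    calc (Kr * δ / 2) ^ 2 ≤ ((Kr + 3) * d / 2) ^ 2 := h2
      _ = _ := by ring
  have c3 : K * u ^ 2 ≤ c / 2 := by
    have a1 : (K * u) ^ 2 ≤ (R + 1) ^ 2 := by
      rw [← sq_abs (K * u)]
      exact pow_le_pow_left₀ (abs_nonneg _) hKu 2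
    have : K * (K * u ^ 2) ≤ K * (c / 2) := by nlinarith
    exact le_of_mul_le_mul_left this hK
  have c4 : 0 ≤ K * u ^ 2 := by positivity
  have c5 : 0 ≤ (Kr + 3) ^ 2 * d ^ 2 := by positivity
  have a := abs_le.1 ha
  have b := abs_le.1 hb
  have c1' := abs_le.1 c1
  rw [mul_assoc] at a b hd
  rw [abs_lt]
  constructor <;> linarith [a.1, a.2, b.1, b.2, c1'.1, c1'.2]

/-- The half diagonals of the rectangle attached to the differences `a`, `b` of abscissae. -/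
lemma diagonals {t s : ℝ} (ht : 0 < t) (hts : t * s = 1) (a b : ℝ) :
    ∃ e f w : ℂ, e.re = a / 2 ∧ e.im = ga t s a b ∧ f.re = -(b / 2) ∧ f.im = gb t s a b ∧
      e - f = w ∧ e + f = Complex.I * t * w ∧ ‖e‖ ≤ (1 + t) * ‖w‖ / 2 ∧
      ‖f‖ ≤ (1 + t) * ‖w‖ / 2 ∧ |qq t s a b| ≤ ((1 + t) * ‖w‖ / 2) ^ 2 := by
  obtain ⟨e, e1, e2⟩ : ∃ e : ℂ, e.re = a / 2 ∧ e.im = ga t s a b := ⟨⟨_, _⟩, rfl, rfl⟩
  obtain ⟨f, f1, f2⟩ : ∃ f : ℂ, f.re = -(b / 2) ∧ f.im = gb t s a b := ⟨⟨_, _⟩, rfl, rfl⟩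
  obtain ⟨w, hw⟩ : ∃ w, e - f = w := ⟨_, rfl⟩
  have w1 : w.re = (a + b) / 2 := by rw [← hw, Complex.sub_re, e1, f1]; ring
  have w2 : w.im = -(s * (a - b) / 2) := by rw [← hw, Complex.sub_im, e2, f2, ga, gb]; ring
  have hw' : e + f = Complex.I * t * w := by
    apply Complex.ext
    · simp only [Complex.add_re, Complex.mul_re, Complex.mul_im, Complex.I_re, Complex.I_im,
        Complex.ofReal_re, Complex.ofReal_im, e1, f1, w1, w2]
      linear_combination (-(a - b) / 2) * hts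
    · simp only [Complex.add_im, Complex.mul_re, Complex.mul_im, Complex.I_re, Complex.I_im,
        Complex.ofReal_re, Complex.ofReal_im, e2, f2, w1, w2, ga, gb]
      ring
  have n1 : ‖Complex.I * t * w‖ = t * ‖w‖ := by simp [abs_of_pos ht]
  have n2 : ‖(2 : ℂ) * e‖ ≤ ‖w‖ + t * ‖w‖ := by
    rw [← n1, show (2 : ℂ) * e = w + Complex.I * t * w by linear_combination hw + hw']
    exact norm_add_le _ _
  have n3 : ‖(2 : ℂ) * f‖ ≤ t * ‖w‖ + ‖w‖ := by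
    rw [← n1, show (2 : ℂ) * f = Complex.I * t * w - w by linear_combination hw' - hw]
    exact norm_sub_le _ _
  simp only [norm_mul, Complex.norm_ofNat] at n2 n3
  refine ⟨e, f, w, e1, e2, f1, f2, hw, hw', by linarith, by linarith, ?_⟩
  have q : qq t s a b = t * (w.re ^ 2 - w.im ^ 2) / 2 := by
    rw [w1, w2, qq]
    linear_combination (s * (a - b) ^ 2 / 8) * hts
  have a1 : ‖w‖ ^ 2 = w.re ^ 2 + w.im ^ 2 := by
    rw [Complex.sq_norm, Complex.normSq_apply]; ring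
  have a2 := mul_nonneg ht.le (sq_nonneg w.re)
  have a3 := mul_nonneg ht.le (sq_nonneg w.im)
  have a4 := mul_nonneg (sq_nonneg (1 - t)) (sq_nonneg ‖w‖)
  have a5 : t * ‖w‖ ^ 2 = t * w.re ^ 2 + t * w.im ^ 2 := by rw [a1]; ring
  rw [q, abs_le]
  constructor <;> linarith

theorem final_aux {t s : ℝ} (ht : 0 < t) (hts : t * s = 1) (core : CoreR t s)
    (γ : Circle → ℂ) (hc : Continuous γ) (hi : Function.Injective γ) (ε : ℝ) (hε : 0 < ε)
    (hε1 : ε ≤ 1) :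
    ∃ p1 ∈ Set.range γ, ∃ p2 ∈ Set.range γ, ∃ p3 ∈ Set.range γ, ∃ p4 ∈ Set.range γ, ∃ w : ℂ,
      w ≠ 0 ∧ ‖p2 - p1 - w‖ ≤ ε * ‖w‖ ∧ ‖p3 - p1 - w - Complex.I * t * w‖ ≤ ε * ‖w‖ ∧
        ‖p4 - p1 - Complex.I * t * w‖ ≤ ε * ‖w‖ := by
  obtain ⟨ρ, R0, hρ, -, model⟩ := exists_model γ hc hi
  obtain ⟨B, hB0, hB⟩ := (isCompact_range hc).isBounded.exists_pos_norm_le
  obtain ⟨R, hR⟩ : ∃ R, R = B + 1 + ρ := ⟨_, rfl⟩
  obtain ⟨c, K0, hc0, core⟩ := core R (ρ / 3) (by positivity) (by linarith)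
  obtain ⟨ε', hε'⟩ : ∃ ε', ε' = ε / (1 + t) := ⟨_, rfl⟩
  have hε0 : 0 < ε' := by rw [hε']; positivity
  have hεt : ε' * (1 + t) = ε := by rw [hε']; field_simp
  have hε'1 : ε' ≤ 1 := by linarith [mul_pos hε0 ht]
  obtain ⟨Kr, hKr⟩ : ∃ Kr, Kr = 28 / ε' := ⟨_, rfl⟩
  have hKr0 : 0 < Kr := by rw [hKr]; positivity
  have hKε : Kr * ε' = 28 := by rw [hKr]; field_simp
  obtain ⟨d, hd0, hd1, hdc⟩ := num_d (T := 2004 * (Kr + 3) ^ 2) (c := c / 2) (by positivity)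
    (by positivity)
  obtain ⟨δ, hδ, hδd, n, _, z, c0, M⟩ := model Kr d hKr0 hd0
  have hzB : ∀ i, ‖z i - 0‖ ≤ R := by
    intro i
    obtain ⟨p, hp, h1⟩ := M.near i
    have h2 := hB p hp
    have := norm_add_le (z i - p) p
    rw [sub_add_cancel] at this
    rw [sub_zero]
    linarith
  have hR0 : 0 < R := by linarith
  obtain ⟨K, hK0, hK1, hK2⟩ : ∃ K : ℝ, K0 ≤ K ∧ (R + 1) / δ ≤ K ∧ 2 * (R + 1) ^ 2 / c ≤ K :=
    ⟨max K0 (max ((R + 1) / δ) (2 * (R + 1) ^ 2 / c)), le_max_left _ _,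
      (le_max_left _ _).trans (le_max_right _ _), (le_max_right _ _).trans (le_max_right _ _)⟩
  have hKpos : 0 < K := lt_of_lt_of_le (by positivity) hK1
  rw [div_le_iff₀ hδ] at hK1
  rw [div_le_iff₀ hc0] at hK2
  obtain ⟨S, hS, hsl⟩ := exists_slope M.three M.inj
  have hg0 : 0 < δ / (16 * (n + 1)) := by positivity
  obtain ⟨h0, hh0, core⟩ := core K δ (δ / (16 * (n + 1)) / S) (δ / (16 * (n + 1))) hK0 hδ
    (by positivity) hg0 (ZMod n)
  obtain ⟨hg, hhg, hgrid⟩ := M.grid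
  choose mm hmm using hgrid
  obtain ⟨μ, hμ0, hμ⟩ : ∃ μ : ℝ, 0 < μ ∧ ∀ i, μ ≤ |(z i).re - c0.re| := by
    obtain ⟨i0, -, hi0⟩ := Finset.exists_min_image Finset.univ (fun i => |(z i).re - c0.re|)
      Finset.univ_nonempty
    exact ⟨_, abs_pos.2 (sub_ne_zero.2 (M.off i0)), fun i => hi0 i (Finset.mem_univ _)⟩
  obtain ⟨N, hN⟩ := exists_nat_gt (hg / min h0 (min (ρ / 3) μ))
  have hmin : 0 < min h0 (min (ρ / 3) μ) := by positivity
  have hN0 : (0 : ℝ) < N := lt_trans (by positivity) hN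
  obtain ⟨h, hhdef⟩ : ∃ h, h = hg / N := ⟨_, rfl⟩
  have hh : 0 < h := by rw [hhdef]; positivity
  have hlt : h < min h0 (min (ρ / 3) μ) := by
    rw [hhdef, div_lt_iff₀ hN0]
    rw [div_lt_iff₀ hmin] at hN
    linarith
  simp only [lt_min_iff] at hlt
  obtain ⟨X, hX⟩ : ∃ X : ZMod n → ℤ, ∀ i, (z i).re = h * X i :=
    ⟨fun i => N * mm i, fun i => by rw [hmm, hhdef]; push_cast; field_simp⟩
  obtain ⟨G, Cn⟩ := poly_good z h X M.three M.simple M.inj hh hX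
  obtain ⟨F, A, L⟩ := (polyDiag z h X).exists_lev G Cn (fun k s => -(h * (polyDiag z h X).key k s))
  have hre : ∀ i, |(z i).re| ≤ R := fun i =>
    (Complex.abs_re_le_norm _).trans (by simpa using hzB i)
  have him : ∀ v, ∀ P ∈ segment ℝ (z v) (z (v + 1)), |P.im| ≤ R := fun v P hP =>
    (Complex.abs_im_le_norm _).trans (by simpa using seg_norm_le hP (hzB v) (hzB (v + 1)))
  obtain ⟨i1, i2, i3, i4, s1, s2, s3, s4, m, x1, x2, x3, x4, u, V, t1, t2, t3, t4, e1, e2, e3,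
    e4, eu, y1, y2, y3, y4, eV, v1, v2⟩ :=
    core h hh hlt.1.le (polyDiag z h X) (fun i v => lineH (z v) (z (v + 1)) (h * i)) F A
      ⌊c0.re / h⌋ _ c0.im G Cn L
      (fun k s hk => him s _ (mid_mem M.three M.inj hh hX hk))
      (fun s _ t _ => by
        rw [mul_sub, ← max_re hh hX, ← min_re hh hX]
        have a1 := abs_le.1 (hre s)
        have a2 := abs_le.1 (hre (s + 1))
        have a3 := abs_le.1 (hre t)
        have a4 := abs_le.1 (hre (t + 1))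
        have b1 := max_le a1.2 a2.2
        have b2 := le_min a3.1 a4.1
        linarith)
      (sep_of_clear M.three M.inj hh hX (corridor_clear hh hlt.2.1.le M.far) (by positivity))
      (quiet_of hh hX fun i => lt_of_lt_of_le hlt.2.2 (hμ i))
      (by
        have := M.odd
        simpa only [alive_iff M.three M.inj hh hX hlt.2.1.le M.far M.off] using this)
      (local_sep M.three M.inj hh hX hS (by positivity) hδ hsl (by
        rw [mul_div_cancel₀ _ hS.ne']))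
  have m1 := touch_mem M.three M.inj hh hX t1
  have m2 := touch_mem M.three M.inj hh hX t2
  have m3 := touch_mem M.three M.inj hh hX t3
  have m4 := touch_mem M.three M.inj hh hX t4
  have hKu : |K * u| ≤ R + 1 := by
    have a1 := abs_le.1 (him _ _ m1)
    have a3 := abs_le.1 (him _ _ m3)
    rw [linePt_im] at a1 a3
    have b1 := abs_le.1 y1
    have b3 := abs_le.1 y3
    rw [abs_le]
    constructor <;> linarith [a1.1, a1.2, a3.1, a3.2, b1.1, b1.2, b3.1, b3.2]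
  have hu : |u| ≤ δ := num_u hKpos hKu hK1
  have hu' := abs_le.1 hu
  obtain ⟨o, ho1, ho2⟩ : ∃ o : ℂ, o.re = (x1 + x3) / 2 ∧ o.im = -(K * u) :=
    ⟨⟨(x1 + x3) / 2, -(K * u)⟩, rfl, rfl⟩
  obtain ⟨e, f, w, he1, he2, hf1, hf2, hw, hw', ne, nf, nq⟩ := diagonals ht hts (x1 - x3) (x2 - x4)
  have n1 : ‖linePt (z s1) (z (s1 + 1)) (h * i1) - (o + e)‖ ≤ δ + δ := by
    have b := abs_le.1 y1
    apply norm_le_of_parts <;>
      simp only [Complex.sub_re, Complex.add_re, Complex.sub_im, Complex.add_im, linePt_re,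
        linePt_im, ho1, ho2, he1, he2, abs_le] <;>
      constructor <;> linarith [b.1, b.2]
  have n3 : ‖linePt (z s3) (z (s3 + 1)) (h * i3) - (o - e)‖ ≤ δ + δ := by
    have b := abs_le.1 y3
    apply norm_le_of_parts <;>
      simp only [Complex.sub_re, Complex.add_re, Complex.sub_im, Complex.add_im, linePt_re,
        linePt_im, ho1, ho2, he1, he2, abs_le] <;>
      constructor <;> linarith [b.1, b.2]
  have n2 : ‖linePt (z s2) (z (s2 + 1)) (h * i2) - (o - f)‖ ≤ δ + δ := by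
    have b := abs_le.1 y2
    apply norm_le_of_parts <;>
      simp only [Complex.sub_re, Complex.add_re, Complex.sub_im, Complex.add_im, linePt_re,
        linePt_im, ho1, ho2, hf1, hf2, abs_le] <;>
      constructor <;> linarith [b.1, b.2, hu'.1, hu'.2]
  have n4 : ‖linePt (z s4) (z (s4 + 1)) (h * i4) - (o + f)‖ ≤ δ + δ := by
    have b := abs_le.1 y4
    apply norm_le_of_parts <;>
      simp only [Complex.sub_re, Complex.add_re, Complex.sub_im, Complex.add_im, linePt_re,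
        linePt_im, ho1, ho2, hf1, hf2, abs_le] <;>
      constructor <;> linarith [b.1, b.2, hu'.1, hu'.2]
  have vert : ∀ (v : ZMod n) (P q : ℂ), P ∈ segment ℝ (z v) (z (v + 1)) → ‖P - q‖ ≤ δ + δ →
      ‖z v - q‖ ≤ 4 * δ ∧ ∃ p ∈ Set.range γ, ‖p - q‖ ≤ 5 * δ := by
    intro v P q hP hq
    have a1 : ‖P - z v‖ ≤ 2 * δ := seg_norm_le hP (by simp [hδ.le]) (M.short v)
    have a2 := norm_sub_le (P - q) (P - z v)
    rw [show P - q - (P - z v) = z v - q by ring] at a2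
    obtain ⟨p, hp, a3⟩ := M.near v
    have a4 := norm_sub_le (z v - q) (z v - p)
    rw [show z v - q - (z v - p) = p - q by ring] at a4
    exact ⟨by linarith, p, hp, by linarith⟩
  obtain ⟨w1, p1, q1, r1⟩ := vert _ _ _ m1 n1
  obtain ⟨w2, p2, q2, r2⟩ := vert _ _ _ m2 n2
  obtain ⟨w3, p3, q3, r3⟩ := vert _ _ _ m3 n3
  obtain ⟨w4, p4, q4, r4⟩ := vert _ _ _ m4 n4
  by_cases hbig : 2 * (5 * δ) ≤ ε * ‖w‖
  · exact rect_of_near (by positivity) q3 q2 q1 q4 r3 r2 r1 r4 hw hw' hbig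
  exfalso
  push Not at hbig
  generalize hT : (1 + t) * ‖w‖ / 2 = T at ne nf nq
  have T0 : 0 ≤ T := (norm_nonneg _).trans ne
  have hsm : T + 4 * δ ≤ Kr * δ / 2 := by
    refine num_small hε0 hε'1 hδ hKε ?_
    have : ε' * T = ε * ‖w‖ / 2 := by rw [← hT, ← hεt]; ring
    linarith
  have near : ∀ (P f : ℂ), ‖f‖ ≤ T → ‖P - (o + f)‖ ≤ 4 * δ → ‖P - o‖ ≤ Kr * δ / 2 := by
    intro P f hf hP
    have := norm_add_le (P - (o + f)) f
    rw [show P - (o + f) + f = P - o by ring] at this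
    linarith
  have f2 : ‖-f‖ ≤ T := by rwa [norm_neg]
  have f3 : ‖-e‖ ≤ T := by rwa [norm_neg]
  rw [sub_eq_add_neg o] at n2 n3 w2 w3
  obtain ⟨ma, τa, ha, ea⟩ := lev_pair M hδ hKr0 hX G L t1 t2 (near _ _ ne w1) (near _ _ f2 w2)
    (near _ _ ne (by linarith)) (near _ _ f2 (by linarith)) (by linarith)
  obtain ⟨mb, τb, hb, eb⟩ := lev_pair M hδ hKr0 hX G L t3 t4 (near _ _ f3 w3) (near _ _ nf w4)
    (near _ _ f3 (by linarith)) (near _ _ nf (by linarith)) (by linarith)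
  refine not_window (t := τa + τb + qq t s (x1 - x3) (x2 - x4) + K * u ^ 2 / 2)
    (m := ma + mb + m) ?_ ?_ v1 v2
  · rw [← e1, ← e2, ho2] at ea
    rw [← e3, ← e4, ho2] at eb
    push_cast
    linear_combination eV + ea + eb - (K * u) * eu
  · exact num_end hKr0 hδ hδd hKpos hc0 (nq.trans (pow_le_pow_left₀ T0 (by linarith) 2)) hKu hK2
      hdc ha hb

theorem approx_rect (γ : Circle → ℂ) (hc : Continuous γ) (hi : Function.Injective γ) (t : ℝ)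
    (ht : 0 < t) (ε : ℝ) (hε : 0 < ε) :
    ∃ p1 ∈ Set.range γ, ∃ p2 ∈ Set.range γ, ∃ p3 ∈ Set.range γ, ∃ p4 ∈ Set.range γ, ∃ w : ℂ,
      w ≠ 0 ∧ ‖p2 - p1 - w‖ ≤ ε * ‖w‖ ∧ ‖p3 - p1 - w - Complex.I * t * w‖ ≤ ε * ‖w‖ ∧
        ‖p4 - p1 - Complex.I * t * w‖ ≤ ε * ‖w‖ := by
  obtain ⟨p1, h1, p2, h2, p3, h3, p4, h4, w, hw, a1, a2, a3⟩ :=
    final_aux ht (mul_inv_cancel₀ ht.ne') (coreR ht (inv_pos.2 ht)) γ hc hi (min ε 1)
      (lt_min hε one_pos) (min_le_right _ _)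
  have : min ε 1 * ‖w‖ ≤ ε * ‖w‖ := mul_le_mul_of_nonneg_right (min_le_left _ _) (norm_nonneg _)
  exact ⟨p1, h1, p2, h2, p3, h3, p4, h4, w, hw, a1.trans this, a2.trans this, a3.trans this⟩

end Pool.Agent.Lib.MP_9488bf_co.Rc
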