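import Pool.Agent.Lib.MP_9488bf_co.H87GenD
import Pool.Agent.Lib.MP_9488bf_co.RcFinal

/-!
Exact inscribed rectangles for an open dense set of Lipschitz deformations of a Jordan curve.
-/

set_option linter.unusedVariables false

namespace Pool.Agent.Lib.MP_9488bf_co.Gen

open Set Complex
open Pool.Agent.Lib.MP_5a3ebe_gt.Gen (Lip bump exists_bump_const)

lemma short_arc (γ : Circle → ℂ) (hc : Continuous γ) (s : Circle) {ρ : ℝ} (hρ : 0 < ρ) :
    ∃ a : ℝ → Circle, Continuous a ∧ a 0 = s ∧ a 1 ≠ a 0 ∧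
      ∀ t ∈ Icc (0 : ℝ) 1, ‖γ (a t) - γ (a 0)‖ ≤ ρ := by
  have h1 : Continuous fun u : ℝ => γ (s * Circle.exp u) :=
    hc.comp (continuous_const.mul Circle.exp.continuous)
  obtain ⟨η, hη, hb⟩ := Metric.continuous_iff.1 h1 0 ρ hρ
  set u : ℝ := min (η / 2) 1 with hu
  have hu0 : 0 < u := lt_min (by linarith) one_pos
  have hu1 : u ≤ 1 := min_le_right _ _
  have hu2 : u ≤ η / 2 := min_le_left _ _
  refine ⟨fun t => s * Circle.exp (u * t),
    continuous_const.mul (Circle.exp.continuous.comp (by fun_prop)), by simp, ?_, ?_⟩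
  · intro h
    have h2 : Circle.exp (u * 1) = Circle.exp (u * 0) := mul_left_cancel h
    have hpi := Real.pi_gt_three
    have := Circle.exp_injOn_Icc (a := 0) (b := 1) (by linarith)
      (show u * 1 ∈ Icc (0 : ℝ) 1 from ⟨by linarith, by linarith⟩)
      (show u * 0 ∈ Icc (0 : ℝ) 1 from ⟨by linarith, by linarith⟩) h2
    linarith
  · intro t ht
    have h3 : dist (u * t) 0 < η := by
      rw [Real.dist_eq, sub_zero, abs_of_nonneg (mul_nonneg hu0.le ht.1)]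
      have := mul_le_mul_of_nonneg_left ht.2 hu0.le
      linarith
    have := (hb _ h3).le
    rw [dist_eq_norm] at this
    simpa using this

/-- a quadrilateral that is inscribed in every Jordan curve up to any relative error is inscribed
exactly after an open dense set of deformations -/
theorem generic_of_approx (p q : ℂ) (m : ℝ) (hm0 : 0 < m) (hm1 : m ≤ 1)
    (m1 : m ≤ ‖p + q‖) (m2 : m ≤ ‖p + q - 1‖) (m3 : m ≤ ‖p‖) (m4 : m ≤ ‖q‖) (m5 : m ≤ ‖q - 1‖)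
    (γ : Circle → ℂ) (hc : Continuous γ) (f : ℂ → ℂ) (K : ℝ) (hK : 0 ≤ K)
    (hf : Lip K f) (hi : Function.Injective fun s => f (γ s))
    (approx : ∀ e : ℝ, 0 < e → ∃ s0 s1 s2 s3 : Circle, ∃ w : ℂ, w ≠ 0 ∧
      ‖f (γ s1) - f (γ s0) - w‖ ≤ e * ‖w‖ ∧ ‖f (γ s2) - f (γ s0) - (p + q) * w‖ ≤ e * ‖w‖ ∧
      ‖f (γ s3) - f (γ s0) - q * w‖ ≤ e * ‖w‖)
    (ε : ℝ) (hε : 0 < ε) :
    ∃ g : ℂ → ℂ, ContDiff ℝ (⊤ : ℕ∞) g ∧ g 0 = 0 ∧ Lip ε g ∧ ∃ δ : ℝ, 0 < δ ∧ ∀ h, Lip δ h →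
      ∃ z w : ℂ, w ≠ 0 ∧ z ∈ range (fun s => f (γ s) + g (γ s) + h (γ s)) ∧
        z + w ∈ range (fun s => f (γ s) + g (γ s) + h (γ s)) ∧
        z + (p + q) * w ∈ range (fun s => f (γ s) + g (γ s) + h (γ s)) ∧
        z + q * w ∈ range (fun s => f (γ s) + g (γ s) + h (γ s)) := by
  obtain ⟨Kb, hKb0, hKb⟩ := exists_bump_const
  have hA := cst_pos p q
  set e : ℝ := min (m / 16) (ε / (2000 * (Kb + 1) * (K + 1) * (cst p q / m))) with he
  have he0 : 0 < e := lt_min (by positivity) (by positivity)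
  have he1 : e ≤ m / 16 := min_le_left _ _
  have he2 : 2000 * (Kb + 1) * (K + 1) * e * (cst p q / m) ≤ ε := by
    have : e ≤ ε / (2000 * (Kb + 1) * (K + 1) * (cst p q / m)) := min_le_right _ _
    rw [le_div_iff₀ (by positivity)] at this
    linarith
  obtain ⟨s0, s1, s2, s3, w, hw, h1, h2, h3⟩ := approx e he0
  have hρ : 0 < e * ‖w‖ / (K + 1) := by
    have := norm_pos_iff.2 hw
    positivity
  choose a ha0 ha1 ha2 ha3 using fun s => short_arc γ hc s hρ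
  let s : Fin 4 → Circle := ![s0, s1, s2, s3]
  obtain ⟨g, hg, hgl, δ, hδ, H⟩ := core p q (fun j t => γ (a (s j) t))
    (fun j => hc.comp (ha0 _)) f K hK hf Kb hKb0 hKb m hm0 hm1 m1 m2 m3 m4 m5 w hw e ε he0 he1 he2
    (by simp only [ha1]; exact h1) (by simp only [ha1]; exact h2) (by simp only [ha1]; exact h3)
    (fun j => ha3 _) (fun j h => ha2 _ (hi h))
  refine ⟨fun x => g x - g 0, hg.sub contDiff_const, by simp, fun x y => ?_, δ, hδ,
    fun h hh => ?_⟩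
  · rw [show g x - g 0 - (g y - g 0) = g x - g y by ring]; exact hgl x y
  obtain ⟨t, h0, hne⟩ := H h hh
  rw [Lm, Prod.mk_eq_zero] at h0
  obtain ⟨e1, e2⟩ := h0
  refine ⟨f (γ (a (s 0) (t 0))) + g (γ (a (s 0) (t 0))) + h (γ (a (s 0) (t 0))) - g 0,
    f (γ (a (s 1) (t 1))) + g (γ (a (s 1) (t 1))) + h (γ (a (s 1) (t 1))) -
      (f (γ (a (s 0) (t 0))) + g (γ (a (s 0) (t 0))) + h (γ (a (s 0) (t 0)))),
    sub_ne_zero.2 hne, ⟨a (s 0) (t 0), by ring⟩, ⟨a (s 1) (t 1), by ring⟩,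
    ⟨a (s 2) (t 2), ?_⟩, ⟨a (s 3) (t 3), ?_⟩⟩
  · linear_combination e1 + e2
  · linear_combination e2

theorem generic (γ : Circle → ℂ) (hc : Continuous γ) (f : ℂ → ℂ) (K : ℝ) (hK : 0 ≤ K)
    (hf : Lip K f) (hi : Function.Injective fun s => f (γ s)) (t : ℝ) (ht : 0 < t)
    (ε : ℝ) (hε : 0 < ε) :
    ∃ g : ℂ → ℂ, ContDiff ℝ (⊤ : ℕ∞) g ∧ g 0 = 0 ∧ Lip ε g ∧ ∃ δ : ℝ, 0 < δ ∧ ∀ h, Lip δ h →
      ∃ z w : ℂ, w ≠ 0 ∧ z ∈ range (fun s => f (γ s) + g (γ s) + h (γ s)) ∧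
        z + w ∈ range (fun s => f (γ s) + g (γ s) + h (γ s)) ∧
        z + w + I * t * w ∈ range (fun s => f (γ s) + g (γ s) + h (γ s)) ∧
        z + I * t * w ∈ range (fun s => f (γ s) + g (γ s) + h (γ s)) := by
  have hre : ∀ u : ℂ, |u.re| = 1 → min 1 t ≤ ‖u‖ := fun u hu =>
    (min_le_left _ _).trans (hu ▸ Complex.abs_re_le_norm u)
  have him : ∀ u : ℂ, u.im = t → min 1 t ≤ ‖u‖ := fun u hu =>
    (min_le_right _ _).trans (hu ▸ (le_abs_self _).trans (Complex.abs_im_le_norm u))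
  obtain ⟨g, hg, hg0, hgl, δ, hδ, H⟩ := generic_of_approx 1 (I * t) (min 1 t)
    (lt_min one_pos ht) (min_le_left _ _) (hre _ (by simp)) (him _ (by simp)) (hre _ (by simp))
    (him _ (by simp)) (him _ (by simp)) γ hc f K hK hf hi (fun e he => by
      obtain ⟨_, ⟨s0, rfl⟩, _, ⟨s1, rfl⟩, _, ⟨s2, rfl⟩, _, ⟨s3, rfl⟩, w, hw, h1, h2, h3⟩ :=
        Rc.approx_rect _ ((hf.continuous hK).comp hc) hi t ht e he
      refine ⟨s0, s1, s2, s3, w, hw, h1, ?_, h3⟩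
      rw [show f (γ s2) - f (γ s0) - (1 + I * t) * w = f (γ s2) - f (γ s0) - w - I * t * w by ring]
      exact h2) ε hε
  refine ⟨g, hg, hg0, hgl, δ, hδ, fun h hh => ?_⟩
  obtain ⟨z, w, hw, h0, h1, h2, h3⟩ := H h hh
  refine ⟨z, w, hw, h0, h1, ?_, h3⟩
  rwa [show z + (1 + I * t) * w = z + w + I * t * w by ring] at h2

end Pool.Agent.Lib.MP_9488bf_co.Gen
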