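import Pool.Agent.Lib.MP_9488bf_co.H8Link

/-! Corners and approximate trapezoids. -/

namespace Pool.Agent.Lib.MP_9488bf_co.H8

open Set Filter Topology Complex Pool.Agent.Lib.MP_5a3ebe_gt Pool.Agent.Lib.MP_5a3ebe_gt.H46

lemma inner_eq (p q : ℂ) : inner ℝ p q = p.re * q.re + p.im * q.im := by
  rw [Complex.inner]
  simp only [mul_re, conj_re, conj_im]
  ring

lemma cone_shift {c τ : ℝ} (hc : 0 ≤ c) (hc1 : c < 1) (hτ : 0 < τ) {p q : ℂ}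
    (h : c * (‖p‖ * ‖q‖) ≤ inner ℝ p q) (hp : c * ‖p‖ ≤ p.re) (hq : c * ‖q‖ ≤ q.re) :
    c * (‖p + τ‖ * ‖q + τ‖) < inner ℝ (p + τ) (q + τ) := by
  have a : ∀ p : ℂ, ‖p + τ‖ ≤ ‖p‖ + τ := fun p =>
    (norm_add_le _ _).trans (by rw [norm_real, Real.norm_of_nonneg hτ.le])
  have b : c * (‖p + τ‖ * ‖q + τ‖) ≤ c * ((‖p‖ + τ) * (‖q‖ + τ)) := by
    gcongr
    exacts [a p, a q]
  rw [inner_eq] at h ⊢
  simp only [add_re, add_im, ofReal_re, ofReal_im, add_zero]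
  nlinarith [mul_pos hτ hτ]

lemma corner_left {c : ℝ} (hc : 0 ≤ c) (hc1 : c < 1) {J : Set ℂ}
    (hA : ∀ p ∈ J, ∀ q ∈ J, c * (‖p‖ * ‖q‖) ≤ inner ℝ p q) (h1 : 1 ∈ J) {t u v : ℂ}
    (ht : t.im = 0) (ht' : t.re < 0) (hu : u ≠ 0) (hv : v ≠ 0)
    (huv : |inner ℝ u v| ≤ c * (‖u‖ * ‖v‖)) (a1 : (t + u).im = 0 ∨ t + u ∈ J)
    (a2 : (t + v).im = 0 ∨ t + v ∈ J) : False := by
  have hre : ∀ p ∈ J, c * ‖p‖ ≤ p.re := fun p hp => by simpa [inner_eq] using hA p hp 1 h1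
  have hτ : 0 < -t.re := by linarith
  have e : ∀ u : ℂ, t + u + ((-t.re : ℝ) : ℂ) = u := fun u => Complex.ext (by simp) (by simp [ht])
  have key : ∀ u v : ℂ, u ≠ 0 → v ≠ 0 → |inner ℝ u v| ≤ c * (‖u‖ * ‖v‖) → (t + u).im = 0 →
      ((t + v).im = 0 ∨ t + v ∈ J) → False := by
    intro u v hu hv huv a1 a2
    have b1 : u.im = 0 := by simpa [ht] using a1
    have b2 : ‖u‖ = |u.re| := (abs_re_eq_norm.2 b1).symm
    have b3 : |v.re| ≤ c * ‖v‖ := by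
      rw [inner_eq, b1, zero_mul, add_zero, abs_mul, ← b2] at huv
      exact le_of_mul_le_mul_left (by linarith) (norm_pos_iff.2 hu)
    rcases a2 with a2 | a2
    · rw [abs_re_eq_norm.2 (by simpa [ht] using a2)] at b3
      nlinarith [norm_pos_iff.2 hv]
    · have := cone_shift hc hc1 hτ (p := t + v) (q := 0) (by simp) (hre _ a2) (by simp)
      rw [e, zero_add, inner_eq, norm_real, Real.norm_of_nonneg hτ.le] at this
      simp only [ofReal_re, ofReal_im, mul_zero, add_zero] at this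
      nlinarith [le_abs_self v.re]
  rcases a1 with a1 | a1
  · exact key u v hu hv huv a1 a2
  rcases a2 with a2 | a2
  · exact key v u hv hu (by rwa [real_inner_comm, mul_comm ‖v‖]) a2 (Or.inr a1)
  have := cone_shift hc hc1 hτ (hA _ a1 _ a2) (hre _ a1) (hre _ a2)
  rw [e, e] at this
  linarith [le_abs_self (inner ℝ u v)]

lemma corner {c : ℝ} (hc : 0 ≤ c) (hc1 : c < 1) {J : Set ℂ}
    (hA : ∀ p ∈ J, ∀ q ∈ J, c * (‖p‖ * ‖q‖) ≤ inner ℝ p q)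
    (hB : ∀ p ∈ J, ∀ q ∈ J, c * (‖p - 1‖ * ‖q - 1‖) ≤ inner ℝ (p - 1) (q - 1))
    (h0 : 0 ∈ J) (h1 : 1 ∈ J) {t u v : ℂ} (hu : u ≠ 0) (hv : v ≠ 0)
    (huv : |inner ℝ u v| ≤ c * (‖u‖ * ‖v‖))
    (a0 : (t.im = 0 ∧ t.re ≤ 0) ∨ t ∈ J ∨ (t.im = 0 ∧ 1 ≤ t.re))
    (a1 : (t + u).im = 0 ∨ t + u ∈ J) (a2 : (t + v).im = 0 ∨ t + v ∈ J) : t ∈ J := by
  rcases a0 with a0 | a0 | a0
  · rcases eq_or_lt_of_le a0.2 with h | h
    · rwa [show t = 0 from Complex.ext h a0.1]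
    · exact (corner_left hc hc1 hA h1 a0.1 h hu hv huv a1 a2).elim
  · exact a0
  · rcases eq_or_lt_of_le a0.2 with h | h
    · rwa [show t = 1 from Complex.ext h.symm a0.1]
    · exfalso
      have e : ∀ u : ℂ, (t + u).im = 0 ∨ t + u ∈ J →
          (1 - t + -u).im = 0 ∨ 1 - t + -u ∈ {p | 1 - p ∈ J} := by
        rintro u (a | a)
        · left
          simp only [add_im, sub_im, neg_im, one_im] at a ⊢
          linarith
        · right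
          show 1 - (1 - t + -u) ∈ J
          convert a using 1; ring
      refine corner_left hc hc1 (J := {p | 1 - p ∈ J}) (t := 1 - t) (u := -u) (v := -v)
        (fun p hp q hq => ?_) (by simpa using h0) (by simpa using a0.1) (by simpa using h)
        (neg_ne_zero.2 hu) (neg_ne_zero.2 hv) (by simpa using huv) (e u a1) (e v a2)
      simpa using hB _ hp _ hq

lemma inner_mul_mul (a b w : ℂ) : inner ℝ (a * w) (b * w) = inner ℝ a b * (‖w‖ * ‖w‖) := by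
  rw [inner_eq, inner_eq, norm_mul_self_eq_normSq, normSq_apply]
  simp only [mul_re, mul_im]
  ring

lemma vert {c : ℝ} {r : ℝ} {α : ℂ} (h : |α.re| ≤ c * ‖α‖) (w : ℂ) :
    |inner ℝ ((r : ℂ) * w) (α * w)| ≤ c * (‖(r : ℂ) * w‖ * ‖α * w‖) := by
  rw [inner_mul_mul, inner_eq, norm_mul, norm_mul, norm_real, Real.norm_eq_abs]
  simp only [ofReal_re, ofReal_im, zero_mul, add_zero, abs_mul, abs_norm]
  have := mul_le_mul_of_nonneg_left h (show 0 ≤ |r| * (‖w‖ * ‖w‖) by positivity)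
  linarith

lemma approx_tr {s t : ℝ} (hs : 0 ≤ s) (hs1 : s ≤ 1) (ht : 0 < t) {K1 K2 : Set ℂ}
    (c1 : IsClosed K1) (c2 : IsClosed K2) {M : ℝ}
    (hM : ∀ p ∈ K1 ∪ K2, |p.im| ≤ M ∧ ((p.re < 0 ∨ 1 < p.re) → p.im = 0))
    (hsq : ∀ z w : ℂ, z ∈ K1 → z + w ∈ K1 → z + (1 - s + t * I) * w ∈ K2 →
      z + (s + t * I) * w ∈ K2 → w = 0 ∧ z.im = 0 ∧ (z.re ≤ 0 ∨ 1 ≤ z.re)) {r : ℝ} (hr : 0 < r) :
    ∃ κ > 0, ∀ q1 ∈ K1, ∀ q2 ∈ K1, ∀ q3 ∈ K2, ∀ q4 ∈ K2, ∀ d x a b : ℝ, |d| ≤ κ →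
      ATr s t κ d x a b q1 q2 q3 q4 →
        |a| ≤ r ∧ |b| ≤ r ∧ |q1.im| ≤ r ∧ (q1.re ≤ r ∨ 1 - r ≤ q1.re) := by
  set N := (4 * |M| + 3) / t + (1 + t) * (2 * |M| + 2) with hN
  have hM0 := abs_nonneg M
  have hN1 : 0 ≤ (4 * |M| + 3) / t := by positivity
  have hN2 : 0 ≤ t * (2 * |M| + 2) := by positivity
  set L := 3 * N + 4 with hL
  have k1 : IsCompact (K1 ∩ Metric.closedBall 0 L) := (isCompact_closedBall _ _).inter_left c1
  have k2 : IsCompact (K2 ∩ Metric.closedBall 0 L) := (isCompact_closedBall _ _).inter_left c2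
  have hZ : IsClosed {q : ((ℂ × ℂ) × (ℂ × ℂ)) × ℂ | r ≤ ‖q.2‖ ∨ r ≤ |q.1.1.1.im| ∨
      (r ≤ q.1.1.1.re ∧ q.1.1.1.re ≤ 1 - r)} :=
    IsClosed.union (s₁ := {q : ((ℂ × ℂ) × (ℂ × ℂ)) × ℂ | r ≤ ‖q.2‖})
      (isClosed_le continuous_const (by fun_prop))
      (IsClosed.union (s₁ := {q : ((ℂ × ℂ) × (ℂ × ℂ)) × ℂ | r ≤ |q.1.1.1.im|})
        (isClosed_le continuous_const (by fun_prop))
        (IsClosed.inter (s₁ := {q : ((ℂ × ℂ) × (ℂ × ℂ)) × ℂ | r ≤ q.1.1.1.re})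
          (s₂ := {q : ((ℂ × ℂ) × (ℂ × ℂ)) × ℂ | q.1.1.1.re ≤ 1 - r})
          (isClosed_le continuous_const (by fun_prop))
          (isClosed_le (by fun_prop) continuous_const)))
  obtain ⟨κ0, hκ0, H⟩ := ((((k1.prod k1).prod (k2.prod k2)).prod
    (isCompact_closedBall (0 : ℂ) N)).inter_right hZ).exists_forall_le'
    (f := fun q => ‖q.1.1.1 + q.2 - q.1.1.2‖ + ‖q.1.1.1 + (1 - s + t * I) * q.2 - q.1.2.1‖ +
      ‖q.1.1.1 + (s + t * I) * q.2 - q.1.2.2‖) (by fun_prop) (a := 0) (by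
      rintro ⟨⟨⟨q1, q2⟩, q3, q4⟩, w⟩ ⟨⟨⟨⟨h1, h2⟩, h3, h4⟩, -⟩, h5⟩
      by_contra hc
      simp only [not_lt] at hc
      have n1 := norm_nonneg (q1 + w - q2)
      have n2 := norm_nonneg (q1 + (1 - s + t * I) * w - q3)
      have n3 := norm_nonneg (q1 + (s + t * I) * w - q4)
      obtain ⟨a1, a2, a3⟩ := hsq q1 w h1.1
        (by rw [sub_eq_zero.1 (norm_eq_zero.1 (le_antisymm (by linarith) n1))]; exact h2.1)
        (by rw [sub_eq_zero.1 (norm_eq_zero.1 (le_antisymm (by linarith) n2))]; exact h3.1)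
        (by rw [sub_eq_zero.1 (norm_eq_zero.1 (le_antisymm (by linarith) n3))]; exact h4.1)
      simp only [mem_ofPred_eq, a1, a2, norm_zero, abs_zero] at h5
      rcases h5 with h5 | h5 | h5
      · linarith
      · linarith
      · rcases a3 with a3 | a3 <;> linarith [h5.1, h5.2])
  refine ⟨min (min 1 (r / 2)) (min (r * t / 3) (κ0 / 20)), by positivity, ?_⟩
  intro q1 h1 q2 h2 q3 h3 q4 h4 d x a b hd ⟨e1, e2, e3, e4, e5, e6, e7⟩
  set κ := min (min 1 (r / 2)) (min (r * t / 3) (κ0 / 20))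
  have g1 : κ ≤ 1 := (min_le_left _ _).trans (min_le_left _ _)
  have g2 : κ ≤ r / 2 := (min_le_left _ _).trans (min_le_right _ _)
  have g3 : κ ≤ r * t / 3 := (min_le_right _ _).trans (min_le_left _ _)
  have g4 : κ ≤ κ0 / 20 := (min_le_right _ _).trans (min_le_right _ _)
  have m1 := hM q1 (Or.inl h1)
  have m2 := hM q2 (Or.inl h2)
  have m3 := hM q3 (Or.inr h3)
  have m4 := hM q4 (Or.inr h4)
  have hM' := le_abs_self M
  have i1 := abs_le.1 m1.1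
  have i2 := abs_le.1 m2.1
  have i3 := abs_le.1 m3.1
  have i4 := abs_le.1 m4.1
  have sm : ∀ y : ℝ, |s * y| ≤ |y| ∧ |(1 - s) * y| ≤ |y| := fun y => by
    rw [abs_mul, abs_mul, abs_of_nonneg hs, abs_of_nonneg (sub_nonneg.2 hs1)]
    constructor <;> nlinarith [abs_nonneg y]
  have ta : |t * a| = t * |a| := by rw [abs_mul, abs_of_pos ht]
  rw [abs_le] at e1 e2 e3 e4 e5 e6 e7 hd
  have bb : |b| ≤ 2 * |M| + 2 := abs_le.2 ⟨by linarith, by linarith⟩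
  have sb := abs_le.1 (sm b).1
  have ba : |a| ≤ (4 * |M| + 3) / t := by
    rw [le_div_iff₀ ht, mul_comm, ← ta]
    exact abs_le.2 ⟨by linarith, by linarith⟩
  have tb : |t * b| ≤ t * (2 * |M| + 2) := by
    rw [abs_mul, abs_of_pos ht]; gcongr
  have o1 := abs_le.1 ba
  have o2 := abs_le.1 ((sm a).1.trans ba)
  have o3 := abs_le.1 ((sm a).2.trans ba)
  have o4 := abs_le.1 tb
  have far : q1.im = 0 → q2.im = 0 → q3.im = 0 → |a| ≤ r ∧ |b| ≤ r ∧ |q1.im| ≤ r := by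
    intro j1 j2 j3
    have b1 : |b| ≤ 2 * κ := abs_le.2 ⟨by linarith, by linarith⟩
    refine ⟨le_of_mul_le_mul_left ?_ ht, by linarith, by simp [j1, hr.le]⟩
    rw [← ta]
    exact abs_le.2 ⟨by linarith, by linarith⟩
  by_cases hx : x < -(N + 1)
  · obtain ⟨j1, j2, j3⟩ := far (m1.2 (Or.inl (by linarith))) (m2.2 (Or.inl (by linarith)))
      (m3.2 (Or.inl (by linarith)))
    exact ⟨j1, j2, j3, Or.inl (by linarith)⟩
  by_cases hx' : N + 2 < x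
  · obtain ⟨j1, j2, j3⟩ := far (m1.2 (Or.inr (by linarith))) (m2.2 (Or.inr (by linarith)))
      (m3.2 (Or.inr (by linarith)))
    exact ⟨j1, j2, j3, Or.inr (by linarith)⟩
  have hb : ∀ q : ℂ, |q.re| ≤ 2 * N + 4 → |q.im| ≤ M → q ∈ Metric.closedBall (0 : ℂ) L := by
    intro q a1 a2
    rw [mem_closedBall_zero_iff]
    linarith [norm_le_abs_re_add_abs_im q]
  have hn : ∀ z : ℂ, |z.re| ≤ 2 * κ → |z.im| ≤ 3 * κ → ‖z‖ ≤ 5 * κ := fun z a1 a2 => by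
    linarith [norm_le_abs_re_add_abs_im z]
  have hgood : ¬ (r ≤ ‖(⟨a, b⟩ : ℂ)‖ ∨ r ≤ |q1.im| ∨ (r ≤ q1.re ∧ q1.re ≤ 1 - r)) := by
    intro hbad
    have := H (((q1, q2), (q3, q4)), ⟨a, b⟩)
      ⟨⟨⟨⟨⟨h1, hb _ (abs_le.2 ⟨by linarith, by linarith⟩) m1.1⟩,
        ⟨h2, hb _ (abs_le.2 ⟨by linarith, by linarith⟩) m2.1⟩⟩,
        ⟨h3, hb _ (abs_le.2 ⟨by linarith, by linarith⟩) m3.1⟩,
        ⟨h4, hb _ (abs_le.2 ⟨by linarith, by linarith⟩) m4.1⟩⟩, by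
          rw [mem_closedBall_zero_iff]
          linarith [norm_le_abs_re_add_abs_im ⟨a, b⟩]⟩, hbad⟩
    have n1 := hn (q1 + ⟨a, b⟩ - q2) (by simp; rw [abs_le]; constructor <;> linarith)
      (by simp; rw [abs_le]; constructor <;> linarith)
    have n2 := hn (q1 + (1 - s + t * I) * ⟨a, b⟩ - q3)
      (by simp; rw [abs_le]; constructor <;> linarith)
      (by simp; rw [abs_le]; constructor <;> linarith)
    have n3 := hn (q1 + (s + t * I) * ⟨a, b⟩ - q4)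
      (by simp; rw [abs_le]; constructor <;> linarith)
      (by simp; rw [abs_le]; constructor <;> linarith)
    simp only at this
    linarith
  push Not at hgood
  obtain ⟨b1, b2, b3⟩ := hgood
  refine ⟨(abs_re_le_norm ⟨a, b⟩).trans b1.le, (abs_im_le_norm ⟨a, b⟩).trans b1.le, b2.le, ?_⟩
  by_cases h : r ≤ q1.re
  · exact Or.inr (b3 h).le
  · exact Or.inl (not_le.1 h).le

lemma ATr.near {s t η κ δ d x a b : ℝ} {p1 p2 p3 p4 q1 q2 q3 q4 : ℂ}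
    (h : ATr s t η d x a b p1 p2 p3 p4)
    (h1 : ‖p1 - q1‖ ≤ δ) (h2 : ‖p2 - q2‖ ≤ δ) (h3 : ‖p3 - q3‖ ≤ δ) (h4 : ‖p4 - q4‖ ≤ δ)
    (hκ : η + 4 * δ ≤ κ) : ATr s t κ d x a b q1 q2 q3 q4 := by
  obtain ⟨e1, e2, e3, e4, e5, e6, e7⟩ := h
  have hδ : 0 ≤ δ := (norm_nonneg _).trans h1
  have a1 := (abs_re_le_norm _).trans h1
  have a2 := (abs_re_le_norm _).trans h2
  have a3 := (abs_re_le_norm _).trans h3
  have a4 := (abs_re_le_norm _).trans h4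
  have b1 := (abs_im_le_norm _).trans h1
  have b2 := (abs_im_le_norm _).trans h2
  have b3 := (abs_im_le_norm _).trans h3
  have b4 := (abs_im_le_norm _).trans h4
  simp only [sub_re, sub_im] at a1 a2 a3 a4 b1 b2 b3 b4
  rw [abs_le] at *
  refine ⟨abs_le.2 ⟨?_, ?_⟩, abs_le.2 ⟨?_, ?_⟩, abs_le.2 ⟨?_, ?_⟩, abs_le.2 ⟨?_, ?_⟩,
    abs_le.2 ⟨?_, ?_⟩, abs_le.2 ⟨?_, ?_⟩, abs_le.2 ⟨?_, ?_⟩⟩ <;> linarith

end Pool.Agent.Lib.MP_9488bf_co.H8
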