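import Pool.Agent.Lib.MP_9488bf_co.H8Corner

/-! Two arcs whose common end points see the curve under a small angle. -/

namespace Pool.Agent.Lib.MP_9488bf_co.H8

open Set Filter Topology Complex Pool.Agent.Lib.MP_5a3ebe_gt Pool.Agent.Lib.MP_5a3ebe_gt.H46

theorem core {s t c : ℝ} (hs : 0 ≤ s) (hs1 : 2 * s < 1) (ht : 0 < t) (hc : 0 ≤ c) (hc1 : c < 1)
    (hcs : s ≤ c * ‖(s + t * I : ℂ)‖) {σ1 σ2 : ℝ → ℂ} (c1 : Continuous σ1) (c2 : Continuous σ2)
    (i1 : InjOn σ1 (Icc 0 1)) (i2 : InjOn σ2 (Icc 0 1)) (s0 : σ1 0 = 0) (s1 : σ1 1 = 1)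
    (t0 : σ2 0 = 0) (t1 : σ2 1 = 1)
    (hdisj : ∀ p ∈ σ1 '' Icc 0 1, p ∈ σ2 '' Icc 0 1 → p = 0 ∨ p = 1) {J : Set ℂ}
    (j1 : σ1 '' Icc 0 1 ⊆ J) (j2 : σ2 '' Icc 0 1 ⊆ J)
    (hA : ∀ p ∈ J, ∀ q ∈ J, c * (‖p‖ * ‖q‖) ≤ inner ℝ p q)
    (hB : ∀ p ∈ J, ∀ q ∈ J, c * (‖p - 1‖ * ‖q - 1‖) ≤ inner ℝ (p - 1) (q - 1))
    (T01 : Tame0 σ1) (T11 : Tame1 σ1) (T02 : Tame0 σ2) (T12 : Tame1 σ2) :
    ∃ z w : ℂ, w ≠ 0 ∧ z ∈ J ∧ z + w ∈ J ∧ z + (1 - s + t * I) * w ∈ J ∧
      z + (s + t * I) * w ∈ J := by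
  by_contra hno
  push Not at hno
  have hs2 : 0 < 1 - 2 * s := by linarith
  obtain ⟨k, hk, hks⟩ : ∃ k : ℝ, 0 < k ∧ k * (1 - 2 * s) = 1 :=
    ⟨_, inv_pos.2 hs2, inv_mul_cancel₀ hs2.ne'⟩
  have h0 : (0 : ℂ) ∈ J := j1 ⟨0, ⟨le_rfl, zero_le_one⟩, s0⟩
  have h1 : (1 : ℂ) ∈ J := j1 ⟨1, ⟨zero_le_one, le_rfl⟩, s1⟩
  have hre : ∀ p ∈ J, 0 ≤ p.re ∧ p.re ≤ 1 := fun p hp =>
    ⟨by simpa [inner_eq] using le_trans (by positivity) (hA p hp 1 h1),
      by
        have := le_trans (by positivity) (hB p hp 0 h0)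
        simp only [inner_eq, sub_re, sub_im, one_re, one_im, zero_re, zero_im] at this
        linarith⟩
  have hK : ∀ p ∈ Kset σ1 ∪ Kset σ2, (p.im = 0 ∧ p.re ≤ 0) ∨ p ∈ J ∨ (p.im = 0 ∧ 1 ≤ p.re) := by
    rintro p (hp | hp)
    · exact hp.imp_right (Or.imp_left fun h => j1 h)
    · exact hp.imp_right (Or.imp_left fun h => j2 h)
  obtain ⟨M, hM⟩ := ((isCompact_Icc (a := (0 : ℝ)) (b := 1)).image c1).union
    (isCompact_Icc.image c2) |>.isBounded.exists_norm_le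
  have hM0 : 0 ≤ M := by simpa [s0] using hM (σ1 0) (Or.inl ⟨0, ⟨le_rfl, zero_le_one⟩, rfl⟩)
  have hsq := fun r hr => approx_tr hs (by linarith) ht (isClosed_Kset c1) (isClosed_Kset c2) (M := M) (r := r)
    (fun p hp => ⟨by
      rcases hp with (hp | hp | hp) | (hp | hp | hp)
      · simpa [hp.1] using hM0
      · exact (abs_im_le_norm p).trans (hM p (Or.inl hp))
      · simpa [hp.1] using hM0
      · simpa [hp.1] using hM0
      · exact (abs_im_le_norm p).trans (hM p (Or.inr hp))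
      · simpa [hp.1] using hM0, fun h => by
      rcases hK p hp with a | a | a
      · exact a.1
      · have := hre p a
        rcases h with h | h <;> linarith
      · exact a.1⟩)
    (fun z w a1 a2 a3 a4 => by
      have hw : w = 0 := by
        by_contra hw
        have hv : ∀ (r : ℝ) (α p : ℂ), r ≠ 0 → |α.re| = s → |α.im| = t → p ∈ Kset σ1 ∪ Kset σ2 →
            p + r * w ∈ Kset σ1 ∪ Kset σ2 → p + α * w ∈ Kset σ1 ∪ Kset σ2 → p ∈ J := by
          intro r α p hr h2 h3 n1 n2 n3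
          have n4 : ∀ p ∈ Kset σ1 ∪ Kset σ2, p.im = 0 ∨ p ∈ J := fun p hp => by
            rcases hK p hp with a | a | a
            exacts [Or.inl a.1, Or.inr a, Or.inl a.1]
          have n5 : ‖α‖ = ‖(s + t * I : ℂ)‖ := by
            rw [norm_eq_sqrt_sq_add_sq, norm_eq_sqrt_sq_add_sq, ← sq_abs α.re, ← sq_abs α.im, h2, h3]
            simp
          refine corner hc hc1 hA hB h0 h1 (mul_ne_zero (ofReal_ne_zero.2 hr) hw)
            (mul_ne_zero ?_ hw) (vert (by rwa [h2, n5]) w) (hK p n1) (n4 _ n2) (n4 _ n3)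
          rintro rfl
          simp only [zero_im, abs_zero] at h3
          exact ht.ne h3
        have u2 := ht.le
        refine hno z w hw (hv 1 (s + t * I) _ one_ne_zero (by simpa) (by simpa) (Or.inl a1)
            (Or.inl (by simpa using a2)) (Or.inr a4))
          (hv (-1) (-s + t * I) _ (by norm_num) (by simpa) (by simpa) (Or.inl a2)
            (Or.inl (by simpa using a1)) (Or.inr (by convert a3 using 1; ring)))
          (hv (2 * s - 1) (s - t * I) _ (by linarith) (by simpa) (by simpa) (Or.inr a3)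
            (Or.inr (by convert a4 using 1; push_cast; ring)) (Or.inl (by convert a2 using 1; ring)))
          (hv (1 - 2 * s) (-s - t * I) _ (by linarith) (by simpa) (by simpa) (Or.inr a4)
            (Or.inr (by convert a3 using 1; push_cast; ring)) (Or.inl (by convert a1 using 1; ring)))
      refine ⟨hw, ?_⟩
      rw [hw, mul_zero, add_zero] at a4
      rcases a1 with a1 | a1 | a1
      · exact ⟨a1.1, Or.inl a1.2⟩
      · rcases a4 with a4 | a4 | a4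
        · exact ⟨a4.1, Or.inl a4.2⟩
        · rcases hdisj z a1 a4 with rfl | rfl <;> simp
        · exact ⟨a4.1, Or.inr a4.2⟩
      · exact ⟨a1.1, Or.inr a1.2⟩) hr
  obtain ⟨κ0, hκ0, H0⟩ := hsq (1 / 5) (by norm_num)
  let φ : ContDiffBump (1 / 2 : ℝ) := ⟨1 / 12, 1 / 6, by norm_num, by norm_num⟩
  obtain ⟨hφ, C, hC⟩ := UC1.of_compact (φ.contDiff (n := 1)) (φ.hasCompactSupport.fderiv ℝ)
  have hC0 : 0 ≤ C := (norm_nonneg _).trans (hC 0)
  set H := κ0 / (C + 1) with hH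
  have hH0 : 0 < H := by positivity
  have hder : ∀ x, deriv (fun x => H * φ x) x = H * deriv φ x := fun x => deriv_const_mul _ (hφ.1 x)
  have hd1 : ∀ x, |deriv (fun x => H * φ x) x| ≤ κ0 := by
    intro x
    rw [hder, abs_mul, abs_of_pos hH0, ← Real.norm_eq_abs, norm_deriv_eq_norm_fderiv]
    have : H * (C + 1) = κ0 := by rw [hH]; field_simp
    nlinarith [hC x]
  have hd2 : ∀ x : ℝ, (x ≤ 1 / 4 ∨ 3 / 4 ≤ x) → φ x = 0 ∧ deriv φ x = 0 := by
    intro x hx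
    have : (φ : ℝ → ℝ) =ᶠ[𝓝 x] fun _ => 0 := by
      have h2 : {y : ℝ | 1 / 6 < dist y (1 / 2)} ∈ 𝓝 x := by
        refine (isOpen_lt continuous_const (by fun_prop)).mem_nhds ?_
        rw [mem_ofPred_eq, Real.dist_eq, lt_abs]
        rcases hx with hx | hx
        · right; linarith
        · left; linarith
      filter_upwards [h2] with y hy using φ.zero_of_le_dist (le_of_lt hy)
    exact ⟨this.self_of_nhds, by rw [this.deriv_eq]; simp⟩
  obtain ⟨r1, hr1, R1⟩ := exists_lift c1 i1 s0 s1 (fun u hu => hre _ (j1 ⟨u, hu, rfl⟩)) T01 T11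
    (ε := H / 20) (by positivity)
  obtain ⟨r2, hr2, R2⟩ := exists_lift c2 i2 t0 t1 (fun u hu => hre _ (j2 ⟨u, hu, rfl⟩)) T02 T12
    (ε := H / 20 * (1 - 2 * s)) (by positivity)
  set r := min (min (r1 / 10) (r2 / (10 * (1 + t)))) (min (1 / 20) (H / t)) with hr
  have hr0 : 0 < r := by positivity
  have g1 : r ≤ r1 / 10 := (min_le_left _ _).trans (min_le_left _ _)
  have g2 : r * (10 * (1 + t)) ≤ r2 :=
    (le_div_iff₀ (by positivity)).1 ((min_le_left _ _).trans (min_le_right _ _))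
  have g3 : r ≤ 1 / 20 := (min_le_right _ _).trans (min_le_left _ _)
  have g4 : r * t ≤ H := (le_div_iff₀ ht).1 ((min_le_right _ _).trans (min_le_right _ _))
  obtain ⟨κ1, hκ1, H1⟩ := hsq r hr0
  set κ := min (min κ0 κ1) r with hκ
  have hκ' : 0 < κ := by positivity
  have k1 : κ ≤ κ0 := (min_le_left _ _).trans (min_le_left _ _)
  have k2 : κ ≤ κ1 := (min_le_left _ _).trans (min_le_right _ _)
  have k3 : κ ≤ r := min_le_right _ _
  obtain ⟨Λ1, z1, G1, L1⟩ := R1 (κ / 8) (by positivity)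
  obtain ⟨Λ2, z2, G2, L2⟩ := R2 (κ / 8) (by positivity)
  have small : ∀ p1 ∈ Λ1, ∀ p2 ∈ Λ1, ∀ p3 ∈ Λ2, ∀ p4 ∈ Λ2, ∀ x a b : ℝ,
      ATr s t (κ / 2) 0 x a b p1.1 p2.1 p3.1 p4.1 →
        |p1.2 - p2.2 + k * p3.2 - k * p4.2 + t * ((b * b - a * a) / 2)| ≤ H / 4 := by
    intro p1 h1 p2 h2 p3 h3 p4 h4 x a b hs
    obtain ⟨⟨q1, a1, b1⟩, l1, u1⟩ := L1 p1 h1
    obtain ⟨⟨q2, a2, b2⟩, l2, u2⟩ := L1 p2 h2
    obtain ⟨⟨q3, a3, b3⟩, l3, u3⟩ := L2 p3 h3
    obtain ⟨⟨q4, a4, b4⟩, l4, u4⟩ := L2 p4 h4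
    obtain ⟨f1, f2, f3, f4⟩ := H1 q1 a1 q2 a2 q3 a3 q4 a4 0 x a b (by simpa using hκ1.le)
      (hs.near b1 b2 b3 b4 (by linarith))
    obtain ⟨e1, e2, e3, e4, e5, e6, e7⟩ := hs
    have f5 := (abs_re_le_norm _).trans b1
    have f6 := (abs_im_le_norm _).trans b1
    rw [sub_re] at f5
    rw [sub_im] at f6
    have f7 : a * a ≤ r * r := by rw [← abs_mul_abs_self a]; gcongr
    have f8 : b * b ≤ r * r := by rw [← abs_mul_abs_self b]; gcongr
    have f9 : |t * ((b * b - a * a) / 2)| ≤ H / 20 := by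
      rw [abs_mul, abs_of_pos ht]
      have f10 : r * r ≤ r * (1 / 20) := by gcongr
      have : |(b * b - a * a) / 2| ≤ r / 20 :=
        abs_le.2 ⟨by linarith [mul_self_nonneg b], by linarith [mul_self_nonneg a]⟩
      linarith [mul_le_mul_of_nonneg_left this ht.le]
    have sm : ∀ y : ℝ, |y| ≤ r → |s * y| ≤ r ∧ |t * y| ≤ r * t := fun y hy => by
      rw [abs_mul, abs_mul, abs_of_nonneg hs, abs_of_pos ht]
      exact ⟨(mul_le_of_le_one_left (abs_nonneg y) (by linarith)).trans hy,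
        by rw [mul_comm]; gcongr⟩
    have w1 := abs_le.1 (sm a f1).1
    have w2 := abs_le.1 (sm a f1).2
    have w3 := abs_le.1 (sm b f2).1
    have w4 := abs_le.1 (sm b f2).2
    have w5 : 0 ≤ r * t := by positivity
    rw [abs_le] at e1 e2 e3 e4 e5 e6 e7 f1 f2 f3 f5 f6 f9
    have n1 : |p1.1.im| ≤ r1 := abs_le.2 ⟨by linarith, by linarith⟩
    have n2 : |p2.1.im| ≤ r1 := abs_le.2 ⟨by linarith, by linarith⟩
    have n3 : |p3.1.im| ≤ r2 := abs_le.2 ⟨by linarith, by linarith⟩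
    have n4 : |p4.1.im| ≤ r2 := abs_le.2 ⟨by linarith, by linarith⟩
    have sc : ∀ y : ℝ, |y| ≤ H / 20 * (1 - 2 * s) → |k * y| ≤ H / 20 := fun y hy => by
      rw [abs_mul, abs_of_pos hk]
      refine (mul_le_mul_of_nonneg_left hy hk.le).trans (le_of_eq ?_)
      linear_combination H / 20 * hks
    rcases f4 with f4 | f4
    · have v1 := abs_le.1 (l1 (by linarith) n1)
      have v2 := abs_le.1 (l2 (by linarith) n2)
      have v3 := abs_le.1 (sc _ (l3 (by linarith) n3))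
      have v4 := abs_le.1 (sc _ (l4 (by linarith) n4))
      exact abs_le.2 ⟨by linarith, by linarith⟩
    · have v1 := abs_le.1 (u1 (by linarith) n1)
      have v2 := abs_le.1 (u2 (by linarith) n2)
      have v3 := abs_le.1 (sc _ (u3 (by linarith) n3))
      have v4 := abs_le.1 (sc _ (u4 (by linarith) n4))
      exact abs_le.2 ⟨by linarith, by linarith⟩
  have := link hs ht hk hks G1 G1 G2 G2 (hφ.const_mul H) (B := H) (fun x => by nlinarith [φ.le_one (x := x)])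
    (ε := H / 4) (η := κ / 2) (by positivity) ?_
    (fun p1 h1 p2 h2 p3 h3 p4 h4 x a b hs => (abs_le.1 (small p1 h1 p2 h2 p3 h3 p4 h4 x a b hs)).1)
    (1 / 2)
  · rw [φ.one_of_mem_closedBall (Metric.mem_closedBall_self (by norm_num [φ]))] at this
    linarith
  · intro p1 h1 p2 h2 p3 h3 p4 h4 x a b hs
    obtain ⟨⟨q1, a1, b1⟩, -⟩ := L1 p1 h1
    obtain ⟨⟨q2, a2, b2⟩, -⟩ := L1 p2 h2
    obtain ⟨⟨q3, a3, b3⟩, -⟩ := L2 p3 h3
    obtain ⟨⟨q4, a4, b4⟩, -⟩ := L2 p4 h4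
    obtain ⟨-, -, -, f4⟩ := H0 q1 a1 q2 a2 q3 a3 q4 a4 _ x a b (hd1 x)
      (hs.near b1 b2 b3 b4 (by linarith))
    have f5 := abs_le.1 (hs.near b1 b2 b3 b4 (κ := κ) (by linarith)).1
    obtain ⟨f6, f7⟩ := hd2 x (f4.imp (fun h => by linarith) fun h => by linarith)
    rw [hder, f7, mul_zero] at hs
    rw [f6, mul_zero, add_zero]
    exact (abs_le.1 (small p1 h1 p2 h2 p3 h3 p4 h4 x a b hs)).2

theorem acute {σ τ k : ℝ} (hs : 0 ≤ σ) (hs1 : 2 * σ < 1) (ht : 0 < τ) (hk : 0 ≤ k) (hk1 : k < 1)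
    (hks : σ ≤ k * ‖(σ + τ * I : ℂ)‖) {γ : Circle → ℂ} (hγ : Continuous γ) (hi : Function.Injective γ) {a b : ℝ}
    (hab : a < b) (hba : b < a + 2 * Real.pi)
    (hA : ∀ s t, k * (‖γ s - γ (Circle.exp a)‖ * ‖γ t - γ (Circle.exp a)‖) ≤
      inner ℝ (γ s - γ (Circle.exp a)) (γ t - γ (Circle.exp a)))
    (hB : ∀ s t, k * (‖γ s - γ (Circle.exp b)‖ * ‖γ t - γ (Circle.exp b)‖) ≤
      inner ℝ (γ s - γ (Circle.exp b)) (γ t - γ (Circle.exp b)))
    (ta : SmallAreaAt (fun θ => γ (Circle.exp θ)) a)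
    (tb : SmallAreaAt (fun θ => γ (Circle.exp θ)) b) :
    ∃ z w : ℂ, w ≠ 0 ∧ z ∈ range γ ∧ z + w ∈ range γ ∧ z + (1 - σ + τ * I) * w ∈ range γ ∧
      z + (σ + τ * I) * w ∈ range γ := by
  set c : ℝ → ℂ := fun θ => γ (Circle.exp θ) with hc
  have hcc : Continuous c := hγ.comp Circle.exp.continuous
  have hT : ∀ s, c (s + 2 * Real.pi) = c s := fun s => by simp only [hc, Circle.exp_add_two_pi]
  have hinj : ∀ s t, c s = c t → |s - t| < 2 * Real.pi → s = t := by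
    intro s t e h
    obtain ⟨m, hm⟩ := Circle.exp_eq_exp.1 (hi e)
    have hpi := Real.pi_pos
    rw [hm, add_sub_cancel_left, abs_mul, abs_of_pos (by linarith : 0 < 2 * Real.pi)] at h
    have : |(m : ℝ)| < 1 := by nlinarith
    have : m = 0 := Int.abs_lt_one_iff.1 (by exact_mod_cast this)
    simp [hm, this]
  have hD : c b - c a ≠ 0 := sub_ne_zero.2 fun e =>
    hab.ne' (hinj _ _ e (abs_lt.2 ⟨by linarith [Real.pi_pos], by linarith⟩))
  have eb : c (b - 2 * Real.pi) = c b := by rw [← hT, sub_add_cancel]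
  have T1 := arc_tame hcc ta tb hD
  have T2 := arc_tame hcc ta (smallArea_shift hT tb) (by rwa [eb])
  rw [eb] at T2
  set D := c b - c a with hDdef
  have hinner : ∀ u v : ℂ, k * (‖u‖ * ‖v‖) ≤ inner ℝ u v →
      k * (‖u / D‖ * ‖v / D‖) ≤ inner ℝ (u / D) (v / D) := by
    intro u v h
    rw [div_eq_mul_inv, div_eq_mul_inv, inner_mul_mul, norm_mul, norm_mul]
    have := mul_le_mul_of_nonneg_right h (mul_self_nonneg ‖D⁻¹‖)
    linarith
  have arc_inj : ∀ L : ℝ, L ≠ 0 → |L| < 2 * Real.pi →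
      InjOn (fun s => (c (a + s * L) - c a) / D) (Icc 0 1) := by
    intro L hL hL' s hs t ht e
    simp only at e
    rw [div_left_inj' hD, sub_left_inj] at e
    have := hinj _ _ e (by
      rw [add_sub_add_left_eq_sub, ← sub_mul, abs_mul]
      have : |s - t| ≤ 1 := abs_le.2 ⟨by linarith [hs.1, ht.2], by linarith [hs.2, ht.1]⟩
      nlinarith [abs_nonneg L])
    exact mul_right_cancel₀ hL (add_left_cancel this)
  obtain ⟨z, w, hw, h1, h2, h3, h4⟩ := core hs hs1 ht hk hk1 hks (J := range fun s => (γ s - c a) / D)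
    (by fun_prop) (by fun_prop)
    (arc_inj (b - a) (by linarith) (abs_lt.2 ⟨by linarith [Real.pi_pos], by linarith⟩))
    (arc_inj (b - 2 * Real.pi - a) (by linarith) (abs_lt.2 ⟨by linarith, by linarith [Real.pi_pos]⟩))
    (by simp) (by simp [← hDdef, hD]) (by simp) (by simp [eb, ← hDdef, hD])
    (by
      rintro _ ⟨s, hs, rfl⟩ ⟨t, ht, e⟩
      simp only at e ⊢
      rw [div_left_inj' hD, sub_left_inj] at e
      rcases eq_or_lt_of_le hs.1 with rfl | h0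
      · left; simp
      rcases eq_or_lt_of_le hs.2 with rfl | h1
      · right; simp [← hDdef, hD]
      exfalso
      have a1 : 0 < s * (b - a) := mul_pos h0 (by linarith)
      have a2 : s * (b - a) < b - a := by nlinarith
      have a3 : t * (b - 2 * Real.pi - a) ≤ 0 := by nlinarith [ht.1]
      have a4 : b - 2 * Real.pi - a ≤ t * (b - 2 * Real.pi - a) := by nlinarith [ht.2]
      have := hinj _ _ e (abs_lt.2 ⟨by linarith, by linarith [Real.pi_pos]⟩)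
      linarith)
    (by rintro _ ⟨s, -, rfl⟩; exact ⟨_, rfl⟩) (by rintro _ ⟨s, -, rfl⟩; exact ⟨_, rfl⟩)
    (by rintro _ ⟨s, rfl⟩ _ ⟨t, rfl⟩; exact hinner _ _ (hA s t))
    (by
      rintro _ ⟨s, rfl⟩ _ ⟨t, rfl⟩
      have e : ∀ s, (γ s - c b) / D = (γ s - c a) / D - 1 := fun s => by
        field_simp; rw [hDdef]; ring
      have := hinner _ _ (hB s t)
      rwa [e, e] at this)
    T1.1 T1.2 T2.1 T2.2
  have key : ∀ p, p ∈ (range fun s => (γ s - c a) / D) → c a + D * p ∈ range γ := by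
    rintro _ ⟨s, rfl⟩
    exact ⟨s, by field_simp; ring⟩
  refine ⟨c a + D * z, D * w, mul_ne_zero hD hw, key _ h1, ?_, ?_, ?_⟩
  · convert key _ h2 using 1; ring
  · convert key _ h3 using 1; ring
  · convert key _ h4 using 1; ring

end Pool.Agent.Lib.MP_9488bf_co.H8
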