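import Pool.Agent.Lib.MP_5a3ebe_gt.ApSixC

/-! The test cycle and the test cochain for rectangles: levels. -/

set_option linter.unusedSectionVars false

namespace Pool.Agent.Lib.MP_9488bf_co.Rc

open Classical Matrix Function Pool.Agent.Lib.MP_5a3ebe_gt.Ap

variable {G : Type} [Fintype G] [DecidableEq G]

noncomputable def qq (t s a b : ℝ) : ℝ := t * (a + b) ^ 2 / 8 - s * (a - b) ^ 2 / 8

noncomputable def qr (t s K x1 x2 x3 x4 : ℝ) : ℝ :=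
  qq t s (x1 - x3) (x2 - x4) - K * (x1 - x2 + x3 - x4) ^ 2 / 2

/-- The level of a quadruple in degree two. -/
noncomputable def lvr (S : RS G) (t s h K : ℝ) (σ : Fin 4 → G) : ℝ :=
  S.lam (σ 0) - S.lam (σ 1) + S.lam (σ 2) - S.lam (σ 3) +
    qr t s K (h * S.w (σ 0)) (h * S.w (σ 1)) (h * S.w (σ 2)) (h * S.w (σ 3)) + 2 * S.a

def OKr (S : RS G) (t s h B c : ℝ) (φ ψ : Matrix G G F2) : Prop :=
  ∀ g4 g g2 g3, φ g4 g ≠ 0 → ψ g2 g3 ≠ 0 →
    S.lam g - S.lam g4 + S.lam g3 - S.lam g2 - S.a +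
      qq t s (h * S.w g - h * S.w g3) (h * S.w g2 - h * S.w g4) +
      B * |h * S.w g - h * S.w g2 + h * S.w g3 - h * S.w g4| ≤ -(3 * c)

lemma OKr.symm {S : RS G} {t s h B c φ ψ} (o : OKr S t s h B c φ ψ) : OKr S t s h B c ψ φ := by
  intro g4 g g2 g3 a b
  have := o g2 g3 g4 g b a
  rw [show h * S.w g3 - h * S.w g4 + h * S.w g - h * S.w g2 =
    h * S.w g - h * S.w g2 + h * S.w g3 - h * S.w g4 by ring] at this
  unfold qq at this ⊢
  linarith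

lemma qq_lip {t s R a a' b : ℝ} (ht : 0 < t) (hs : 0 < s) (ha : |a| ≤ 2 * R) (ha' : |a'| ≤ 2 * R)
    (hb : |b| ≤ 2 * R) : qq t s a b ≤ qq t s a' b + (t + s) * R * |a - a'| := by
  obtain ⟨a1, a2⟩ := abs_le.1 ha
  obtain ⟨a3, a4⟩ := abs_le.1 ha'
  obtain ⟨b1, b2⟩ := abs_le.1 hb
  have e : qq t s a b = qq t s a' b +
      (a - a') * (t * ((a + a' + 2 * b) / 8) - s * ((a + a' - 2 * b) / 8)) := by
    unfold qq; ring
  have f : |t * ((a + a' + 2 * b) / 8) - s * ((a + a' - 2 * b) / 8)| ≤ (t + s) * R := by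
    have u1 := mul_le_mul_of_nonneg_left (show (a + a' + 2 * b) / 8 ≤ R by linarith) ht.le
    have u2 := mul_le_mul_of_nonneg_left (show -R ≤ (a + a' + 2 * b) / 8 by linarith) ht.le
    have u3 := mul_le_mul_of_nonneg_left (show (a + a' - 2 * b) / 8 ≤ R by linarith) hs.le
    have u4 := mul_le_mul_of_nonneg_left (show -R ≤ (a + a' - 2 * b) / 8 by linarith) hs.le
    rw [abs_le]
    constructor <;> linarith
  have g : (a - a') * (t * ((a + a' + 2 * b) / 8) - s * ((a + a' - 2 * b) / 8)) ≤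
      |a - a'| * ((t + s) * R) := (le_abs_self _).trans (by rw [abs_mul]; gcongr)
  linarith

lemma tau_ineq {t s R B K x1 x x2 x3 x4 : ℝ} (ht : 0 < t) (hs : 0 < s) (hK : 0 < K) (hR : 0 ≤ R)
    (hB : (1 + t + s) * R ≤ B) (a : |x1 - x3| ≤ 2 * R) (a' : |x - x3| ≤ 2 * R)
    (b : |x2 - x4| ≤ 2 * R) :
    R * |x1 - x| + qr t s K x1 x2 x3 x4 ≤
      qq t s (x - x3) (x2 - x4) + B * |x - x2 + x3 - x4| + B ^ 2 / (2 * K) := by
  have h1 := qq_lip ht hs a a' b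
  rw [show x1 - x3 - (x - x3) = x1 - x by ring] at h1
  have B0 : 0 ≤ B := le_trans (by positivity) hB
  have h2 : |x1 - x| ≤ |x1 - x2 + x3 - x4| + |x - x2 + x3 - x4| := by
    refine le_trans (le_of_eq ?_) (abs_sub _ _)
    congr 1; ring
  have h3 : B * |x1 - x2 + x3 - x4| ≤ K * (x1 - x2 + x3 - x4) ^ 2 / 2 + B ^ 2 / (2 * K) := by
    rw [← sq_abs (x1 - x2 + x3 - x4)]
    generalize |x1 - x2 + x3 - x4| = v
    have : B ^ 2 / (2 * K) = K * (B / K) ^ 2 / 2 := by field_simp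
    have e : B = K * (B / K) := by field_simp
    rw [this]
    generalize B / K = r at e
    rw [e]
    nlinarith [mul_nonneg hK.le (sq_nonneg (v - r))]
  have h4 := mul_le_mul_of_nonneg_right hB (abs_nonneg (x1 - x))
  have h5 := mul_le_mul_of_nonneg_left h2 B0
  unfold qr
  linarith

lemma OKr.lev {S : RS G} {t s h R B K c φ ψ} {τ : Matrix G G F2} (o : OKr S t s h B c φ ψ)
    (ht : 0 < t) (hs : 0 < s) (hh : 0 < h) (hK : 0 < K) (hR : 0 ≤ R) (hB : (1 + t + s) * R ≤ B)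
    (hU : S.U = h * R)
    (mτ : ∀ g g', τ g g' ≠ 0 → S.δ 1 g g' ≤ S.U * |(S.w g' : ℝ) - S.w g|)
    (pos : ∀ g g', h * S.w g - h * S.w g' ≤ 2 * R) (c4 : B ^ 2 / (2 * K) < c) {σ}
    (x : ch (φ * τ) ψ σ ≠ 0) : lvr S t s h K σ < 2 * S.a - 2 * c := by
  obtain ⟨g, v1, v2⟩ := F2.sum_ne (left_ne_zero_of_mul x)
  have a1 := o _ _ _ _ v1 (right_ne_zero_of_mul x)
  have a2 := mτ _ _ v2
  have p : ∀ g g', |h * S.w g - h * S.w g'| ≤ 2 * R := fun g g' =>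
    abs_le.2 ⟨by linarith [pos g' g], pos _ _⟩
  have a3 := tau_ineq (x1 := h * S.w (σ 0)) (x := h * S.w g) (x2 := h * S.w (σ 1))
    (x3 := h * S.w (σ 2)) (x4 := h * S.w (σ 3)) ht hs hK hR hB (p _ _) (p _ _) (p _ _)
  rw [← mul_sub h (S.w (σ 0)) (S.w g), abs_mul, abs_of_pos hh] at a3
  simp only [RS.δ, hU, lvr] at a2 ⊢
  push_cast at a2
  nlinarith

lemma q_near {t s a b r : ℝ} (ht : 0 < t) (hs : 0 < s) (h : |a + b| ≤ r) :
    qq t s a b ≤ t * r ^ 2 / 8 := by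
  have := mul_le_mul_of_nonneg_left (sq_le_sq' (abs_le.1 h).1 (abs_le.1 h).2) ht.le
  have := mul_nonneg hs.le (sq_nonneg (a - b))
  unfold qq
  linarith

lemma q_far {t s a b r ζ : ℝ} (ht : 0 < t) (hs : 0 < s) (h : |a + b| ≤ r) (h1 : ζ ≤ |b|)
    (h2 : r ≤ ζ) : qq t s a b ≤ t * r ^ 2 / 8 - s * ζ ^ 2 / 8 := by
  have := mul_le_mul_of_nonneg_left (sq_le_sq' (abs_le.1 h).1 (abs_le.1 h).2) ht.le
  have r0 : 0 ≤ r := (abs_nonneg _).trans h
  have z : ζ ≤ |a - b| := by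
    have : |2 * b| ≤ |a + b| + |a - b| := by
      refine le_trans (le_of_eq ?_) (abs_sub _ _)
      congr 1; ring
    rw [abs_mul, abs_two] at this
    linarith
  have z2 : ζ ^ 2 ≤ (a - b) ^ 2 := by
    rw [← sq_abs (a - b)]
    exact pow_le_pow_left₀ (by linarith) z 2
  have := mul_le_mul_of_nonneg_left z2 hs.le
  unfold qq
  linarith

lemma q_low {t s a b r : ℝ} (ht : 0 < t) (hs : 0 < s) (h : |a - b| ≤ r) :
    -(s * r ^ 2 / 8) ≤ qq t s a b := by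
  have := mul_le_mul_of_nonneg_left (sq_le_sq' (abs_le.1 h).1 (abs_le.1 h).2) hs.le
  have := mul_nonneg ht.le (sq_nonneg (a + b))
  unfold qq
  linarith

structure SixR (t s h R B K c c0 μ θ : ℝ) (Ω n : ℕ) : Prop where
  ht : 0 < t
  hs : 0 < s
  hh : 0 < h
  hR : 0 ≤ R
  hB : (1 + t + s) * R ≤ B
  hK : 0 < K
  c1 : (R + B) * (h * (2 * n + 2)) + t * (h * (2 * n + 2)) ^ 2 / 8 + 3 * c ≤ c0
  c2 : (R + B) * (h * (2 * n + 2)) + t * (h * (2 * n + 2)) ^ 2 / 8 + 3 * c ≤ s * (h * Ω) ^ 2 / 8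
  c2' : 2 * n + 2 ≤ Ω
  c3 : 2 * h * (R + B) + t * (h * (2 * n + 2)) ^ 2 / 8 + 3 * c ≤ μ * n
  c4 : B ^ 2 / (2 * K) < c
  c5 : 2 * c + 2 * h * R + s * h ^ 2 / 2 + 2 * K * h ^ 2 ≤ c0
  c6 : 2 * c + 2 * h * R + 2 * K * h ^ 2 ≤ 2 * t * (h * Ω) ^ 2
  c7 : θ + 2 * h * R + s * h ^ 2 / 2 + 2 * K * h ^ 2 ≤ 2 * c

section
variable {S : RS G} {t s h R B K c c0 μ θ : ℝ} {Ω n : ℕ} (N : SixR t s h R B K c c0 μ θ Ω n)
  (hU : S.U = h * R)
include N

lemma SixR.B0 : 0 ≤ B := by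
  have := N.ht
  have := N.hs
  have := N.hR
  exact le_trans (by positivity) N.hB

include hU

lemma SixR.fin {g4 g g2 g3 e1 e2 n1 n2 c1 c2} (b1 : S.Bd e1 n1 c1 g4 g) (b2 : S.Bd e2 n2 c2 g2 g3)
    (hn : n1 + n2 ≤ 2 * n + 2) (k : c0 ≤ c1 + c2 + (e1 + e2 + 1 : ℤ) * S.a ∨
      (e1 + e2 = -1 ∧ 0 ≤ c1 + c2 ∧ (S.w g2 + Ω ≤ S.w g4 ∨ S.w g4 + Ω ≤ S.w g2))) :
    S.lam g - S.lam g4 + S.lam g3 - S.lam g2 - S.a +
      qq t s (h * S.w g - h * S.w g3) (h * S.w g2 - h * S.w g4) +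
      B * |h * S.w g - h * S.w g2 + h * S.w g3 - h * S.w g4| ≤ -(3 * c) := by
  obtain ⟨⟨a1, a2⟩, a3⟩ := b1
  obtain ⟨⟨b1, b2⟩, b3⟩ := b2
  have hh := N.hh
  have hR := N.hR
  have t1 := int_abs hh (z := S.w g - S.w g3 + (S.w g2 - S.w g4)) (m := 2 * n + 2) (by omega)
    (by omega)
  have t2 := int_abs hh (z := S.w g - S.w g2 + S.w g3 - S.w g4) (m := 2 * n + 2) (by omega)
    (by omega)
  have hn' : (n1 : ℝ) + n2 ≤ 2 * n + 2 := by exact_mod_cast hn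
  have hn2 := mul_le_mul_of_nonneg_left hn' (mul_nonneg hh.le hR)
  simp only [RS.δ, hU] at a3 b3
  push_cast at t1 t2
  rw [show h * (S.w g - S.w g2 + S.w g3 - S.w g4 : ℝ) =
    h * S.w g - h * S.w g2 + h * S.w g3 - h * S.w g4 by ring] at t2
  rw [show h * (S.w g - S.w g3 + (S.w g2 - S.w g4) : ℝ) =
    h * S.w g - h * S.w g3 + (h * S.w g2 - h * S.w g4) by ring] at t1
  have t3 := mul_le_mul_of_nonneg_left t2 N.B0
  rcases k with k | ⟨k1, k2, k3⟩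
  · have := q_near N.ht N.hs t1
    have := N.c1
    push_cast at k
    linarith
  · have f : h * Ω ≤ |h * S.w g2 - h * S.w g4| := by
      rw [← mul_sub, abs_mul, abs_of_pos hh]
      have : (Ω : ℝ) ≤ |(S.w g2 : ℝ) - S.w g4| := by
        have : (Ω : ℤ) ≤ |S.w g2 - S.w g4| := by rw [le_abs]; omega
        exact_mod_cast this
      gcongr
    have s : h * (2 * n + 2) ≤ h * Ω := by
      have : (2 * n + 2 : ℝ) ≤ Ω := by exact_mod_cast N.c2'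
      gcongr
    have := q_far N.ht N.hs t1 f s
    have := N.c2
    have k1' : (e1 : ℝ) + e2 = -1 := by exact_mod_cast k1
    have : (e1 : ℝ) * S.a + e2 * S.a = -S.a := by rw [← add_mul, k1']; ring
    linarith

lemma SixR.low {σ : Fin 4 → G} {e1 e2 n1 n2 c1 c2} (b1 : S.Bd e1 n1 c1 (σ 0) (σ 1))
    (b2 : S.Bd e2 n2 c2 (σ 2) (σ 3)) (h1 : n1 ≤ 1) (h2 : n2 ≤ 1) :
    c1 + c2 + (e1 + e2 + 2 : ℤ) * S.a - 2 * h * R - 2 * K * h ^ 2 +
      qq t s (h * S.w (σ 0) - h * S.w (σ 2)) (h * S.w (σ 1) - h * S.w (σ 3)) ≤ lvr S t s h K σ ∧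
    -(s * h ^ 2 / 2) ≤ qq t s (h * S.w (σ 0) - h * S.w (σ 2)) (h * S.w (σ 1) - h * S.w (σ 3)) := by
  obtain ⟨⟨a1, a2⟩, a3⟩ := b1
  obtain ⟨⟨b1, b2⟩, b3⟩ := b2
  have hh := N.hh
  have t1 := int_abs hh (z := S.w (σ 0) - S.w (σ 1) + S.w (σ 2) - S.w (σ 3)) (m := 2) (by omega)
    (by omega)
  have t2 := int_abs hh (z := S.w (σ 0) - S.w (σ 2) - (S.w (σ 1) - S.w (σ 3))) (m := 2) (by omega)
    (by omega)
  push_cast at t1 t2
  rw [show h * (S.w (σ 0) - S.w (σ 1) + S.w (σ 2) - S.w (σ 3) : ℝ) =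
    h * S.w (σ 0) - h * S.w (σ 1) + h * S.w (σ 2) - h * S.w (σ 3) by ring] at t1
  rw [show h * (S.w (σ 0) - S.w (σ 2) - (S.w (σ 1) - S.w (σ 3)) : ℝ) =
    h * S.w (σ 0) - h * S.w (σ 2) - (h * S.w (σ 1) - h * S.w (σ 3)) by ring] at t2
  have t3 := mul_le_mul_of_nonneg_left (sq_le_sq' (abs_le.1 t1).1 (abs_le.1 t1).2) N.hK.le
  have t4 := q_low N.ht N.hs t2
  have hU0 := mul_nonneg hh.le N.hR
  have n1' := mul_le_mul_of_nonneg_left ((Nat.cast_le (α := ℝ)).2 h1) hU0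
  have n2' := mul_le_mul_of_nonneg_left ((Nat.cast_le (α := ℝ)).2 h2) hU0
  simp only [RS.δ, hU, lvr, qr] at a3 b3 ⊢
  push_cast at *
  constructor <;> linarith

variable {d τ p0 p1 p2 hL hR rL rR : Matrix G G F2} {bot : G → Prop}
  {sp : G → G → Prop} {π : G → F2} {j0 : ℤ} {Zb Zt : Zone G}
  (H : SixH S d τ p0 p1 p2 hL hR rL rR bot sp π j0 Ω n c0 μ Zb Zt)
include H

lemma SixR.ok1 {φ ψ e1 e2} (b1 : S.BM e1 n 0 φ) (b2 : S.BM e2 n 0 ψ) (e : e1 + e2 = 1) :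
    OKr S t s h B c φ ψ := fun g4 g g2 g3 x y =>
  N.fin hU (b1 _ _ x) (b2 _ _ y) (by omega) (Or.inl (by rw [e]; have := H.ca; push_cast; linarith))

lemma SixR.ok2 {X Y e1 e2} (b1 : S.BM e1 n 0 X) (b2 : S.BM e2 n 0 Y) (e : e1 + e2 = 1) :
    OKr S t s h B c ((p0 + p1) * X) (p2 * Y) := by
  intro g4 g g2 g3 x y
  obtain ⟨u, u1, u2⟩ := F2.sum_ne x
  obtain ⟨v, v1, v2⟩ := F2.sum_ne y
  have hu : S.Bd (-1) 1 0 g4 u ∧ (S.Bd (-1) 1 c0 g4 u ∨ S.w g4 = j0 ∨ S.w g4 = j0 + 2 * Ω) := by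
    rcases F2.add_ne u1 with u1 | u1
    · exact ⟨(H.P0 _ _ u1).1, (H.P0 _ _ u1).2.imp_right fun e => Or.inl (H.sp0 _ _ e).1⟩
    · exact ⟨(H.P1 _ _ u1).1, (H.P1 _ _ u1).2.imp_right fun e => Or.inr e.1⟩
  have e' : -1 + e1 + (-1 + e2) + 1 = 0 := by omega
  obtain ⟨a1, a2 | a2⟩ := hu
  · exact N.fin hU (a2.trans (b1 _ _ u2)) ((H.P2 _ _ v1).1.trans (b2 _ _ v2)) (by omega)
      (Or.inl (by simp [e']))
  obtain ⟨f1, f2 | f2⟩ := H.P2 _ _ v1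
  · exact N.fin hU (a1.trans (b1 _ _ u2)) (f2.trans (b2 _ _ v2)) (by omega)
      (Or.inl (by simp [e']))
  exact N.fin hU (a1.trans (b1 _ _ u2)) (f1.trans (b2 _ _ v2)) (by omega)
    (Or.inr ⟨by omega, by simp, by omega⟩)

lemma SixR.ok3 : OKr S t s h B c p1 (ind (In2 S.w bot j0 Ω)) := by
  intro g4 g g2 g3 x y
  obtain ⟨rfl, y2⟩ := ind_ne y
  obtain ⟨f1, f2 | f2⟩ := H.P1 _ _ x
  · exact N.fin hU f2 (RS.Bd.refl _) (by omega) (Or.inl (by simp))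
  refine N.fin hU f1 (RS.Bd.refl _) (by omega) (Or.inr ⟨by omega, by simp, ?_⟩)
  rcases y2 with y | ⟨-, y⟩ <;> omega

lemma SixR.ok4 :
    OKr S t s h B c p0 (1 + ind (In0 S.w bot j0 Ω) + ind (In2 S.w bot j0 Ω)) := by
  intro g4 g g2 g3 x y
  obtain rfl : g2 = g3 := by
    by_contra e
    simp [ind, e] at y
  obtain ⟨f1, f2 | f2⟩ := H.P0 _ _ x
  · exact N.fin hU f2 (RS.Bd.refl _) (by omega) (Or.inl (by simp))
  refine N.fin hU f1 (RS.Bd.refl _) (by omega) (Or.inr ⟨by omega, by simp, ?_⟩)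
  have := H.sp0 _ _ f2
  by_contra hc
  refine y ?_
  simp only [ind, Matrix.add_apply, one_apply_eq, diagonal_apply_eq, In0, In2]
  by_cases b : bot g2 <;> by_cases o : S.w g2 ≤ j0
  · rw [if_neg (by omega), if_pos (Or.inl o)]; rfl
  · rw [if_pos ⟨b, by omega, by omega⟩, if_neg (by tauto)]; rfl
  · rw [if_neg (by omega), if_pos (Or.inl o)]; rfl
  · rw [if_neg (by tauto), if_pos (Or.inr ⟨b, by omega⟩)]; rfl

lemma SixR.ok5 : OKr S t s h B c (ind (In0 S.w bot j0 Ω) * rL) (p2 * rR) := by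
  intro g4 g g2 g3 x y
  obtain ⟨i0, x⟩ := ind_mul_ne x
  obtain ⟨v, v1, v2⟩ := F2.sum_ne y
  have bL := H.mrL.bm H.U0 _ _ x
  have bR := H.mrR.bm H.U0 _ _ v2
  have mL := H.mrL _ _ x
  have mR := H.mrR _ _ v2
  have nΩ := H.nΩ
  obtain ⟨f1, f2 | f2⟩ := H.P2 _ _ v1
  · exact N.fin hU bL (f2.trans bR) (by omega) (Or.inl (by simp))
  obtain ⟨z1, z2, z3, z4, z5⟩ := H.zb
  obtain ⟨y1, y2, y3, y4, y5⟩ := H.zt
  have wL := H.wL _ _ x
  have wR := H.wR _ _ v2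
  have l1 := mL.lo
  have l2 := mL.hi
  have up : ∀ {ε g g' c}, S.Mv ε 0 n g g' → S.δ 0 g g' ≤ S.U * S.ds ε g g' - c →
      S.Bd 0 n c g g' := fun m e => ⟨m.abs, e.trans (by
    have := mul_le_mul_of_nonneg_left ((Int.cast_le (R := ℝ)).2 m.hi) H.U0
    push_cast at this
    linarith)⟩
  obtain ⟨i1, i2, i3⟩ := i0
  simp only [RS.ds, Bool.false_eq_true, if_false] at l1 l2
  rcases mL.zn Zb z1 (by omega) (by omega) (by omega) (by omega) with a | a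
  · exact N.fin hU (up mL a) (f1.trans bR) (by omega) (Or.inl (by simpa using z5))
  rcases mR.zn Zt y1 (by omega) (by omega) (by omega) (by omega) with b | b
  · exact N.fin hU bL (f1.trans (up mR b)) (by omega) (Or.inl (by simpa using y5))
  have a := a.2 ((z4 _).2 i1)
  have b := b.2 ((y4 _).2 f2.2.2)
  have hh := N.hh
  have hR := N.hR
  have t1 := int_abs hh (z := S.w g - S.w g3 + (S.w g2 - S.w g4)) (m := 2 * n + 2) (by omega)
    (by omega)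
  have t2 := int_abs hh (z := S.w g - S.w g2 + S.w g3 - S.w g4) (m := 2) (by omega)
    (by omega)
  push_cast at t1 t2
  rw [show h * (S.w g - S.w g2 + S.w g3 - S.w g4 : ℝ) =
    h * S.w g - h * S.w g2 + h * S.w g3 - h * S.w g4 by ring] at t2
  rw [show h * (S.w g - S.w g3 + (S.w g2 - S.w g4) : ℝ) =
    h * S.w g - h * S.w g3 + (h * S.w g2 - h * S.w g4) by ring] at t1
  have t3 := mul_le_mul_of_nonneg_left t2 N.B0
  have t4 := q_near N.ht N.hs t1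
  have f3 := f1.2
  have mb := H.mb
  have mm := mul_le_mul_of_nonneg_right H.mm (Nat.cast_nonneg (α := ℝ) n)
  have c3 := N.c3
  have a' : S.δ 0 g4 g ≤ Zb.m false * n + S.U := by
    have : S.ds false g4 g = n ∨ S.ds false g4 g = n - 1 := by
      simp only [RS.ds, Bool.false_eq_true, if_false]; omega
    have u0 := H.U0
    rcases this with e | e <;> rw [e] at a <;> push_cast at a <;> linarith
  have : S.ds true v g3 = n := by simp [RS.ds, wR]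
  rw [this] at b
  simp only [RS.δ, hU] at a' b f3
  push_cast at a' b f3
  linarith

lemma SixR.levZ (pos : ∀ g g', h * S.w g - h * S.w g' ≤ 2 * R) {σ}
    (x : sixZ τ (ind (In0 S.w bot j0 Ω)) (1 + ind (In0 S.w bot j0 Ω) +
      ind (In2 S.w bot j0 Ω)) (ind (In2 S.w bot j0 Ω)) p0 p1 p2 hL hR rL rR σ ≠ 0) :
    lvr S t s h K σ < 2 * S.a - 2 * c := by
  have bhL := H.mhL.bm H.U0
  have bhR := H.mhR.bm H.U0
  have brL := H.mrL.bm H.U0
  have brR := H.mrR.bm H.U0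
  have i0 : S.BM 0 0 0 (ind (In0 S.w bot j0 Ω)) := RS.BM.ind _
  have i0' := i0.mono H.U0 rfl n.zero_le le_rfl
  have i1 := (RS.BM.one (S := S)).mono H.U0 rfl n.zero_le le_rfl
  have ihL : S.BM 1 n 0 _ := (i0.mul bhL).mono H.U0 rfl (by omega) (by simp)
  have irL : S.BM 0 n 0 _ := (i0.mul brL).mono H.U0 rfl (by omega) (by simp)
  have k := fun {φ ψ} (o : OKr S t s h B c φ ψ) =>
    o.lev N.ht N.hs N.hh N.hK N.hR N.hB hU H.mτ pos N.c4 (σ := σ)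
  by_contra hc
  have k' := fun {φ ψ} (o : OKr S t s h B c φ ψ) => not_not.1 fun x => hc (k o x)
  refine x ?_
  simp only [sixZ, Pi.add_apply, k' (N.ok5 hU H), k' (N.ok5 hU H).symm, k' (N.ok3 hU H),
    k' (N.ok3 hU H).symm, k' (N.ok4 hU H), k' (N.ok4 hU H).symm, k' (N.ok2 hU H bhL i1 rfl),
    k' (N.ok2 hU H brL bhR rfl), k' (N.ok2 hU H i1 bhR rfl).symm, k' (N.ok2 hU H bhL brR rfl).symm,
    k' (N.ok1 hU H ihL i1 rfl), k' (N.ok1 hU H irL bhR rfl), k' (N.ok1 hU H bhR i0' rfl),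
    k' (N.ok1 hU H brR ihL rfl), add_zero]

lemma SixR.levξ {σ} (x : co p1 p0 σ ≠ 0) : ∑ i, π (σ i) = 0 ∧ 2 * c ≤ lvr S t s h K σ := by
  have x1 := left_ne_zero_of_mul x
  have x0 := right_ne_zero_of_mul x
  refine ⟨by rw [Fin.sum_univ_four, H.w1 _ _ x1, H.w0 _ _ x0]; grind, ?_⟩
  have c5 := N.c5
  obtain ⟨a1, a2 | a2⟩ := H.P1 _ _ x1
  · have := N.low hU a2 (H.P0 _ _ x0).1 le_rfl le_rfl
    norm_num at this
    linarith [this.1, this.2]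
  obtain ⟨b1, b2 | b2⟩ := H.P0 _ _ x0
  · have := N.low hU a1 b2 le_rfl le_rfl
    norm_num at this
    linarith [this.1, this.2]
  have := (N.low hU a1 b1 le_rfl le_rfl).1
  obtain ⟨b2, b3, -⟩ := H.sp0 _ _ b2
  rw [a2.1, a2.2, b2, b3] at this
  have := N.c6
  simp only [qq] at *
  push_cast at *
  linarith

lemma SixR.levδ {σ} (x : (totD (alt d dᵀ) *ᵥ co p1 p0) σ ≠ 0) :
    2 * S.a - 2 * c + θ ≤ lvr S t s h K σ + S.a := by
  have b1 : bdy d p1 = 1 := by rw [H.e1, bdy_add, H.e0, bdy_bdy H.dd, add_zero]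
  rw [D_co, b1, H.e0] at x
  have c7 := N.c7
  rcases F2.add_ne x with x | x
  · have := N.low hU (RS.BM.one _ _ (left_ne_zero_of_mul x))
      (H.P0 _ _ (right_ne_zero_of_mul x)).1 (by omega) le_rfl
    norm_num at this
    linarith [this.1, this.2]
  · have := N.low hU (H.P1 _ _ (left_ne_zero_of_mul x)).1
      (RS.BM.one _ _ (right_ne_zero_of_mul x)) le_rfl (by omega)
    norm_num at this
    linarith [this.1, this.2]

end

end Pool.Agent.Lib.MP_9488bf_co.Rc
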