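import Pool.Agent.Lib.MP_9488bf_co.RcSix
import Pool.Agent.Lib.MP_5a3ebe_gt.ApWin

/-! The window theorem for rectangles. -/

namespace Pool.Agent.Lib.MP_9488bf_co.Rc

open Classical Matrix Function Filter Topology Pool.Agent.Lib.MP_5a3ebe_gt.Ap

noncomputable def ga (t s a b : ℝ) : ℝ := t * (a + b) / 4 - s * (a - b) / 4

noncomputable def gb (t s a b : ℝ) : ℝ := t * (a + b) / 4 + s * (a - b) / 4

/-- The combinatorial core: an almost critical quadruple with action in a window. -/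
def CoreR (t s : ℝ) : Prop :=
  ∀ R ω : ℝ, 0 < ω → ω ≤ R → ∃ c K0 : ℝ, 0 < c ∧ ∀ K γ W g : ℝ, K0 ≤ K → 0 < γ → 0 < W → 0 < g →
  ∀ (ι : Type) [Fintype ι] [DecidableEq ι], ∃ h0 : ℝ, 0 < h0 ∧ ∀ h : ℝ, 0 < h → h ≤ h0 →
  ∀ (D : Diag ι) (Y F : ℤ → ι → ℝ) (A : ℝ) (j0 : ℤ) (bot : ι → Prop) (yc : ℝ),
    D.Good → D.Conn → D.Lev (fun k s => -(h * D.key k s)) F A →
    (∀ k s, D.Al k s → |D.key k s| ≤ R) → (∀ s ∈ D.S, ∀ t ∈ D.S, h * (D.e s - D.b t) ≤ 2 * R) →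
    D.Sep (j0 - ⌊ω / h⌋) (j0 + ⌊ω / h⌋) bot yc ω → D.Quiet j0 →
    Odd (Set.ncard {s | D.Al j0 s ∧ bot s}) →
    (∀ i s, D.Touch i s → ∃ b1 y1 b2 y2, D.Sep (i - ⌊W / h⌋) (i + ⌊W / h⌋) b1 y1 g ∧
      D.Sep (i - ⌊W / h⌋) (i + ⌊W / h⌋) b2 y2 g ∧ ¬ b1 s ∧ b2 s ∧
      Y i s - γ / 4 ≤ y1 ∧ y2 ≤ Y i s + γ / 4) →
    ∃ (i1 i2 i3 i4 : ℤ) (s1 s2 s3 s4 : ι) (m : ℤ) (x1 x2 x3 x4 u V : ℝ),
      D.Touch i1 s1 ∧ D.Touch i2 s2 ∧ D.Touch i3 s3 ∧ D.Touch i4 s4 ∧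
      x1 = h * i1 ∧ x2 = h * i2 ∧ x3 = h * i3 ∧ x4 = h * i4 ∧ u = x1 - x2 + x3 - x4 ∧
      |ga t s (x1 - x3) (x2 - x4) - K * u - Y i1 s1| ≤ γ ∧
      |gb t s (x1 - x3) (x2 - x4) + K * u + Y i2 s2| ≤ γ ∧
      |-ga t s (x1 - x3) (x2 - x4) - K * u - Y i3 s3| ≤ γ ∧
      |-gb t s (x1 - x3) (x2 - x4) + K * u + Y i4 s4| ≤ γ ∧
      V = F i1 s1 - F i2 s2 + F i3 s3 - F i4 s4 + qq t s (x1 - x3) (x2 - x4) - K * u ^ 2 / 2 +
        m * A ∧ c ≤ V ∧ V ≤ A - c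

lemma numerics {t s h R B ω l c K θ : ℝ} {Ω n : ℕ} (ht : 0 < t) (hs : 0 < s) (hh : 0 < h)
    (hω : 0 < ω) (R0 : 0 < R) (hB : (1 + t + s) * R ≤ B) (l0 : 0 < l) (K0 : 0 < K)
    (l1 : (3 * (R + B) + ω) * l ≤ ω ^ 2 / 5) (l2 : (3 * (R + B) + ω) * l ≤ s * ω ^ 2 / 200)
    (l3 : 5 * t * l ≤ ω) (l4 : 15 * l ≤ ω) (l5 : 2 * l ≤ t * ω) (hc : c = ω * l / 20)
    (K1 : B ^ 2 / (2 * K) < c) (z1 : ω / 5 ≤ h * Ω ∧ h * Ω ≤ ω / 4) (z2 : l / 2 ≤ h * n)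
    (z3 : h * (2 * n + 2) ≤ 3 * l) (s3 : 4 * (R + B) * h ≤ ω * l) (s4 : h ≤ 1)
    (s5 : (2 * R + s / 2 + 2 * K) * h ≤ c) (s6 : θ ≤ c) :
    SixR t s h R B K c (2 * ω * h * Ω) (2 * h * ω) θ Ω n ∧ 2 * ω ^ 2 / 5 ≤ 2 * ω * h * Ω ∧
      2 * (h * R) * (2 * n + 2) < 2 * ω * h * Ω := by
  have z4 : 0 ≤ h * (2 * n + 2) := by positivity
  have RB : R ≤ B := by nlinarith
  have nΩ : 2 * n + 2 ≤ Ω := by
    have : h * (2 * n + 2) ≤ h * Ω := by linarith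
    exact_mod_cast le_of_mul_le_mul_left this hh
  have z5 : 2 * ω ^ 2 / 5 ≤ 2 * ω * h * Ω := by nlinarith
  have z6 : (R + B) * (h * (2 * n + 2)) ≤ (R + B) * (3 * l) :=
    mul_le_mul_of_nonneg_left z3 (by linarith)
  have z6' : R * (h * (2 * n + 2)) ≤ B * (h * (2 * n + 2)) := mul_le_mul_of_nonneg_right RB z4
  have z7 : t * (h * (2 * n + 2)) ^ 2 ≤ 9 * (ω * l) / 5 := by
    have a := mul_le_mul_of_nonneg_left (pow_le_pow_left₀ z4 z3 2) ht.le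
    have b := mul_le_mul_of_nonneg_right l3 l0.le
    linarith
  have z9 : 2 * h * R + s * h ^ 2 / 2 + 2 * K * h ^ 2 ≤ c := by
    have a : h ^ 2 ≤ h := by nlinarith
    have b := mul_le_mul_of_nonneg_left a hs.le
    have b' := mul_le_mul_of_nonneg_left a K0.le
    linarith
  have z10 : ω ^ 2 / 25 ≤ (h * Ω) ^ 2 := by nlinarith
  have z11 := mul_le_mul_of_nonneg_left z10 hs.le
  have z11' := mul_le_mul_of_nonneg_left z10 ht.le
  have w2 : 0 < ω ^ 2 := by positivity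
  have w3 : 0 < s * h ^ 2 := by positivity
  have w4 : 0 < ω * l := by positivity
  have w5 : 0 < (R + B) * l := mul_pos (by linarith) l0
  have z12 := mul_le_mul_of_nonneg_left z2 hω.le
  have z13 := mul_le_mul_of_nonneg_left l5 hω.le
  exact ⟨⟨ht, hs, hh, R0.le, hB, K0, by linarith, by linarith, nΩ, by linarith, K1, by linarith,
      by linarith, by linarith⟩, z5, by linarith⟩

noncomputable def grr (t s K x1 x2 x3 x4 : ℝ) (i : Fin 4) : ℝ :=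
  alt (if i = 0 then 1 else -1) 0 i * ga t s (x1 - x3) (x2 - x4) +
    alt 0 (if i = 1 then 1 else -1) i * gb t s (x1 - x3) (x2 - x4) +
    alt (-1) 1 i * K * (x1 - x2 + x3 - x4)

lemma qr_upd {X : Type} [DecidableEq X] (w : X → ℤ) {t s h K : ℝ} (ht : 0 < t) (hs : 0 < s)
    (K0 : t ≤ K) (σ : Fin 4 → X) (i : Fin 4) (x : X) :
    qr t s K (h * w (update σ i x 0)) (h * w (update σ i x 1)) (h * w (update σ i x 2))
      (h * w (update σ i x 3)) ≤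
      qr t s K (h * w (σ 0)) (h * w (σ 1)) (h * w (σ 2)) (h * w (σ 3)) +
      h * (w x - w (σ i)) * grr t s K (h * w (σ 0)) (h * w (σ 1)) (h * w (σ 2)) (h * w (σ 3)) i := by
  have k : 0 ≤ K / 2 - t / 8 + s / 8 := by linarith
  revert i
  refine alt_ind ?_ ?_ ?_ ?_ <;> simp [qr, qq, grr, ga, gb, update_of_ne]
  · linarith [mul_nonneg k (sq_nonneg (h * w x - h * w (σ 0)))]
  · linarith [mul_nonneg k (sq_nonneg (h * w x - h * w (σ 1)))]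
  · linarith [mul_nonneg k (sq_nonneg (h * w x - h * w (σ 2)))]
  · linarith [mul_nonneg k (sq_nonneg (h * w x - h * w (σ 3)))]

lemma grr_abs {t s K r x1 x2 x3 x4 : ℝ} (ht : 0 < t) (hs : 0 < s) (K0 : 0 < K)
    (a : |x1 - x3| ≤ 2 * r) (b : |x2 - x4| ≤ 2 * r) (u : |x1 - x2 + x3 - x4| ≤ 4 * r) (i : Fin 4) :
    |grr t s K x1 x2 x3 x4 i| ≤ (t + s + 4 * K) * r := by
  obtain ⟨a1, a2⟩ := abs_le.1 a
  obtain ⟨b1, b2⟩ := abs_le.1 b
  obtain ⟨u1, u2⟩ := abs_le.1 u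
  have v1 := mul_le_mul_of_nonneg_left u1 K0.le
  have v2 := mul_le_mul_of_nonneg_left u2 K0.le
  have v3 := mul_le_mul_of_nonneg_left (add_le_add a1 b1) ht.le
  have v4 := mul_le_mul_of_nonneg_left (add_le_add a2 b2) ht.le
  have v5 := mul_le_mul_of_nonneg_left (sub_le_sub a1 b2) hs.le
  have v6 := mul_le_mul_of_nonneg_left (sub_le_sub a2 b1) hs.le
  revert i
  refine alt_ind ?_ ?_ ?_ ?_ <;> simp [grr, ga, gb, abs_le] <;> constructor <;> linarith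

lemma grr_lip {X : Type} (w : X → ℤ) {t s h K : ℝ} (ht : 0 < t) (hs : 0 < s) (hh : 0 < h)
    (K0 : 0 < K) (σ σ' : Fin 4 → X)
    (i : Fin 4) (m : ℕ) (hm : ∀ j, w (σ j) ≤ w (σ' j) + m ∧ w (σ' j) ≤ w (σ j) + m) :
    |grr t s K (h * w (σ 0)) (h * w (σ 1)) (h * w (σ 2)) (h * w (σ 3)) i -
      grr t s K (h * w (σ' 0)) (h * w (σ' 1)) (h * w (σ' 2)) (h * w (σ' 3)) i| ≤
      (t + s + 4 * K) * h * m := by
  have b := fun j => abs_le.1 (int_abs hh (z := w (σ j) - w (σ' j)) (m := m)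
    (by have := hm j; omega) (by have := hm j; omega))
  have b0 := b 0
  have b1 := b 1
  have b2 := b 2
  have b3 := b 3
  push_cast at b0 b1 b2 b3
  have := grr_abs (r := h * m) (x1 := h * w (σ 0) - h * w (σ' 0))
    (x2 := h * w (σ 1) - h * w (σ' 1)) (x3 := h * w (σ 2) - h * w (σ' 2))
    (x4 := h * w (σ 3) - h * w (σ' 3)) ht hs K0
    (abs_le.2 ⟨by linarith [b0.1, b2.2], by linarith [b0.2, b2.1]⟩)
    (abs_le.2 ⟨by linarith [b1.1, b3.2], by linarith [b1.2, b3.1]⟩)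
    (abs_le.2 ⟨by linarith [b0.1, b1.2, b2.1, b3.2], by linarith [b0.2, b1.1, b2.2, b3.1]⟩) i
  rw [mul_assoc]
  refine le_trans (le_of_eq ?_) this
  congr 1
  unfold grr ga gb
  ring

lemma grr_bd {X : Type} (w : X → ℤ) {t s h K R : ℝ} (ht : 0 < t) (hs : 0 < s) (K0 : 0 < K)
    (pos : ∀ g g', h * w g - h * w g' ≤ 2 * R) (σ : Fin 4 → X) (i : Fin 4) :
    |grr t s K (h * w (σ 0)) (h * w (σ 1)) (h * w (σ 2)) (h * w (σ 3)) i| ≤ (t + s + 4 * K) * R :=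
  grr_abs ht hs K0 (abs_le.2 ⟨by linarith [pos (σ 2) (σ 0)], pos _ _⟩)
    (abs_le.2 ⟨by linarith [pos (σ 3) (σ 1)], pos _ _⟩)
    (abs_le.2 ⟨by linarith [pos (σ 1) (σ 0), pos (σ 3) (σ 2)],
      by linarith [pos (σ 0) (σ 1), pos (σ 2) (σ 3)]⟩) i

theorem coreR {t s : ℝ} (ht : 0 < t) (hs0 : 0 < s) : CoreR t s := by
  intro R ω hω hωR
  have R0 : 0 < R := hω.trans_le hωR
  obtain ⟨B, hB⟩ : ∃ B, B = (1 + t + s) * R := ⟨_, rfl⟩
  have B0 : 0 < B := by rw [hB]; positivity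
  have evl : ∀ᶠ l in 𝓝 (0 : ℝ), (3 * (R + B) + ω) * l ≤ ω ^ 2 / 5 ∧
      (3 * (R + B) + ω) * l ≤ s * ω ^ 2 / 200 ∧ 5 * t * l ≤ ω ∧ 15 * l ≤ ω ∧ 2 * l ≤ t * ω := by
    simp only [eventually_and]
    refine ⟨?_, ?_, ?_, ?_, ?_⟩ <;> exact small _ _ (by positivity)
  obtain ⟨l', l00, evl⟩ := Metric.eventually_nhds_iff.1 evl
  obtain ⟨l, hl⟩ : ∃ l, l = l' / 2 := ⟨_, rfl⟩
  have l0 : 0 < l := by rw [hl]; positivity
  obtain ⟨l1, l2, l3, l4, l5⟩ := evl (y := l)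
    (by rw [Real.dist_eq, sub_zero, abs_of_pos l0]; linarith)
  obtain ⟨c, hc⟩ : ∃ c, c = ω * l / 20 := ⟨_, rfl⟩
  have c0 : 0 < c := by rw [hc]; positivity
  refine ⟨c, B ^ 2 / c + t, c0, fun K γ W g hK hγ hW hg ι _ _ => ?_⟩
  have Bc : 0 < B ^ 2 / c := by positivity
  have K0 : 0 < K := by linarith
  have Kt : t ≤ K := by linarith
  have K1 : B ^ 2 / (2 * K) < c := by
    rw [div_lt_iff₀ (by positivity)]
    have : B ^ 2 / c < 2 * K := by linarith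
    rw [div_lt_iff₀ c0] at this
    linarith
  obtain ⟨RK, hRK⟩ : ∃ RK, RK = (t + s + 4 * K) * R := ⟨_, rfl⟩
  have RK0 : 0 < RK := by rw [hRK]; positivity
  obtain ⟨P0, hP0⟩ : ∃ P0, P0 = 2 * Fintype.card ι + 1 := ⟨_, rfl⟩
  obtain ⟨N, N2, hN⟩ : ∃ N : ℕ, 2 ≤ N ∧ 20 * (4 * P0 + 2) * (R + RK) ≤ (N - 1) * γ / 2 := by
    obtain ⟨N, hN⟩ := exists_nat_ge (40 * (4 * P0 + 2) * (R + RK) / γ)
    rw [div_le_iff₀ hγ] at hN
    exact ⟨N + 2, by omega, by push_cast; nlinarith⟩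
  have ev : ∀ᶠ h in 𝓝 (0 : ℝ), 25 * h ≤ ω ∧ 2 * h ≤ l ∧ 4 * (R + B) * h ≤ ω * l ∧ 1 * h ≤ 1 ∧
      (2 * R + s / 2 + 2 * K) * h ≤ c ∧ (N - 1) * γ / 2 * h ≤ c ∧ 4 * h ≤ W ∧
      4 * ((8 * P0 + 7) * N + 1) * h ≤ W ∧
      (t + s + 4 * K) * ((8 * P0 + 6) * N) * h ≤ γ / 4 ∧
      ((N - 1) * γ / 2 + (20 * (4 * P0 + 2) + 1) * N * (R + RK)) * h ≤ g * W / 2 ∧
      ((N - 1) * γ / 2 + (20 * (4 * P0 + 2) + 1) * N * (R + RK)) * h ≤ ω ^ 2 / 5 := by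
    simp only [eventually_and]
    refine ⟨?_, ?_, ?_, ?_, ?_, ?_, ?_, ?_, ?_, ?_, ?_⟩ <;> exact small _ _ (by positivity)
  obtain ⟨h0, h00, ev⟩ := Metric.eventually_nhds_iff.1 ev
  refine ⟨h0 / 2, by positivity, fun h hh hh0 D Y F A j0 bot yc Gd C L hR pos S q od loc => ?_⟩
  obtain ⟨s1, s2, s3, s4, s5, s6, s7, s8, s9, s10, s11⟩ := ev (y := h)
    (by rw [Real.dist_eq, sub_zero, abs_of_pos hh]; linarith)
  obtain ⟨Ω, Ω1, Ω2, Ω3⟩ := floor_div hh hω 1 4 (by omega) (by push_cast; linarith)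
  obtain ⟨n, -, n2, n3⟩ := floor_div hh l0 0 1 (by omega) (by push_cast; linarith)
  obtain ⟨M, M1, M2, M3⟩ := floor_div hh hW 0 2 (by omega) (by push_cast; linarith)
  push_cast at Ω1 Ω2 Ω3 n2 n3 M1 M2 M3
  obtain ⟨X, _, _, T, Sp⟩ := D.exists_tc Gd
  have hl := L.adm Gd fun k s t _ _ o => neg_le_neg (mul_le_mul_of_nonneg_left o.le hh.le)
  have hs : ∀ k s, D.Al k s → (F (k + 1) s - if D.dir s then A / 2 else 0) -
      (F k s - if D.dir s then A / 2 else 0) = -(h * D.key k s) := fun k s al => by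
    rw [L.step k s al]; ring
  have hM : (8 * P0 + 7) * N + 1 ≤ M := by
    have : h * ((8 * P0 + 7) * N + 1) ≤ h * M := by linarith
    exact_mod_cast le_of_mul_le_mul_left this hh
  obtain ⟨Nm, z5, cU⟩ := numerics (θ := (N - 1) * h * γ / 2) (Ω := Ω) (n := n) ht hs0 hh hω R0
    hB.ge l0 K0 l1 l2 l3 l4 l5 hc K1 ⟨by linarith, by linarith⟩ (by linarith) (by linarith) s3
    (by linarith) s5 (by linarith)
  have nΩ := Nm.c2'
  have z6 : g * W / 2 ≤ 2 * g * h * M := by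
    have : g * (W / 2) ≤ g * (2 * (h * M)) := mul_le_mul_of_nonneg_left (by linarith) hg.le
    linarith
  obtain ⟨τ, p0, p1, p2, hL, hR', rL, rR, bt, sp, Zb, Zt, H⟩ := Sp.six Gd C hl hh hs hR R0.le S hω q
    od Ω n Ω1 (by omega) cU
  obtain ⟨φ, Fc⟩ := Sp.fac Gd C hl hh hs hR N M _ (by omega) (by omega) hg loc
  rw [← hP0] at Fc
  have pos' : ∀ g g', h * T.w g - h * T.w g' ≤ 2 * R := fun g g' => by
    obtain ⟨a1, a2, a3⟩ := Sp.touch g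
    obtain ⟨b1, b2, b3⟩ := Sp.touch g'
    have : (T.w g : ℝ) - T.w g' ≤ D.e (T.st g) - D.b (T.st g') := by
      exact_mod_cast (by omega : T.w g - T.w g' ≤ D.e (T.st g) - D.b (T.st g'))
    linarith [pos _ a1 _ b1, mul_le_mul_of_nonneg_left this hh.le]
  have ha : ω ^ 2 / 5 ≤ A / 2 := by
    have := H.ca
    simp only [TC.rs] at this
    linarith
  by_contra hcon
  generalize hS : T.rs D (fun i s => F i s - if D.dir s then A / 2 else 0) (A / 2) h R = S0 at H Fc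
  have Sw : S0.w = T.w := by rw [← hS]; rfl
  have Sa : S0.a = A / 2 := by rw [← hS]; rfl
  have SU : S0.U = h * R := by rw [← hS]; rfl
  have Sl : ∀ g, S0.lam g = F (T.w g) (T.st g) -
      ((if D.dir (T.st g) then 1 else 0) + (if T.sl g then 1 else 0) : ℤ) * (A / 2) := fun g => by
    rw [← hS]
    simp only [TC.rs, TC.lv]
    split_ifs <;> push_cast <;> ring
  have lv : ∀ σ : Fin 4 → X, ∑ i, (alt S0 S0.neg i).lam (σ i) +
      qr t s K (h * T.w (σ 0)) (h * T.w (σ 1)) (h * T.w (σ 2)) (h * T.w (σ 3)) =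
      lvr S0 t s h K σ - A := fun σ => by
    simp only [Fin.sum_univ_four, alt0, alt1, alt2, alt3, lvr, RS.neg, Sw, Sa]
    ring
  have := tot_push (alt S0 S0.neg) (alt T.d T.dᵀ) _ _ N M _ P0 (T.par D) _ h (γ / 4) _
    (Fc.alt Fc.transpose) T.w (A / 2) R RK (t + s + 4 * K) γ
    ((N - 1) * h * γ / 2 + 20 * (4 * P0 + 2) * (N * h * (R + RK))) (2 * c)
    (A - 2 * c) (alt_ind Sw Sw Sw Sw) (alt_ind Sa Sa Sa Sa) (alt_ind SU SU SU SU)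
    (fun σ => qr t s K (h * T.w (σ 0)) (h * T.w (σ 1)) (h * T.w (σ 2)) (h * T.w (σ 3)))
    (fun i σ => grr t s K (h * T.w (σ 0)) (h * T.w (σ 1)) (h * T.w (σ 2)) (h * T.w (σ 3)) i)
    (qr_upd T.w ht hs0 Kt) (grr_lip T.w ht hs0 hh K0)
    (fun σ i => (grr_bd T.w ht hs0 K0 pos' σ i).trans hRK.ge) hh R0.le RK0.le hγ N2
    (by omega) (by linarith) hN le_rfl (by linarith) (by linarith) (fun k σ pk a0 a1 => ?_)
    _ (co p1 p0) (sixZ_cyc H.dd H.eL H.eR H.eτ H.e0 H.e1 H.e2 rfl) (fun σ x => ?_)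
    (fun σ x => ?_) (fun σ x => ?_)
  · rw [H.pair] at this
    exact one_ne_zero this
  · by_contra hn
    push Not at hn
    have pt : ∀ g, T.par D g =
        ((if D.dir (T.st g) then 1 else 0) + (if T.sl g then 1 else 0) : ℤ) := fun g => by
      unfold TC.par
      cases D.dir (T.st g) <;> cases T.sl g <;> simp
      rfl
    simp only [Fin.sum_univ_four, alt0, alt1, alt2, alt3, RS.neg, Sl, pt] at pk a0 a1
    generalize ((if D.dir (T.st (σ 0)) then 1 else 0) + (if T.sl (σ 0) then 1 else 0) : ℤ) = t0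
      at pk a0 a1
    generalize ((if D.dir (T.st (σ 1)) then 1 else 0) + (if T.sl (σ 1) then 1 else 0) : ℤ) = t1
      at pk a0 a1
    generalize ((if D.dir (T.st (σ 2)) then 1 else 0) + (if T.sl (σ 2) then 1 else 0) : ℤ) = t2
      at pk a0 a1
    generalize ((if D.dir (T.st (σ 3)) then 1 else 0) + (if T.sl (σ 3) then 1 else 0) : ℤ) = t3
      at pk a0 a1
    obtain ⟨m, hm⟩ : (2 : ℤ) ∣ k - (t0 + t1 + t2 + t3) :=
      (ZMod.intCast_eq_intCast_iff_dvd_sub _ _ 2).1 (by push_cast; exact pk)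
    have hk : (k : ℝ) = t0 + t1 + t2 + t3 + 2 * m := by
      exact_mod_cast (by omega : k = t0 + t1 + t2 + t3 + 2 * m)
    have n0 := hn 0
    have n1 := hn 1
    have n2 := hn 2
    have n3 := hn 3
    simp [grr, abs_le] at n0 n1 n2 n3
    refine hcon ⟨T.w (σ 0), T.w (σ 1), T.w (σ 2), T.w (σ 3), T.st (σ 0), T.st (σ 1), T.st (σ 2),
      T.st (σ 3), m + t1 + t3, _, _, _, _, _, _, Sp.touch _, Sp.touch _, Sp.touch _, Sp.touch _,
      rfl, rfl, rfl, rfl, rfl, ?_, ?_, ?_, ?_, rfl, ?_, ?_⟩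
    · exact abs_le.2 ⟨by linarith [n0.1], by linarith [n0.2]⟩
    · exact abs_le.2 ⟨by linarith [n1.1], by linarith [n1.2]⟩
    · exact abs_le.2 ⟨by linarith [n2.1], by linarith [n2.2]⟩
    · exact abs_le.2 ⟨by linarith [n3.1], by linarith [n3.2]⟩
    · simp only [qr, hk] at a0
      push_cast
      linarith
    · simp only [qr, hk] at a1
      push_cast
      linarith
  · have := Nm.levZ SU H (by rw [Sw]; exact pos') x
    rw [lv]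
    linarith
  · have := Nm.levξ SU H x
    rw [lv]
    exact ⟨this.1, by linarith [this.2]⟩
  · have := Nm.levδ SU H x
    rw [lv]
    linarith

end Pool.Agent.Lib.MP_9488bf_co.Rc
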